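import Pool.Agent.K4H14.GC.Rand

/-!
# The Borel-Cantelli lemma
-/

set_option autoImplicit false

namespace Pool.Agent.K4H14.GC

open Finset MeasureTheory ProbabilityTheory

theorem prob_bad (k R : ℕ) (hk : 1 ≤ k) (hR : 1 ≤ R) (κ : ℝ) (hκ : 0 < κ) (hκk : κ * (2 * k) ≤ 1) :
    ∃ C : ℝ, 0 ≤ C ∧ ∀ {Ω : Type} [MeasurableSpace Ω] {P : Measure Ω} [IsProbabilityMeasure P] {e : ℕ → Ω → ℝ},
      Signs P e → ∀ N h : ℕ, 1 ≤ N → (N : ℝ) ^ κ ≤ h → (h : ℝ) * (N : ℝ) ^ κ ≤ N →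
      P {ω | ¬ |Bt N R h k (rmf e ω)| ≤ (N : ℝ) ^ (1 - κ / 16) * Real.sqrt h ^ k} ≤ ENNReal.ofReal (C * (N : ℝ) ^ (-(κ / 8))) := by
  obtain ⟨C, hC, h1⟩ := pairs_bound k R hk hR κ hκ hκk
  refine ⟨C, hC, ?_⟩
  intro Ω _ P _ e hS N h hN hNh hhN
  have hNr : (1 : ℝ) ≤ N := by exact_mod_cast hN
  have hN0 : (0 : ℝ) < N := by linarith
  have hs1 : (1 : ℝ) ≤ (N : ℝ) ^ κ := Real.one_le_rpow hNr hκ.le
  have hh1 : (1 : ℝ) ≤ h := hs1.trans hNh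
  have hh0 : (0 : ℝ) < h := by linarith
  have hsq0 : (0 : ℝ) < Real.sqrt h := Real.sqrt_pos.2 hh0
  obtain ⟨T, hT⟩ : ∃ T : ℝ, T = (N : ℝ) ^ (1 - κ / 16) * Real.sqrt h ^ k := ⟨_, rfl⟩
  have hT0 : 0 < T := by rw [hT]; positivity
  have h2 := (Bt_sq hS N R h k).trans (h1 N h hN hNh hhN)
  have hint : Integrable (fun ω => Bt N R h k (rmf e ω) ^ 2) P := by
    have hb : ∀ ω, |Bt N R h k (rmf e ω)| ≤ ∑ t ∈ NS N R h k, (cw N R h t : ℝ) := by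
      intro ω
      rw [Bt_rmf]
      refine (abs_sum_le_sum_abs _ _).trans (sum_le_sum fun t _ => ?_)
      rw [abs_mul, cm_abs hS, mul_one, Nat.abs_cast]
    apply Integrable.of_bound ((Bt_meas hS N R h k).pow_const 2).aestronglyMeasurable ((∑ t ∈ NS N R h k, (cw N R h t : ℝ)) ^ 2)
    refine Filter.Eventually.of_forall fun ω => ?_
    rw [Real.norm_eq_abs, abs_pow]
    exact pow_le_pow_left₀ (abs_nonneg _) (hb ω) 2
  have h3 := mul_meas_ge_le_integral_of_nonneg (μ := P) (f := fun ω => Bt N R h k (rmf e ω) ^ 2)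
    (Filter.Eventually.of_forall fun ω => sq_nonneg _) hint (T ^ 2)
  have h4 : {ω | ¬ |Bt N R h k (rmf e ω)| ≤ (N : ℝ) ^ (1 - κ / 16) * Real.sqrt h ^ k} ⊆ {ω | T ^ 2 ≤ Bt N R h k (rmf e ω) ^ 2} := by
    intro ω hω
    have hω' : ¬ |Bt N R h k (rmf e ω)| ≤ (N : ℝ) ^ (1 - κ / 16) * Real.sqrt h ^ k := hω
    rw [← hT, not_le] at hω'
    change T ^ 2 ≤ Bt N R h k (rmf e ω) ^ 2
    rw [← sq_abs (Bt N R h k (rmf e ω))]
    exact pow_le_pow_left₀ hT0.le hω'.le 2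
  refine (measure_mono h4).trans ?_
  rw [← ENNReal.ofReal_toReal (measure_ne_top P _)]
  apply ENNReal.ofReal_le_ofReal
  have h5 : T ^ 2 * P.real {ω | T ^ 2 ≤ Bt N R h k (rmf e ω) ^ 2} ≤ C * (N : ℝ) ^ (2 - κ / 4) * (Real.sqrt h ^ k) ^ 2 := h3.trans h2
  rw [measureReal_def] at h5
  have h6 : T ^ 2 = (N : ℝ) ^ (2 - κ / 8) * (Real.sqrt h ^ k) ^ 2 := by
    rw [hT, mul_pow, ← Real.rpow_natCast ((N : ℝ) ^ (1 - κ / 16)) 2, ← Real.rpow_mul hN0.le]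
    congr 2
    push_cast
    ring
  have h7 : C * (N : ℝ) ^ (2 - κ / 4) * (Real.sqrt h ^ k) ^ 2 = T ^ 2 * (C * (N : ℝ) ^ (-(κ / 8))) := by
    rw [h6]
    have h8 : (N : ℝ) ^ (2 - κ / 4) = (N : ℝ) ^ (2 - κ / 8) * (N : ℝ) ^ (-(κ / 8)) := by
      rw [← Real.rpow_add hN0]
      congr 1
      ring
    rw [h8]
    ring
  rw [h7] at h5
  exact le_of_mul_le_mul_left h5 (by positivity)

theorem summable_aux (κ c A : ℝ) (hκ : 0 < κ) : Summable fun v : ℕ => A * ((v : ℝ) + c) * ((2 : ℝ) ^ (v : ℕ)) ^ (-κ) := by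
  have hq : (2 : ℝ) ^ (-κ) < 1 := Real.rpow_lt_one_of_one_lt_of_neg (by norm_num) (by linarith)
  have hq0 : 0 < (2 : ℝ) ^ (-κ) := by positivity
  have h1 : ∀ v : ℕ, ((2 : ℝ) ^ (v : ℕ)) ^ (-κ) = ((2 : ℝ) ^ (-κ)) ^ v := by
    intro v
    rw [← Real.rpow_natCast, ← Real.rpow_mul (by norm_num), ← Real.rpow_natCast ((2 : ℝ) ^ (-κ)), ← Real.rpow_mul (by norm_num)]
    congr 1
    ring
  have h2 := summable_pow_mul_geometric_of_norm_lt_one 1 (r := (2 : ℝ) ^ (-κ)) (by rw [Real.norm_eq_abs, abs_of_pos hq0]; exact hq)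
  have h3 := summable_geometric_of_lt_one hq0.le hq
  have h4 := (h2.mul_left A).add (h3.mul_left (A * c))
  refine h4.congr fun v => ?_
  rw [h1, pow_one]
  ring

theorem ae_good (K b : ℕ) (κ : ℝ) (hκ : 0 < κ) (hκK : κ * (2 * K) ≤ 1) {Ω : Type} [MeasurableSpace Ω] {P : Measure Ω}
    [IsProbabilityMeasure P] {e : ℕ → Ω → ℝ} (hS : Signs P e) :
    ∀ᵐ ω ∂P, ∀ᶠ v : ℕ in Filter.atTop, ∀ i : ℕ, 2 ^ b ≤ i → i < 2 ^ (b + 1) → Good K (2 ^ b) κ (rmf e ω) (i * 2 ^ v) := by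
  classical
  -- constants
  have hC : ∀ k R : ℕ, ∃ C : ℝ, 0 ≤ C ∧ (1 ≤ k → k ≤ K → 1 ≤ R → ∀ N h : ℕ, 1 ≤ N → (N : ℝ) ^ κ ≤ h → (h : ℝ) * (N : ℝ) ^ κ ≤ N →
      P {ω | ¬ |Bt N R h k (rmf e ω)| ≤ (N : ℝ) ^ (1 - κ / 16) * Real.sqrt h ^ k} ≤ ENNReal.ofReal (C * (N : ℝ) ^ (-(κ / 8)))) := by
    intro k R
    by_cases hk : 1 ≤ k ∧ k ≤ K ∧ 1 ≤ R
    · obtain ⟨C, hC, h1⟩ := prob_bad k R hk.1 hk.2.2 κ hκ (by
        refine le_trans (mul_le_mul_of_nonneg_left ?_ hκ.le) hκK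
        have : (k : ℝ) ≤ K := by exact_mod_cast hk.2.1
        linarith)
      exact ⟨C, hC, fun _ _ _ => h1 hS⟩
    · exact ⟨0, le_rfl, fun h1 h2 h3 => absurd ⟨h1, h2, h3⟩ hk⟩
  choose C hC0 hprob using hC
  obtain ⟨D, hD⟩ : ∃ D : ℝ, D = ∑ k ∈ range (K + 1), (C k 2 + C k 8) := ⟨_, rfl⟩
  have hD0 : 0 ≤ D := by rw [hD]; exact sum_nonneg fun u _ => add_nonneg (hC0 u 2) (hC0 u 8)
  have hCD : ∀ k ≤ K, ∀ R, (R = 2 ∨ R = 8) → C k R ≤ D := fun k hk R hR => by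
    have h1 : C k 2 + C k 8 ≤ D := by
      rw [hD]
      exact single_le_sum (f := fun k => C k 2 + C k 8) (fun v _ => add_nonneg (hC0 v 2) (hC0 v 8)) (mem_range.2 (by omega))
    have h2 := hC0 k 2
    have h3 := hC0 k 8
    rcases hR with rfl | rfl <;> linarith
  -- the exceptional sets
  obtain ⟨bad, hbad⟩ : ∃ bad : (ℕ × ℕ × ℕ × ℕ × ℕ) → ℕ → Set Ω, bad = fun x v =>
    if 2 ^ b ≤ x.1 ∧ 1 ≤ x.2.1 ∧ x.2.1 ≤ K ∧ (((x.1 * 2 ^ v : ℕ) : ℝ)) ^ κ ≤ ((x.2.2.2.1 * 2 ^ x.2.2.2.2 : ℕ) : ℝ) ∧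
        ((x.2.2.2.1 * 2 ^ x.2.2.2.2 : ℕ) : ℝ) * (((x.1 * 2 ^ v : ℕ) : ℝ)) ^ κ ≤ ((x.1 * 2 ^ v : ℕ) : ℝ)
      then {ω | ¬ |Bt (x.1 * 2 ^ v) x.2.2.1 (x.2.2.2.1 * 2 ^ x.2.2.2.2) x.2.1 (rmf e ω)| ≤
        (((x.1 * 2 ^ v : ℕ) : ℝ)) ^ (1 - κ / 16) * Real.sqrt ((x.2.2.2.1 * 2 ^ x.2.2.2.2 : ℕ) : ℝ) ^ x.2.1}
      else ∅ := ⟨_, rfl⟩
  obtain ⟨I, hI⟩ : ∃ I : ℕ → Finset (ℕ × ℕ × ℕ × ℕ × ℕ), I = fun v =>
    (range (2 ^ (b + 1))) ×ˢ (range (K + 1)) ×ˢ ({2, 8} : Finset ℕ) ×ˢ (range (2 * 2 ^ b)) ×ˢ (range (v + b + 1)) := ⟨_, rfl⟩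
  obtain ⟨A, hA⟩ : ∃ A : ℝ, A = (2 ^ (b + 1) : ℝ) * (K + 1) * 2 * (2 * 2 ^ b) := ⟨_, rfl⟩
  have hA0 : 0 ≤ A := by rw [hA]; positivity
  have hmeas : ∀ v, P (⋃ x ∈ I v, bad x v) ≤ ENNReal.ofReal (A * D * ((v : ℝ) + (b + 1)) * ((2 : ℝ) ^ (v : ℕ)) ^ (-(κ / 8))) := by
    intro v
    refine (measure_biUnion_finset_le _ _).trans ?_
    have h1 : ∀ x ∈ I v, P (bad x v) ≤ ENNReal.ofReal (D * ((2 : ℝ) ^ (v : ℕ)) ^ (-(κ / 8))) := by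
      intro x hx
      rw [hI] at hx
      simp only [mem_product, mem_range, mem_insert, mem_singleton] at hx
      rw [hbad]
      simp only
      split_ifs with hc
      · have hN1 : 1 ≤ x.1 * 2 ^ v := Nat.mul_pos (lt_of_lt_of_le (by positivity) hc.1) (by positivity)
        have hR1 : 1 ≤ x.2.2.1 := by rcases hx.2.2.1 with h | h <;> omega
        refine (hprob x.2.1 x.2.2.1 hc.2.1 hc.2.2.1 hR1 _ _ hN1 hc.2.2.2.1 hc.2.2.2.2).trans ?_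
        apply ENNReal.ofReal_le_ofReal
        apply mul_le_mul (hCD _ hc.2.2.1 _ hx.2.2.1) _ (by positivity) hD0
        apply Real.rpow_le_rpow_of_nonpos (by positivity)
        · have h2 : 1 * 2 ^ v ≤ x.1 * 2 ^ v := Nat.mul_le_mul_right _ (le_trans (Nat.one_le_two_pow) hc.1)
          rw [one_mul] at h2
          exact_mod_cast h2
        · linarith
      · rw [measure_empty]
        exact zero_le
    refine (sum_le_sum h1).trans ?_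
    rw [sum_const, nsmul_eq_mul]
    have h2 : (I v).card = 2 ^ (b + 1) * ((K + 1) * (2 * (2 * 2 ^ b * (v + b + 1)))) := by
      rw [hI]
      simp only [card_product, card_range]
      rfl
    rw [h2, ← ENNReal.ofReal_natCast, ← ENNReal.ofReal_mul (Nat.cast_nonneg _)]
    apply ENNReal.ofReal_le_ofReal
    rw [hA]
    push_cast
    apply le_of_eq
    ring
  have hsum : ∑' v, P (⋃ x ∈ I v, bad x v) ≠ ⊤ := by
    have h1 := summable_aux (κ / 8) (b + 1) (A * D) (by positivity)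
    refine ne_top_of_le_ne_top h1.tsum_ofReal_ne_top (ENNReal.tsum_le_tsum hmeas)
  have hae := ae_eventually_notMem hsum
  filter_upwards [hae] with ω hω
  filter_upwards [hω] with v hv i hi1 hi2
  intro k hk1 hk2 R hR j s hj hc1 hc2
  by_contra hcon
  apply hv
  rw [Set.mem_iUnion₂]
  refine ⟨(i, k, R, j, s), ?_, ?_⟩
  · rw [hI]
    simp only [mem_product, mem_range, mem_insert, mem_singleton]
    refine ⟨hi2, by omega, hR, hj, ?_⟩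
    -- s ≤ v + b
    have hN1 : 1 ≤ i * 2 ^ v := Nat.mul_pos (lt_of_lt_of_le (by positivity) hi1) (by positivity)
    have hNr : (1 : ℝ) ≤ ((i * 2 ^ v : ℕ) : ℝ) := by exact_mod_cast hN1
    have hk1' : (1 : ℝ) ≤ (((i * 2 ^ v : ℕ) : ℝ)) ^ κ := Real.one_le_rpow hNr hκ.le
    have hj1 : 1 ≤ j := by
      rcases Nat.eq_zero_or_pos j with h0 | h0
      · rw [h0] at hc1
        simp at hc1
        push_cast at hk1'
        linarith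
      · exact h0
    have h1 : ((j * 2 ^ s : ℕ) : ℝ) ≤ ((i * 2 ^ v : ℕ) : ℝ) := le_trans (le_mul_of_one_le_right (Nat.cast_nonneg _) hk1') hc2
    have h2 : j * 2 ^ s ≤ i * 2 ^ v := by exact_mod_cast h1
    have h3 : 2 ^ s < 2 ^ (v + b + 1) := by
      calc 2 ^ s ≤ j * 2 ^ s := Nat.le_mul_of_pos_left _ hj1
        _ ≤ i * 2 ^ v := h2
        _ < 2 ^ (b + 1) * 2 ^ v := Nat.mul_lt_mul_of_pos_right hi2 (by positivity)
        _ = 2 ^ (v + b + 1) := by rw [← pow_add]; congr 1; ring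
    have := (Nat.pow_lt_pow_iff_right (by norm_num : 1 < 2)).1 h3
    exact this
  · rw [hbad]
    simp only
    rw [if_pos ⟨hi1, hk1, hk2, hc1, hc2⟩]
    exact hcon

end Pool.Agent.K4H14.GC
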