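import Pool.Agent.K4H14.GC.Count4

/-!
# Tuples with repetitions
-/

set_option autoImplicit false

namespace Pool.Agent.K4H14.GC

open Finset

/-- tuples with a square product in which no colour is perfectly paired -/
noncomputable def Bad {ι : Type} [Fintype ι] (N h Y : ℕ) (c : ι → ℕ) : Finset (ι → ℕ) :=
  open Classical in (Fintype.piFinset (fun _ : ι => Ioc N Y)).filter
    (fun t => (∀ i j, c i = c j → t i ≤ t j + h) ∧ (∀ i, Squarefree (t i)) ∧ IsSquare (∏ i, t i) ∧
      ∀ i, ∃ v, Odd (univ.filter (fun j => c j = c i ∧ t j = v)).card)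

theorem mem_Bad {ι : Type} [Fintype ι] [DecidableEq ι] {N h Y : ℕ} {c : ι → ℕ} {t : ι → ℕ} :
    t ∈ Bad N h Y c ↔ (∀ i, N < t i ∧ t i ≤ Y) ∧ (∀ i j, c i = c j → t i ≤ t j + h) ∧
      (∀ i, Squarefree (t i)) ∧ IsSquare (∏ i, t i) ∧
      ∀ i, ∃ v, Odd (univ.filter (fun j => c j = c i ∧ t j = v)).card := by
  classical
  unfold Bad
  simp only [mem_filter, Fintype.mem_piFinset, mem_Ioc]

/-- `p` is a choice of representatives for the equal entries of `t` of the same colour -/
def Pat {ι : Type} (c t : ι → ℕ) (p : ι → ι) : Prop :=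
  (∀ i, c (p i) = c i ∧ t (p i) = t i) ∧ (∀ i, p (p i) = p i) ∧ ∀ i j, (p i = p j ↔ c i = c j ∧ t i = t j)

theorem exists_pat {ι : Type} (c t : ι → ℕ) : ∃ p : ι → ι, Pat c t p := by
  classical
  rcases isEmpty_or_nonempty ι with hι | hι
  · exact ⟨fun i => i, fun i => (hι.false i).elim, fun i => (hι.false i).elim, fun i => (hι.false i).elim⟩
  obtain ⟨F, hF⟩ : ∃ F : ι → ℕ × ℕ, F = fun j => (c j, t j) := ⟨_, rfl⟩
  have h1 : ∀ i, F (Function.invFun F (F i)) = F i := fun i => Function.invFun_eq ⟨i, rfl⟩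
  have h2 : ∀ i, c (Function.invFun F (F i)) = c i ∧ t (Function.invFun F (F i)) = t i := by
    intro i
    have h3 := h1 i
    rw [hF] at h3
    simp only [Prod.mk.injEq] at h3
    rw [hF]
    exact h3
  refine ⟨fun i => Function.invFun F (F i), h2, fun i => ?_, fun i j => ⟨fun hij => ?_, fun hij => ?_⟩⟩
  · simp only
    rw [h1 i]
  · simp only at hij
    have h3 := h2 i
    have h4 := h2 j
    rw [hij] at h3
    exact ⟨h3.1.symm.trans h4.1, h3.2.symm.trans h4.2⟩
  · have h3 : F i = F j := by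
      rw [hF]
      simp only [Prod.mk.injEq]
      exact hij
    simp only
    rw [h3]

section

variable {ι : Type} [Fintype ι] [DecidableEq ι]

/-- the representatives of the classes of odd size -/
def OO (p : ι → ι) : Finset ι := univ.filter (fun r => p r = r ∧ Odd (univ.filter (fun j => p j = r)).card)

/-- the representatives of the classes of even size -/
def EE (p : ι → ι) : Finset ι := univ.filter (fun r => p r = r ∧ ¬ Odd (univ.filter (fun j => p j = r)).card)

theorem card_OO_EE (p : ι → ι) (hp : ∀ i, p (p i) = p i) : (OO p).card + 2 * (EE p).card ≤ Fintype.card ι := by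
  have h1 : Fintype.card ι = ∑ r ∈ univ.filter (fun r => p r = r), (univ.filter (fun j => p j = r)).card := by
    rw [← card_univ]
    apply card_eq_sum_card_fiberwise
    intro j _
    rw [mem_coe, mem_filter]
    exact ⟨mem_univ _, hp j⟩
  have h2 : univ.filter (fun r => p r = r) = OO p ∪ EE p := by
    ext r
    unfold OO EE
    simp only [mem_filter, mem_union, mem_univ, true_and]
    tauto
  have h3 : Disjoint (OO p) (EE p) := by
    rw [disjoint_left]
    intro r hr hr'
    unfold OO at hr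
    unfold EE at hr'
    rw [mem_filter] at hr hr'
    exact hr'.2.2 hr.2.2
  have h4 : ∀ r ∈ OO p, 1 ≤ (univ.filter (fun j => p j = r)).card := by
    intro r hr
    unfold OO at hr
    rw [mem_filter] at hr
    exact card_pos.2 ⟨r, mem_filter.2 ⟨mem_univ _, hr.2.1⟩⟩
  have h5 : ∀ r ∈ EE p, 2 ≤ (univ.filter (fun j => p j = r)).card := by
    intro r hr
    unfold EE at hr
    rw [mem_filter] at hr
    have h6 : 1 ≤ (univ.filter (fun j => p j = r)).card := card_pos.2 ⟨r, mem_filter.2 ⟨mem_univ _, hr.2.1⟩⟩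
    rcases Nat.eq_or_lt_of_le h6 with h7 | h7
    · exfalso
      apply hr.2.2
      rw [← h7]
      exact odd_one
    · exact h7
  rw [h1, h2, sum_union h3]
  have h6 := sum_le_sum h4
  have h7 := sum_le_sum h5
  rw [sum_const, smul_eq_mul, mul_one] at h6
  rw [sum_const, smul_eq_mul] at h7
  omega

theorem sq_of_mul_sq {x s : ℕ} (hs : s ≠ 0) (h : IsSquare (x * (s * s))) : IsSquare x := by
  obtain ⟨y, hy⟩ := h
  have h1 : s ∣ y := by
    have h2 : s ^ 2 ∣ y ^ 2 := ⟨x, by rw [sq, sq, ← hy]; ring⟩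
    exact (Nat.pow_dvd_pow_iff (by norm_num)).1 h2
  obtain ⟨z, rfl⟩ := h1
  refine ⟨z, ?_⟩
  have h3 : (s * s) * x = (s * s) * (z * z) := by
    calc (s * s) * x = x * (s * s) := by ring
      _ = s * z * (s * z) := hy
      _ = _ := by ring
  exact Nat.eq_of_mul_eq_mul_left (Nat.pos_of_ne_zero (mul_ne_zero hs hs)) h3

theorem odd_square (c t : ι → ℕ) (p : ι → ι) (hp : Pat c t p) (h0 : ∀ i, t i ≠ 0) (hsq : IsSquare (∏ i, t i)) :
    IsSquare (∏ r ∈ OO p, t r) := by
  have h1 : ∏ i, t i = ∏ r ∈ univ.filter (fun r => p r = r), t r ^ (univ.filter (fun j => p j = r)).card := by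
    have h2 : ∀ j ∈ (univ : Finset ι), p j ∈ univ.filter (fun r => p r = r) := fun j _ =>
      mem_filter.2 ⟨mem_univ _, hp.2.1 j⟩
    rw [← prod_fiberwise_of_maps_to h2]
    apply prod_congr rfl
    intro r _
    calc ∏ i ∈ univ.filter (fun j => p j = r), t i = ∏ _i ∈ univ.filter (fun j => p j = r), t r := by
          apply prod_congr rfl
          intro i hi
          rw [mem_filter] at hi
          rw [← hi.2]
          exact (hp.1 i).2.symm
      _ = _ := by rw [prod_const]
  have h2 : univ.filter (fun r => p r = r) = OO p ∪ EE p := by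
    ext r
    unfold OO EE
    simp only [mem_filter, mem_union, mem_univ, true_and]
    tauto
  have h3 : Disjoint (OO p) (EE p) := by
    rw [disjoint_left]
    intro r hr hr'
    unfold OO at hr
    unfold EE at hr'
    rw [mem_filter] at hr hr'
    exact hr'.2.2 hr.2.2
  rw [h1, h2, prod_union h3] at hsq
  have h4 : ∏ r ∈ OO p, t r ^ (univ.filter (fun j => p j = r)).card =
      (∏ r ∈ OO p, t r) * ((∏ r ∈ OO p, t r ^ ((univ.filter (fun j => p j = r)).card / 2)) *
        (∏ r ∈ OO p, t r ^ ((univ.filter (fun j => p j = r)).card / 2))) := by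
    rw [← prod_mul_distrib, ← prod_mul_distrib]
    apply prod_congr rfl
    intro r hr
    unfold OO at hr
    rw [mem_filter] at hr
    obtain ⟨a, ha⟩ := hr.2.2
    rw [ha, show (2 * a + 1) / 2 = a by omega]
    ring
  have h5 : ∏ r ∈ EE p, t r ^ (univ.filter (fun j => p j = r)).card =
      (∏ r ∈ EE p, t r ^ ((univ.filter (fun j => p j = r)).card / 2)) *
        (∏ r ∈ EE p, t r ^ ((univ.filter (fun j => p j = r)).card / 2)) := by
    rw [← prod_mul_distrib]
    apply prod_congr rfl
    intro r hr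
    unfold EE at hr
    rw [mem_filter, Nat.not_odd_iff_even] at hr
    obtain ⟨a, ha⟩ := hr.2.2
    rw [ha, show (a + a) / 2 = a by omega]
    ring
  rw [h4, h5] at hsq
  have h6 : (∏ r ∈ OO p, t r ^ ((univ.filter (fun j => p j = r)).card / 2)) *
      (∏ r ∈ EE p, t r ^ ((univ.filter (fun j => p j = r)).card / 2)) ≠ 0 := by
    apply mul_ne_zero
    · exact prod_ne_zero_iff.2 fun r _ => pow_ne_zero _ (h0 r)
    · exact prod_ne_zero_iff.2 fun r _ => pow_ne_zero _ (h0 r)
  apply sq_of_mul_sq h6
  convert hsq using 1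
  ring

end

end Pool.Agent.K4H14.GC
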