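import Pool.Agent.K4H14.GC.Bad

/-!
# Tuples with repetitions: the count
-/

set_option autoImplicit false

namespace Pool.Agent.K4H14.GC

open Finset

section

variable {ι : Type} [Fintype ι] [DecidableEq ι]

theorem bad_pattern (N h Y : ℕ) (c : ι → ℕ) (p : ι → ι) [DecidablePred fun t : ι → ℕ => Pat c t p] :
    ((Bad N h Y c).filter (fun t => Pat c t p)).card ≤
      (Sol N h Y (fun r : {r // r ∈ OO p} => c r)).card * (2 * h + 1) ^ (EE p).card := by
  classical
  rcases Finset.eq_empty_or_nonempty ((Bad N h Y c).filter (fun t => Pat c t p)) with he | ⟨t0, ht0⟩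
  · rw [he]; simp
  -- in every colour there is a representative of an odd class
  have hodd : ∀ i : ι, ∃ o : {r // r ∈ OO p}, c o = c i := by
    intro i
    rw [mem_filter, mem_Bad] at ht0
    obtain ⟨v, hv⟩ := ht0.1.2.2.2.2 i
    have hP := ht0.2
    have hne : (univ.filter (fun j => c j = c i ∧ t0 j = v)).Nonempty := by
      rw [← card_pos]
      exact hv.pos
    obtain ⟨j, hj⟩ := hne
    rw [mem_filter] at hj
    have hj1 := hP.1 j
    refine ⟨⟨p j, ?_⟩, by rw [← hj.2.1]; exact hj1.1⟩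
    unfold OO
    rw [mem_filter]
    refine ⟨mem_univ _, hP.2.1 j, ?_⟩
    convert hv using 2
    ext j'
    simp only [mem_filter, mem_univ, true_and]
    rw [hP.2.2 j' j, hj.2.1, hj.2.2]
  choose o ho using hodd
  have hmap : ∀ t ∈ (Bad N h Y c).filter (fun t => Pat c t p),
      ((fun r : {r // r ∈ OO p} => t r), (fun e : {e // e ∈ EE p} => t e + h - t (o e))) ∈
        (Sol N h Y (fun r : {r // r ∈ OO p} => c r)) ×ˢ Fintype.piFinset (fun _ : {e // e ∈ EE p} => range (2 * h + 1)) := by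
    intro t ht
    rw [mem_filter, mem_Bad] at ht
    obtain ⟨⟨h1, h2, h3, h4, h5⟩, hP⟩ := ht
    rw [mem_product]
    constructor
    · rw [mem_Sol]
      refine ⟨fun i => h1 _, fun i j hij => h2 _ _ hij, ?_, fun i => h3 _, ?_⟩
      · intro i j hij hcij htij
        apply hij
        have h6 := (hP.2.2 i j).2 ⟨hcij, htij⟩
        have h7 := i.2
        have h8 := j.2
        unfold OO at h7 h8
        rw [mem_filter] at h7 h8
        rw [h7.2.1, h8.2.1] at h6
        exact Subtype.ext h6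
      · have h6 := odd_square c t p hP (fun i => by have := (h1 i).1; omega) h4
        rwa [← prod_coe_sort] at h6
    · rw [Fintype.mem_piFinset]
      intro e
      rw [mem_range]
      have h6 := h2 e (o e) (ho e).symm
      have h7 := h2 (o e) e (ho e)
      simp only
      omega
  have hinj : Set.InjOn (fun t : ι → ℕ => ((fun r : {r // r ∈ OO p} => t r), (fun e : {e // e ∈ EE p} => t e + h - t (o e))))
      (((Bad N h Y c).filter (fun t => Pat c t p) : Finset (ι → ℕ)) : Set (ι → ℕ)) := by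
    intro t ht t' ht' htt
    rw [mem_coe, mem_filter, mem_Bad] at ht ht'
    simp only [Prod.mk.injEq] at htt
    obtain ⟨ha, hb⟩ := htt
    have hO : ∀ r ∈ OO p, t r = t' r := fun r hr => congrFun ha ⟨r, hr⟩
    funext i
    rw [← (ht.2.1 i).2, ← (ht'.2.1 i).2]
    by_cases hi : Odd (univ.filter (fun j => p j = p i)).card
    · apply hO
      unfold OO
      rw [mem_filter]
      exact ⟨mem_univ _, ht.2.2.1 i, hi⟩
    · have he : p i ∈ EE p := by
        unfold EE
        rw [mem_filter]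
        exact ⟨mem_univ _, ht.2.2.1 i, hi⟩
      have h6 := congrFun hb ⟨p i, he⟩
      simp only at h6
      have h7 := hO (o (p i)) (o (p i)).2
      have h8 := ht.1.2.1 (o (p i)) (p i) (ho (p i))
      have h9 := ht'.1.2.1 (o (p i)) (p i) (ho (p i))
      omega
  have h1 := card_le_card_of_injOn _ hmap hinj
  refine h1.trans (le_of_eq ?_)
  rw [card_product, Fintype.card_piFinset]
  simp only [card_range, prod_const, card_univ, Fintype.card_coe]

theorem bad_count (ι : Type) [Fintype ι] [Nonempty ι] (R : ℕ) (hR : 2 ≤ R) (κ : ℝ) (hκ : 0 < κ)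
    (hκu : κ * Fintype.card ι ≤ 1) :
    ∃ C : ℝ, 0 ≤ C ∧ ∀ (N h Y : ℕ) (c : ι → ℕ), 1 ≤ N →
      (N : ℝ) ^ κ ≤ h → (h : ℝ) * (N : ℝ) ^ κ ≤ N → 1 ≤ Y → Y ≤ R * N →
      ((Bad N h Y c).card : ℝ) ≤
        C * (N : ℝ) ^ (-(κ / 4)) * (Real.sqrt h ^ (Fintype.card ι) * ((N : ℝ) / h) ^ (univ.image c).card) := by
  classical
  have hcount : ∀ u : ℕ, ∃ C : ℝ, 0 ≤ C ∧ (1 ≤ u → u ≤ Fintype.card ι → ∀ (ι' : Type) [Fintype ι'], Fintype.card ι' = u →
      ∀ (N h Y : ℕ) (c : ι' → ℕ), 1 ≤ N → (N : ℝ) ^ κ ≤ h → (h : ℝ) * (N : ℝ) ^ κ ≤ N → 1 ≤ Y → Y ≤ R * N →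
      ((Sol N h Y c).card : ℝ) ^ 2 ≤
        C * (N : ℝ) ^ (-(κ / 2)) * ((h : ℝ) ^ u * ((N : ℝ) / h) ^ (2 * (univ.image c).card))) := by
    intro u
    by_cases hu : 1 ≤ u ∧ u ≤ Fintype.card ι
    · obtain ⟨C, hC, h1⟩ := count u R hu.1 hR κ hκ (by
        refine le_trans (mul_le_mul_of_nonneg_left ?_ hκ.le) hκu
        exact_mod_cast hu.2)
      exact ⟨C, hC, fun _ _ ι' _ hι' => h1 ι' hι'⟩
    · refine ⟨0, le_rfl, fun h1 h2 => absurd ⟨h1, h2⟩ hu⟩
  choose C hC hcnt using hcount
  obtain ⟨D, hD⟩ : ∃ D : ℝ, D = ∑ u ∈ range (Fintype.card ι + 1), C u := ⟨_, rfl⟩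
  have hD0 : 0 ≤ D := by rw [hD]; exact sum_nonneg fun u _ => hC u
  have hCD : ∀ u ≤ Fintype.card ι, C u ≤ D := fun u hu => by
    rw [hD]
    exact single_le_sum (f := C) (fun v _ => hC v) (mem_range.2 (by omega))
  refine ⟨(Fintype.card (ι → ι) : ℝ) * (Real.sqrt D * 3 ^ (Fintype.card ι)), by positivity, ?_⟩
  intro N h Y c hN hNh hhN hY1 hY
  have hNr : (1 : ℝ) ≤ N := by exact_mod_cast hN
  have hN0 : (0 : ℝ) < N := by linarith
  have hs1 : (1 : ℝ) ≤ (N : ℝ) ^ κ := Real.one_le_rpow hNr hκ.le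
  have hh1 : (1 : ℝ) ≤ h := hs1.trans hNh
  have hh0 : (0 : ℝ) < h := by linarith
  have h1 : (Bad N h Y c).card ≤ ∑ p : ι → ι, ((Bad N h Y c).filter (fun t => Pat c t p)).card := by
    have h2 : Bad N h Y c ⊆ univ.biUnion (fun p : ι → ι => (Bad N h Y c).filter (fun t => Pat c t p)) := by
      intro t ht
      obtain ⟨p, hp⟩ := exists_pat c t
      rw [mem_biUnion]
      exact ⟨p, mem_univ _, mem_filter.2 ⟨ht, hp⟩⟩
    exact (card_le_card h2).trans card_biUnion_le
  have h2 : ((Bad N h Y c).card : ℝ) ≤ ∑ p : ι → ι, (((Bad N h Y c).filter (fun t => Pat c t p)).card : ℝ) := by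
    exact_mod_cast h1
  refine h2.trans ?_
  have h3 : ∀ p ∈ (univ : Finset (ι → ι)), (((Bad N h Y c).filter (fun t => Pat c t p)).card : ℝ) ≤
      Real.sqrt D * 3 ^ (Fintype.card ι) * ((N : ℝ) ^ (-(κ / 4)) * (Real.sqrt h ^ (Fintype.card ι) * ((N : ℝ) / h) ^ (univ.image c).card)) := by
    intro p _
    have hnn : 0 ≤ Real.sqrt D * 3 ^ (Fintype.card ι) * ((N : ℝ) ^ (-(κ / 4)) * (Real.sqrt h ^ (Fintype.card ι) * ((N : ℝ) / h) ^ (univ.image c).card)) := by
      positivity
    rcases Finset.eq_empty_or_nonempty ((Bad N h Y c).filter (fun t => Pat c t p)) with he | ⟨t0, ht0⟩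
    · rw [he]; simpa using hnn
    have hpp : ∀ i, p (p i) = p i := by
      rw [mem_filter] at ht0
      exact ht0.2.2.1
    have hcOE := card_OO_EE p hpp
    -- an odd class exists
    have hO1 : 1 ≤ (OO p).card := by
      rw [mem_filter, mem_Bad] at ht0
      obtain ⟨v, hv⟩ := ht0.1.2.2.2.2 (Classical.arbitrary ι)
      have hP := ht0.2
      have hne : (univ.filter (fun j => c j = c (Classical.arbitrary ι) ∧ t0 j = v)).Nonempty := by
        rw [← card_pos]
        exact hv.pos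
      obtain ⟨j, hj⟩ := hne
      rw [mem_filter] at hj
      rw [Nat.one_le_iff_ne_zero, ← Nat.pos_iff_ne_zero, card_pos]
      refine ⟨p j, ?_⟩
      unfold OO
      rw [mem_filter]
      refine ⟨mem_univ _, hP.2.1 j, ?_⟩
      convert hv using 2
      ext j'
      simp only [mem_filter, mem_univ, true_and]
      rw [hP.2.2 j' j, hj.2.1, hj.2.2]
    have h4 := bad_pattern N h Y c p
    have h5 := hcnt (OO p).card hO1 (by omega) {r // r ∈ OO p} (Fintype.card_coe _) N h Y (fun r => c r) hN hNh hhN hY1 hY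
    have himg : (univ.image (fun r : {r // r ∈ OO p} => c r)).card ≤ (univ.image c).card := by
      apply card_le_card
      intro x hx
      rw [mem_image] at hx ⊢
      obtain ⟨r, _, hr⟩ := hx
      exact ⟨r, mem_univ _, hr⟩
    have hNh1 : (1 : ℝ) ≤ N / h := by
      rw [one_le_div hh0]
      nlinarith
    have h6 : (((Bad N h Y c).filter (fun t => Pat c t p)).card : ℝ) ≤
        ((Sol N h Y (fun r : {r // r ∈ OO p} => c r)).card : ℝ) * (3 * h) ^ (EE p).card := by
      have h7 : (((Bad N h Y c).filter (fun t => Pat c t p)).card : ℝ) ≤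
        ((Sol N h Y (fun r : {r // r ∈ OO p} => c r)).card : ℝ) * (2 * h + 1) ^ (EE p).card := by exact_mod_cast h4
      refine h7.trans (mul_le_mul_of_nonneg_left ?_ (Nat.cast_nonneg _))
      apply pow_le_pow_left₀ (by positivity)
      linarith
    have h7 : ((Sol N h Y (fun r : {r // r ∈ OO p} => c r)).card : ℝ) ≤
        Real.sqrt D * ((N : ℝ) ^ (-(κ / 4)) * (Real.sqrt h ^ (OO p).card * ((N : ℝ) / h) ^ (univ.image c).card)) := by
      have h8 : 0 ≤ Real.sqrt D * ((N : ℝ) ^ (-(κ / 4)) * (Real.sqrt h ^ (OO p).card * ((N : ℝ) / h) ^ (univ.image c).card)) := by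
        positivity
      apply le_of_sq_le_sq _ h8
      refine h5.trans ?_
      have e1 : (Real.sqrt D * ((N : ℝ) ^ (-(κ / 4)) * (Real.sqrt h ^ (OO p).card * ((N : ℝ) / h) ^ (univ.image c).card))) ^ 2 =
          D * (N : ℝ) ^ (-(κ / 2)) * ((h : ℝ) ^ (OO p).card * ((N : ℝ) / h) ^ (2 * (univ.image c).card)) := by
        rw [mul_pow, mul_pow, mul_pow, Real.sq_sqrt hD0, ← pow_mul, mul_comm (OO p).card 2, pow_mul,
          Real.sq_sqrt hh0.le, ← pow_mul, mul_comm (univ.image c).card 2, ← Real.rpow_natCast ((N : ℝ) ^ (-(κ / 4))) 2,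
          ← Real.rpow_mul hN0.le]
        have : -(κ / 4) * ((2 : ℕ) : ℝ) = -(κ / 2) := by push_cast; ring
        rw [this]
        ring
      rw [e1]
      apply mul_le_mul
      · exact mul_le_mul_of_nonneg_right (hCD _ (by omega)) (by positivity)
      · apply mul_le_mul_of_nonneg_left _ (by positivity)
        exact pow_le_pow_right₀ hNh1 (by omega)
      · positivity
      · positivity
    have h8 : Real.sqrt h ^ (OO p).card * (3 * h) ^ (EE p).card ≤ 3 ^ (Fintype.card ι) * Real.sqrt h ^ (Fintype.card ι) := by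
      have h9 : (1 : ℝ) ≤ Real.sqrt h := Real.one_le_sqrt.2 hh1
      calc Real.sqrt h ^ (OO p).card * (3 * h) ^ (EE p).card =
          3 ^ (EE p).card * Real.sqrt h ^ ((OO p).card + 2 * (EE p).card) := by
            rw [mul_pow, pow_add, pow_mul, Real.sq_sqrt hh0.le]
            ring
        _ ≤ 3 ^ (Fintype.card ι) * Real.sqrt h ^ (Fintype.card ι) := by
            apply mul_le_mul
            · exact pow_le_pow_right₀ (by norm_num) (by omega)
            · exact pow_le_pow_right₀ h9 hcOE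
            · positivity
            · positivity
    calc (((Bad N h Y c).filter (fun t => Pat c t p)).card : ℝ) ≤
        ((Sol N h Y (fun r : {r // r ∈ OO p} => c r)).card : ℝ) * (3 * h) ^ (EE p).card := h6
      _ ≤ (Real.sqrt D * ((N : ℝ) ^ (-(κ / 4)) * (Real.sqrt h ^ (OO p).card * ((N : ℝ) / h) ^ (univ.image c).card))) * (3 * h) ^ (EE p).card :=
          mul_le_mul_of_nonneg_right h7 (by positivity)
      _ = Real.sqrt D * (N : ℝ) ^ (-(κ / 4)) * ((N : ℝ) / h) ^ (univ.image c).card * (Real.sqrt h ^ (OO p).card * (3 * h) ^ (EE p).card) := by ring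
      _ ≤ Real.sqrt D * (N : ℝ) ^ (-(κ / 4)) * ((N : ℝ) / h) ^ (univ.image c).card * (3 ^ (Fintype.card ι) * Real.sqrt h ^ (Fintype.card ι)) :=
          mul_le_mul_of_nonneg_left h8 (by positivity)
      _ = _ := by ring
  refine (sum_le_sum h3).trans (le_of_eq ?_)
  rw [sum_const, card_univ, nsmul_eq_mul]
  ring

end

end Pool.Agent.K4H14.GC
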