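import Mathlib
import Pool.Agent.H353R2.Z2

/-!
# Tuples of squarefree numbers from short intervals whose product is a square: weights
-/

set_option autoImplicit false

namespace Pool.Agent.K4H14.GC

open Finset

/-- no earlier index has the same colour -/
def fst {m : ℕ} (c : Fin m → ℕ) (i : Fin m) : Prop := ∀ j < i, c j ≠ c i

/-- the length of the range of the `i`-th variable, given the previous ones -/
noncomputable def Lf (N h : ℝ) {m : ℕ} (c : Fin m → ℕ) (i : Fin m) : ℝ :=
  open Classical in if fst c i then N else h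

/-- the product of the previous variables -/
def prv {m : ℕ} (n : Fin m → ℕ) (i : Fin m) : ℕ := ∏ j ∈ Iio i, n j

/-- the part of the `i`-th variable which is shared with the previous ones -/
def gg {m : ℕ} (n : Fin m → ℕ) (i : Fin m) : ℕ := Nat.gcd (n i) (prv n i)

/-- the tuples -/
noncomputable def Tup (h Y : ℕ) {m : ℕ} (c : Fin m → ℕ) : Finset (Fin m → ℕ) :=
  open Classical in (Fintype.piFinset (fun _ : Fin m => Icc 1 Y)).filter
    (fun n => ∀ i j, c i = c j → n i ≤ n j + h)

theorem mem_Tup {h Y m : ℕ} {c : Fin m → ℕ} {n : Fin m → ℕ} :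
    n ∈ Tup h Y c ↔ (∀ i, 1 ≤ n i ∧ n i ≤ Y) ∧ ∀ i j, c i = c j → n i ≤ n j + h := by
  classical
  unfold Tup
  simp [Fintype.mem_piFinset]

theorem mult_count (A : Finset ℕ) (a b g : ℕ) (hg : 1 ≤ g) (hA : ∀ x ∈ A, a ≤ x ∧ x ≤ a + b) :
    ((A.filter (fun x => g ∣ x)).card : ℝ) ≤ b / g + 1 := by
  have h1 : (A.filter (fun x => g ∣ x)).card ≤ b / g + 1 := by
    have h2 : Set.InjOn (fun x => x / g) (A.filter (fun x => g ∣ x) : Set ℕ) := by
      intro x hx y hy hxy
      rw [mem_coe, mem_filter] at hx hy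
      obtain ⟨x', rfl⟩ := hx.2
      obtain ⟨y', rfl⟩ := hy.2
      simp only at hxy
      rw [Nat.mul_div_cancel_left _ (by omega), Nat.mul_div_cancel_left _ (by omega)] at hxy
      rw [hxy]
    rcases Finset.eq_empty_or_nonempty (A.filter (fun x => g ∣ x)) with he | hne
    · rw [he, card_empty]
      exact Nat.zero_le _
    obtain ⟨x0, hx0, hmin⟩ := Finset.exists_min_image (A.filter (fun x => g ∣ x)) (fun x => x) hne
    have h3 : ∀ x ∈ A.filter (fun x => g ∣ x), x / g ∈ Icc (x0 / g) (x0 / g + b / g) := by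
      intro x hx
      rw [mem_Icc]
      have h4 := hmin x hx
      rw [mem_filter] at hx hx0
      have h5 := hA x hx.1
      have h6 := hA x0 hx0.1
      obtain ⟨x', rfl⟩ := hx.2
      obtain ⟨y', rfl⟩ := hx0.2
      rw [Nat.mul_div_cancel_left _ (by omega), Nat.mul_div_cancel_left _ (by omega)]
      constructor
      · exact Nat.le_of_mul_le_mul_left h4 (by omega)
      · have h7 : g * x' ≤ g * y' + b := by omega
        have h8 : x' - y' ≤ b / g := by
          rw [Nat.le_div_iff_mul_le (by omega)]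
          have : (x' - y') * g = g * x' - g * y' := by rw [Nat.mul_comm, Nat.mul_sub]
          omega
        omega
    have h4 := Finset.card_le_card_of_injOn (fun x => x / g) h3 h2
    rw [Nat.card_Icc] at h4
    refine h4.trans ?_
    generalize b / g = u
    generalize x0 / g = v
    omega
  calc ((A.filter (fun x => g ∣ x)).card : ℝ) ≤ ((b / g + 1 : ℕ) : ℝ) := by exact_mod_cast h1
    _ ≤ b / g + 1 := by
      push_cast
      have := @Nat.cast_div_le ℝ _ _ _ b g
      linarith

/-- the sum over one variable -/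
theorem inner (A : Finset ℕ) (K L : ℝ) (hL : 0 ≤ L)
    (hA : ∀ g : ℕ, 1 ≤ g → ((A.filter (fun x => g ∣ x)).card : ℝ) ≤ K * (1 + L / g)) (P : ℕ) (hP : 1 ≤ P) :
    ∑ a ∈ A, (1 + L / (Nat.gcd a P : ℝ))⁻¹ ≤ K * (P.divisors.card : ℝ) := by
  calc ∑ a ∈ A, (1 + L / (Nat.gcd a P : ℝ))⁻¹ ≤
      ∑ a ∈ A, ∑ g ∈ P.divisors, (if g ∣ a then (1 + L / (g : ℝ))⁻¹ else 0) := by
        apply sum_le_sum
        intro a _
        have h1 : Nat.gcd a P ∈ P.divisors := Nat.mem_divisors.2 ⟨Nat.gcd_dvd_right _ _, by omega⟩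
        refine le_trans (le_of_eq ?_) (single_le_sum (f := fun g : ℕ => if g ∣ a then (1 + L / (g : ℝ))⁻¹ else 0) (fun g _ => ?_) h1)
        · rw [if_pos (Nat.gcd_dvd_left _ _)]
        · split_ifs <;> positivity
    _ = ∑ g ∈ P.divisors, ((A.filter (fun x => g ∣ x)).card : ℝ) * (1 + L / (g : ℝ))⁻¹ := by
        rw [sum_comm]
        apply sum_congr rfl
        intro g _
        rw [← sum_filter, sum_const, nsmul_eq_mul]
    _ ≤ ∑ g ∈ P.divisors, K := by
        apply sum_le_sum
        intro g hg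
        have hg1 : 1 ≤ g := Nat.pos_of_mem_divisors hg
        have h2 : (0 : ℝ) < 1 + L / g := by positivity
        rw [← div_eq_mul_inv, div_le_iff₀ h2]
        exact hA g hg1
    _ = K * (P.divisors.card : ℝ) := by
        rw [sum_const, nsmul_eq_mul, mul_comm]

theorem prv_castSucc {m : ℕ} (n : Fin (m + 1) → ℕ) (i : Fin m) :
    prv n i.castSucc = prv (Fin.init n) i := by
  unfold prv
  rw [← Fin.map_castSuccEmb_Iio, prod_map]
  rfl

theorem prv_last {m : ℕ} (n : Fin (m + 1) → ℕ) :
    prv n (Fin.last m) = ∏ i, Fin.init n i := by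
  unfold prv
  rw [Fin.Iio_last_eq_map, prod_map]
  rfl

theorem fst_castSucc {m : ℕ} (c : Fin (m + 1) → ℕ) (i : Fin m) :
    fst c i.castSucc ↔ fst (Fin.init c) i := by
  unfold fst
  constructor
  · intro h j hj
    exact h j.castSucc (Fin.castSucc_lt_castSucc_iff.2 hj)
  · intro h j hj
    have h1 : j ≠ Fin.last m := by
      rintro rfl
      exact absurd hj (not_lt.2 (Fin.le_last _))
    obtain ⟨j', rfl⟩ := Fin.exists_castSucc_eq.2 h1
    exact h j' (Fin.castSucc_lt_castSucc_iff.1 hj)

theorem Lf_castSucc (N h : ℝ) {m : ℕ} (c : Fin (m + 1) → ℕ) (i : Fin m) :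
    Lf N h c i.castSucc = Lf N h (Fin.init c) i := by
  classical
  unfold Lf
  simp only [fst_castSucc]

/-- the sum of the weights over all tuples -/
theorem weights (N h R Y M : ℕ) (hh : 1 ≤ h) (hR : 2 ≤ R) (hY : Y ≤ R * N) (hY1 : 1 ≤ Y) (T : ℝ)
    (hT : ∀ P : ℕ, 1 ≤ P → P ≤ Y ^ M → (P.divisors.card : ℝ) ≤ T) :
    ∀ m : ℕ, m ≤ M → ∀ c : Fin m → ℕ,
      ∑ n ∈ Tup h Y c, ∏ i, (1 + Lf N h c i / (gg n i : ℝ))⁻¹ ≤ ((R + 1 : ℝ) * T) ^ m := by
  classical
  have hT0 : 0 ≤ T := le_trans (Nat.cast_nonneg _) (hT 1 le_rfl (Nat.one_le_pow _ _ hY1))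
  intro m
  induction m with
  | zero =>
    intro _ c
    rw [pow_zero]
    have h1 : Tup h Y c ⊆ {fun i => i.elim0} := by
      intro n _
      rw [mem_singleton]
      funext i
      exact i.elim0
    refine (sum_le_sum_of_subset_of_nonneg h1 (fun _ _ _ => ?_)).trans ?_
    · apply prod_nonneg
      intro i
      exact i.elim0
    · rw [sum_singleton]
      simp
  | succ m ih =>
    intro hm c
    have hL0 : ∀ i, 0 ≤ Lf N h (Fin.init c) i := fun i => by unfold Lf; split_ifs <;> positivity
    have hLl : 0 ≤ Lf N h c (Fin.last m) := by unfold Lf; split_ifs <;> positivity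
    -- the range of the last variable
    obtain ⟨Wd, hWd⟩ : ∃ Wd : (Fin m → ℕ) → Finset ℕ, Wd = fun t =>
      (Icc 1 Y).filter (fun a => ∀ j : Fin m, c j.castSucc = c (Fin.last m) → a ≤ t j + h ∧ t j ≤ a + h) := ⟨_, rfl⟩
    -- the function to be summed
    obtain ⟨F, hF⟩ : ∃ F : (Σ _ : Fin m → ℕ, ℕ) → ℝ, F = fun x =>
      (∏ i, (1 + Lf N h (Fin.init c) i / (gg x.1 i : ℝ))⁻¹) *
        (1 + Lf N h c (Fin.last m) / (Nat.gcd x.2 (∏ i, x.1 i) : ℝ))⁻¹ := ⟨_, rfl⟩
    have hF0 : ∀ x, 0 ≤ F x := fun x => by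
      rw [hF]
      apply mul_nonneg
      · apply prod_nonneg
        intro i _
        have := hL0 i
        positivity
      · positivity
    have hinj : Set.InjOn (fun n : Fin (m + 1) → ℕ => (⟨Fin.init n, n (Fin.last m)⟩ : Σ _ : Fin m → ℕ, ℕ))
        (Tup h Y c : Set (Fin (m + 1) → ℕ)) := by
      intro n _ n' _ hnn
      simp only [Sigma.mk.injEq, heq_eq_eq] at hnn
      rw [← Fin.snoc_init_self n, ← Fin.snoc_init_self n', hnn.1, hnn.2]
    have h1 : ∀ n ∈ Tup h Y c, ∏ i, (1 + Lf N h c i / (gg n i : ℝ))⁻¹ =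
        F ⟨Fin.init n, n (Fin.last m)⟩ := by
      intro n _
      rw [Fin.prod_univ_castSucc, hF]
      congr 1
      · apply prod_congr rfl
        intro i _
        rw [Lf_castSucc]
        unfold gg
        rw [prv_castSucc]
        rfl
      · unfold gg
        rw [prv_last]
    rw [sum_congr rfl h1]
    have h2 : (Tup h Y c).image (fun n : Fin (m + 1) → ℕ => (⟨Fin.init n, n (Fin.last m)⟩ : Σ _ : Fin m → ℕ, ℕ)) ⊆
        (Tup h Y (Fin.init c)).sigma Wd := by
      intro x hx
      obtain ⟨n, hn, rfl⟩ := mem_image.1 hx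
      rw [mem_Tup] at hn
      rw [mem_sigma]
      refine ⟨mem_Tup.2 ⟨fun i => hn.1 i.castSucc, fun i j hij => hn.2 _ _ hij⟩, ?_⟩
      rw [hWd, mem_filter, mem_Icc]
      exact ⟨hn.1 _, fun j hj => ⟨hn.2 _ _ hj.symm, hn.2 _ _ hj⟩⟩
    rw [← sum_image hinj]
    refine (sum_le_sum_of_subset_of_nonneg h2 (fun x _ _ => hF0 x)).trans ?_
    rw [sum_sigma]
    have h3 : ∀ t ∈ Tup h Y (Fin.init c), ∑ a ∈ Wd t, F ⟨t, a⟩ ≤
        (∏ i, (1 + Lf N h (Fin.init c) i / (gg t i : ℝ))⁻¹) * ((R + 1 : ℝ) * T) := by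
      intro t ht
      rw [mem_Tup] at ht
      rw [hF]
      simp only
      rw [← mul_sum]
      apply mul_le_mul_of_nonneg_left
      · have hP1 : 1 ≤ ∏ i, t i := Finset.one_le_prod' (fun i _ => (ht.1 i).1)
        have hP2 : ∏ i, t i ≤ Y ^ M := by
          calc ∏ i, t i ≤ ∏ _i : Fin m, Y := prod_le_prod' (fun i _ => (ht.1 i).2)
            _ = Y ^ m := by rw [prod_const, card_univ, Fintype.card_fin]
            _ ≤ Y ^ M := Nat.pow_le_pow_right hY1 (by omega)
        refine (inner (Wd t) (R + 1) (Lf N h c (Fin.last m)) hLl ?_ _ hP1).trans ?_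
        · intro g hg
          have hg0 : (0 : ℝ) < g := by exact_mod_cast hg
          by_cases hf : fst c (Fin.last m)
          · have h4 : Lf N h c (Fin.last m) = N := by unfold Lf; rw [if_pos hf]
            rw [h4]
            have h5 := mult_count (Wd t) 0 Y g hg (fun x hx => by
              rw [hWd, mem_filter, mem_Icc] at hx
              omega)
            refine h5.trans ?_
            have h6 : (Y : ℝ) / g ≤ R * N / g := by
              apply div_le_div_of_nonneg_right _ hg0.le
              exact_mod_cast hY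
            have h7 : (0 : ℝ) ≤ N / g := by positivity
            have h8 : (R : ℝ) * N / g = R * (N / g) := by ring
            have hR0 : (0 : ℝ) ≤ R := Nat.cast_nonneg _
            nlinarith
          · have h4 : Lf N h c (Fin.last m) = h := by unfold Lf; rw [if_neg hf]
            rw [h4]
            unfold fst at hf
            push Not at hf
            obtain ⟨j, hj, hjc⟩ := hf
            obtain ⟨j', rfl⟩ := Fin.exists_castSucc_eq.2 hj.ne
            have h5 := mult_count (Wd t) (t j' - h) (2 * h) g hg (fun x hx => by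
              rw [hWd, mem_filter, mem_Icc] at hx
              have := hx.2 j' hjc
              omega)
            refine h5.trans ?_
            have h7 : (0 : ℝ) ≤ h / g := by positivity
            have hR0 : (2 : ℝ) ≤ R := by exact_mod_cast hR
            have h8 : ((2 * h : ℕ) : ℝ) / g = 2 * (h / g) := by push_cast; ring
            rw [h8]
            nlinarith
        · apply mul_le_mul_of_nonneg_left (hT _ hP1 hP2) (by positivity)
      · apply prod_nonneg
        intro i _
        have := hL0 i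
        positivity
    refine (sum_le_sum h3).trans ?_
    rw [← sum_mul, pow_succ]
    exact mul_le_mul_of_nonneg_right (ih (by omega) _) (by positivity)

end Pool.Agent.K4H14.GC
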