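import Pool.Agent.K4H14.GC.Count

/-!
# Tuples of squarefree numbers from short intervals whose product is a square: the count
-/

set_option autoImplicit false

namespace Pool.Agent.K4H14.GC

open Finset

/-- entries in `(N, Y]`, squarefree, entries of the same colour close and distinct, product a square -/
noncomputable def Sol {ι : Type} [Fintype ι] (N h Y : ℕ) (c : ι → ℕ) : Finset (ι → ℕ) :=
  open Classical in (Fintype.piFinset (fun _ : ι => Ioc N Y)).filter
    (fun n => (∀ i j, c i = c j → n i ≤ n j + h) ∧ (∀ i j, i ≠ j → c i = c j → n i ≠ n j) ∧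
      (∀ i, Squarefree (n i)) ∧ IsSquare (∏ i, n i))

theorem mem_Sol {ι : Type} [Fintype ι] {N h Y : ℕ} {c : ι → ℕ} {n : ι → ℕ} :
    n ∈ Sol N h Y c ↔ (∀ i, N < n i ∧ n i ≤ Y) ∧ (∀ i j, c i = c j → n i ≤ n j + h) ∧
      (∀ i j, i ≠ j → c i = c j → n i ≠ n j) ∧ (∀ i, Squarefree (n i)) ∧ IsSquare (∏ i, n i) := by
  classical
  unfold Sol
  simp [Fintype.mem_piFinset]

theorem dvd_rest {ι : Type} [Fintype ι] [DecidableEq ι] {N h Y : ℕ} {c : ι → ℕ} {n : ι → ℕ} (hn : n ∈ Sol N h Y c)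
    (i : ι) : n i ∣ ∏ j ∈ univ.erase i, n j := by
  classical
  rw [mem_Sol] at hn
  obtain ⟨s, hs⟩ := hn.2.2.2.2
  have h0 : n i ≠ 0 := by have := (hn.1 i).1; omega
  rw [← mul_prod_erase univ n (mem_univ i)] at hs
  have h1 : n i ∣ s := by
    have h2 : n i ∣ s ^ 2 := ⟨_, by rw [sq, ← hs]⟩
    exact ((hn.2.2.2.1 i).dvd_pow_iff_dvd (by norm_num)).1 h2
  obtain ⟨t, rfl⟩ := h1
  refine ⟨t * t, ?_⟩
  have h3 : n i * ∏ j ∈ univ.erase i, n j = n i * (n i * (t * t)) := by rw [hs]; ring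
  exact Nat.eq_of_mul_eq_mul_left (by omega) h3

/-- the reversed quantities -/
noncomputable def Lr (N h : ℝ) {m : ℕ} (c : Fin m → ℕ) (i : Fin m) : ℝ := Lf N h (c ∘ Fin.rev) (Fin.rev i)

def gr {m : ℕ} (n : Fin m → ℕ) (i : Fin m) : ℕ := gg (n ∘ Fin.rev) (Fin.rev i)

theorem gr_eq {m : ℕ} (n : Fin m → ℕ) (i : Fin m) : gr n i = Nat.gcd (n i) (∏ j ∈ Ioi i, n j) := by
  unfold gr gg prv
  simp only [Function.comp_apply, Fin.rev_rev]
  congr 1
  apply prod_bij' (fun j _ => Fin.rev j) (fun j _ => Fin.rev j)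
  · intro j hj
    rw [mem_Iio] at hj
    rw [mem_Ioi]
    exact Fin.lt_rev_iff.1 (by simpa using hj)
  · intro j hj
    rw [mem_Ioi] at hj
    rw [mem_Iio]
    exact Fin.rev_lt_rev.2 hj
  · intro j _; exact Fin.rev_rev j
  · intro j _; exact Fin.rev_rev j
  · intro j _; rfl

theorem le_gg_mul_gr {m N h Y : ℕ} {c : Fin m → ℕ} {n : Fin m → ℕ} (hn : n ∈ Sol N h Y c) (i : Fin m) :
    n i ≤ gg n i * gr n i := by
  have h1 := dvd_rest hn i
  have h2 : ∏ j ∈ univ.erase i, n j = (∏ j ∈ Iio i, n j) * ∏ j ∈ Ioi i, n j := by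
    rw [← prod_union]
    · apply prod_congr _ (fun _ _ => rfl)
      ext j
      simp only [mem_erase, mem_univ, and_true, mem_union, mem_Iio, mem_Ioi]
      exact ⟨fun h => lt_or_gt_of_ne h, fun h => by rcases h with h | h; exacts [h.ne, h.ne']⟩
    · rw [disjoint_left]
      intro j h3 h4
      rw [mem_Iio] at h3
      rw [mem_Ioi] at h4
      exact absurd h3 (not_lt.2 h4.le)
  rw [h2] at h1
  have h3 : n i ∣ gg n i * gr n i := by
    rw [gr_eq]
    unfold gg prv
    have h4 := Nat.gcd_mul_right_dvd_mul_gcd (n i) (∏ j ∈ Iio i, n j) (∏ j ∈ Ioi i, n j)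
    rwa [Nat.gcd_eq_left h1] at h4
  have h5 : 1 ≤ n i := by have := ((mem_Sol.1 hn).1 i).1; omega
  apply Nat.le_of_dvd _ h3
  apply Nat.mul_pos
  · exact Nat.gcd_pos_of_pos_left _ h5
  · rw [gr_eq]
    exact Nat.gcd_pos_of_pos_left _ h5

theorem card_fst {m : ℕ} (c : Fin m → ℕ) [DecidablePred (fst c)] :
    (univ.filter (fst c)).card ≤ (univ.image c).card := by
  apply card_le_card_of_injOn c
  · intro i _
    exact mem_coe.2 (mem_image_of_mem c (mem_univ i))
  · intro i hi j hj hij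
    rw [mem_coe, mem_filter] at hi hj
    rcases lt_trichotomy i j with h | h | h
    · exact absurd hij (hj.2 i h)
    · exact h
    · exact absurd hij.symm (hi.2 j h)

theorem prod_Lf (N h : ℝ) (h1 : 0 < h) (hN : h ≤ N) {m : ℕ} (c : Fin m → ℕ) :
    ∏ i, Lf N h c i ≤ h ^ m * (N / h) ^ (univ.image c).card := by
  classical
  have h2 : ∀ i, Lf N h c i = h * (if fst c i then N / h else 1) := by
    intro i
    unfold Lf
    split_ifs
    · field_simp
    · ring
  simp only [h2]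
  rw [prod_mul_distrib, prod_const, card_univ, Fintype.card_fin, prod_ite]
  simp only [prod_const, one_pow, mul_one]
  apply mul_le_mul_of_nonneg_left _ (by positivity)
  apply pow_le_pow_right₀
  · rw [one_le_div h1]; exact hN
  · exact card_fst c

theorem prod_Lr (N h : ℝ) (h1 : 0 < h) (hN : h ≤ N) {m : ℕ} (c : Fin m → ℕ) :
    ∏ i, Lr N h c i ≤ h ^ m * (N / h) ^ (univ.image c).card := by
  classical
  have h2 : ∏ i, Lr N h c i = ∏ i, Lf N h (c ∘ Fin.rev) i := by
    unfold Lr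
    exact Fintype.prod_equiv Fin.revPerm _ _ (fun i => rfl)
  rw [h2]
  refine (prod_Lf N h h1 hN (c ∘ Fin.rev)).trans (le_of_eq ?_)
  congr 3
  ext x
  simp only [mem_image, mem_univ, true_and, Function.comp_apply]
  constructor
  · rintro ⟨a, ha⟩; exact ⟨_, ha⟩
  · rintro ⟨a, ha⟩; exact ⟨Fin.rev a, by rw [Fin.rev_rev]; exact ha⟩

theorem factor_le (N h L L' g g' : ℝ) (h1 : 1 ≤ h) (hN : h ≤ N) (hL : h ≤ L) (hL' : h ≤ L') (hg : 1 ≤ g)
    (hg' : 1 ≤ g') (hgg : N ≤ g * g') :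
    (1 + L / g) * (1 + L' / g') ≤ 4 * (L * L' / h) := by
  have e : (1 + L / g) * (1 + L' / g') = 1 + L / g + L' / g' + L * L' / (g * g') := by
    field_simp
    ring
  have hh0 : 0 < h := by linarith
  have hL0 : 0 < L := by linarith
  have hL0' : 0 < L' := by linarith
  have a1 : 1 ≤ L * L' / h := by
    rw [le_div_iff₀ hh0]
    nlinarith
  have a2 : L / g ≤ L * L' / h := by
    calc L / g ≤ L := div_le_self hL0.le hg
      _ ≤ L * L' / h := by
        rw [le_div_iff₀ hh0]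
        exact mul_le_mul_of_nonneg_left hL' hL0.le
  have a3 : L' / g' ≤ L * L' / h := by
    calc L' / g' ≤ L' := div_le_self hL0'.le hg'
      _ ≤ L * L' / h := by
        rw [le_div_iff₀ hh0, mul_comm]
        exact mul_le_mul_of_nonneg_right hL hL0'.le
  have a4 : L * L' / (g * g') ≤ L * L' / h := by
    apply div_le_div_of_nonneg_left (by positivity) hh0
    linarith
  rw [e]
  linarith

theorem factor_save (N h L L' g g' s : ℝ) (h1 : 1 ≤ h) (hL : h ≤ L) (hL' : h ≤ L') (hg : 1 ≤ g)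
    (hg' : 1 ≤ g') (hgg : N ≤ g * g') (hs : 1 ≤ s) (hsh : s ≤ h) (hsN : h * s ≤ N) (hsg : s ≤ g)
    (hcase : L = N ∨ s ≤ g') :
    (1 + L / g) * (1 + L' / g') ≤ 4 * (L * L' / h) * s⁻¹ := by
  have e : (1 + L / g) * (1 + L' / g') = 1 + L / g + L' / g' + L * L' / (g * g') := by
    field_simp
    ring
  have hh0 : 0 < h := by linarith
  have hL0 : 0 < L := by linarith
  have hL0' : 0 < L' := by linarith
  have hs0 : 0 < s := by linarith
  have hN0 : 0 < N := by nlinarith
  have hLL : L ≤ L * L' / h := by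
    rw [le_div_iff₀ hh0]
    exact mul_le_mul_of_nonneg_left hL' hL0.le
  have hLL' : L' ≤ L * L' / h := by
    rw [le_div_iff₀ hh0, mul_comm]
    exact mul_le_mul_of_nonneg_right hL hL0'.le
  have hB0 : 0 < L * L' / h := by positivity
  have a1 : 1 ≤ L * L' / h * s⁻¹ := by
    rw [← div_eq_mul_inv, one_le_div hs0]
    linarith
  have a2 : L / g ≤ L * L' / h * s⁻¹ := by
    rw [← div_eq_mul_inv]
    exact div_le_div₀ hB0.le hLL hs0 hsg
  have a3 : L' / g' ≤ L * L' / h * s⁻¹ := by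
    rcases hcase with hc | hc
    · calc L' / g' ≤ L' := div_le_self hL0'.le hg'
        _ ≤ L * L' / h * s⁻¹ := by
          rw [hc, ← div_eq_mul_inv, div_div, le_div_iff₀ (by positivity)]
          calc L' * (h * s) ≤ L' * N := mul_le_mul_of_nonneg_left hsN hL0'.le
            _ = N * L' := mul_comm _ _
    · rw [← div_eq_mul_inv]
      exact div_le_div₀ hB0.le hLL' hs0 hc
  have a4 : L * L' / (g * g') ≤ L * L' / h * s⁻¹ := by
    rw [← div_eq_mul_inv, div_div]
    apply div_le_div_of_nonneg_left (by positivity) (by positivity)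
    linarith
  rw [e]
  linarith

end Pool.Agent.K4H14.GC
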