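import Pool.Agent.K4H14.GC.Count2

/-!
# Tuples of squarefree numbers from short intervals whose product is a square: the bound
-/

set_option autoImplicit false

namespace Pool.Agent.K4H14.GC

open Finset

/-- the first two entries share a large factor -/
noncomputable def Sol1 (N h Y : ℕ) {m : ℕ} (c : Fin (m + 2) → ℕ) : Finset (Fin (m + 2) → ℕ) :=
  open Classical in (Sol N h Y c).filter (fun n => N < (Nat.gcd (n 0) (n 1)) ^ (m + 1))

theorem Lf_ge {N h : ℝ} (hN : h ≤ N) {m : ℕ} (c : Fin m → ℕ) (i : Fin m) : h ≤ Lf N h c i := by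
  classical
  unfold Lf
  split_ifs
  · exact hN
  · exact le_rfl

theorem Lr_ge {N h : ℝ} (hN : h ≤ N) {m : ℕ} (c : Fin m → ℕ) (i : Fin m) : h ≤ Lr N h c i := Lf_ge hN _ _

theorem Iio_one (m : ℕ) : (Iio (1 : Fin (m + 2))) = {0} := by
  ext j
  rw [mem_Iio, mem_singleton]
  constructor
  · intro h
    have h1 : (j : ℕ) < 1 := by simpa [Fin.lt_def] using h
    ext
    simp only [Fin.val_zero]
    omega
  · rintro rfl
    simp

theorem gg_pos {m : ℕ} (n : Fin m → ℕ) (i : Fin m) (h : 1 ≤ n i) : 1 ≤ gg n i := Nat.gcd_pos_of_pos_left _ h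

theorem gr_pos {m : ℕ} (n : Fin m → ℕ) (i : Fin m) (h : 1 ≤ n i) : 1 ≤ gr n i := by
  rw [gr_eq]
  exact Nat.gcd_pos_of_pos_left _ h

theorem factor_all {N h Y m : ℕ} {c : Fin (m + 2) → ℕ} {n : Fin (m + 2) → ℕ} (hn : n ∈ Sol1 N h Y c) (hh : 1 ≤ h)
    (hN : h ≤ N) (s : ℝ) (hs : 1 ≤ s) (hsh : s ≤ h) (hsN : (h : ℝ) * s ≤ N) (hsm : s ^ (m + 1) ≤ N) (i : Fin (m + 2)) :
    (1 + Lf N h c i / (gg n i : ℝ)) * (1 + Lr N h c i / (gr n i : ℝ)) ≤
      4 * (Lf N h c i * Lr N h c i / h) * (if i = 1 then s⁻¹ else 1) := by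
  classical
  unfold Sol1 at hn
  rw [mem_filter] at hn
  obtain ⟨hn, hg⟩ := hn
  have hn' := mem_Sol.1 hn
  have hni : 1 ≤ n i := by have := (hn'.1 i).1; omega
  have hh' : (1 : ℝ) ≤ h := by exact_mod_cast hh
  have hN' : (h : ℝ) ≤ N := by exact_mod_cast hN
  have g1 : (1 : ℝ) ≤ gg n i := by exact_mod_cast gg_pos n i hni
  have g2 : (1 : ℝ) ≤ gr n i := by exact_mod_cast gr_pos n i hni
  have g3 : (N : ℝ) ≤ gg n i * gr n i := by
    have h1 := le_gg_mul_gr hn i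
    have h2 : N ≤ gg n i * gr n i := by have := (hn'.1 i).1; omega
    exact_mod_cast h2
  split_ifs with hi
  · subst hi
    have hgg : gg n 1 = Nat.gcd (n 0) (n 1) := by
      unfold gg prv
      rw [Iio_one, prod_singleton, Nat.gcd_comm]
    apply factor_save N h _ _ _ _ s hh' (Lf_ge hN' _ _) (Lr_ge hN' _ _) g1 g2 g3 hs hsh hsN
    · rw [hgg]
      have h2 : (N : ℝ) < (Nat.gcd (n 0) (n 1) : ℝ) ^ (m + 1) := by exact_mod_cast hg
      exact (lt_of_pow_lt_pow_left₀ (m + 1) (Nat.cast_nonneg _) (lt_of_le_of_lt hsm h2)).le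
    · by_cases hc : c 0 = c 1
      · right
        have h3 : Nat.gcd (n 0) (n 1) ≤ h := by
          have h4 : n 0 ≠ n 1 := hn'.2.2.1 0 1 (by simp) hc
          have h5 := hn'.2.1 0 1 hc
          have h6 := hn'.2.1 1 0 hc.symm
          rcases lt_or_gt_of_ne h4 with h7 | h7
          · have h8 : Nat.gcd (n 0) (n 1) ∣ n 1 - n 0 := Nat.dvd_sub (Nat.gcd_dvd_right _ _) (Nat.gcd_dvd_left _ _)
            have h9 := Nat.le_of_dvd (by omega) h8
            omega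
          · have h8 : Nat.gcd (n 0) (n 1) ∣ n 0 - n 1 := Nat.dvd_sub (Nat.gcd_dvd_left _ _) (Nat.gcd_dvd_right _ _)
            have h9 := Nat.le_of_dvd (by omega) h8
            omega
        rw [hgg] at g3
        have h4 : ((Nat.gcd (n 0) (n 1) : ℕ) : ℝ) ≤ h := by exact_mod_cast h3
        have h5 : (h : ℝ) * s ≤ h * gr n 1 := by
          calc (h : ℝ) * s ≤ N := hsN
            _ ≤ _ := g3
            _ ≤ _ := mul_le_mul_of_nonneg_right h4 (by linarith)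
        exact le_of_mul_le_mul_left h5 (by linarith)
      · left
        unfold Lf
        rw [if_pos]
        intro j hj
        have h6 : j ∈ Iio (1 : Fin (m + 2)) := mem_Iio.2 hj
        rw [Iio_one, mem_singleton] at h6
        rw [h6]
        exact hc
  · rw [mul_one]
    exact factor_le N h _ _ _ _ hh' hN' (Lf_ge hN' _ _) (Lr_ge hN' _ _) g1 g2 g3

theorem Sol1_sub {N h Y m : ℕ} {c : Fin (m + 2) → ℕ} {n : Fin (m + 2) → ℕ} (hn : n ∈ Sol1 N h Y c) : n ∈ Tup h Y c := by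
  classical
  unfold Sol1 at hn
  rw [mem_filter, mem_Sol] at hn
  exact mem_Tup.2 ⟨fun i => ⟨by have := (hn.1.1 i).1; omega, (hn.1.1 i).2⟩, hn.1.2.1⟩

theorem Sol1_sub' {N h Y m : ℕ} {c : Fin (m + 2) → ℕ} {n : Fin (m + 2) → ℕ} (hn : n ∈ Sol1 N h Y c) :
    n ∘ Fin.rev ∈ Tup h Y (c ∘ Fin.rev) := by
  have h := mem_Tup.1 (Sol1_sub hn)
  exact mem_Tup.2 ⟨fun i => h.1 _, fun i j hij => h.2 _ _ hij⟩

theorem Sol1_bound (N h Y m : ℕ) (c : Fin (m + 2) → ℕ) (hh : 1 ≤ h) (hN : h ≤ N) (s : ℝ) (hs : 1 ≤ s) (hsh : s ≤ h)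
    (hsN : (h : ℝ) * s ≤ N) (hsm : s ^ (m + 1) ≤ N) (W : ℝ)
    (hW : ∀ c' : Fin (m + 2) → ℕ, ∑ n ∈ Tup h Y c', ∏ i, (1 + Lf N h c' i / (gg n i : ℝ))⁻¹ ≤ W) :
    ((Sol1 N h Y c).card : ℝ) ^ 2 ≤
      4 ^ (m + 2) * ((h : ℝ) ^ (m + 2) * ((N : ℝ) / h) ^ (2 * (univ.image c).card)) * s⁻¹ * W ^ 2 := by
  classical
  have hh' : (1 : ℝ) ≤ h := by exact_mod_cast hh
  have hN' : (h : ℝ) ≤ N := by exact_mod_cast hN
  have hh0 : (0 : ℝ) < h := by linarith
  have hs0 : 0 < s := by linarith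
  obtain ⟨M, hM⟩ : ∃ M : ℝ, M = 4 ^ (m + 2) * ((h : ℝ) ^ (m + 2) * ((N : ℝ) / h) ^ (2 * (univ.image c).card)) * s⁻¹ := ⟨_, rfl⟩
  have hM0 : 0 ≤ M := by rw [hM]; positivity
  obtain ⟨u, hu⟩ : ∃ u : (Fin (m + 2) → ℕ) → ℝ, u = fun n => ∏ i, (1 + Lf N h c i / (gg n i : ℝ))⁻¹ := ⟨_, rfl⟩
  obtain ⟨v, hv⟩ : ∃ v : (Fin (m + 2) → ℕ) → ℝ, v = fun n => ∏ i, (1 + Lr N h c i / (gr n i : ℝ))⁻¹ := ⟨_, rfl⟩
  have hLf0 : ∀ i, 0 ≤ Lf N h c i := fun i => hh0.le.trans (Lf_ge hN' c i)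
  have hLr0 : ∀ i, 0 ≤ Lr N h c i := fun i => hh0.le.trans (Lr_ge hN' c i)
  have hu0 : ∀ n, 0 ≤ u n := fun n => by
    rw [hu]
    apply prod_nonneg
    intro i _
    have := hLf0 i
    positivity
  have hv0 : ∀ n, 0 ≤ v n := fun n => by
    rw [hv]
    apply prod_nonneg
    intro i _
    have := hLr0 i
    positivity
  -- pointwise
  have hkey : ∀ n ∈ Sol1 N h Y c, 1 ≤ M * (u n * v n) := by
    intro n hn
    have h1 : ∏ i, ((1 + Lf N h c i / (gg n i : ℝ)) * (1 + Lr N h c i / (gr n i : ℝ))) ≤ M := by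
      calc ∏ i, ((1 + Lf N h c i / (gg n i : ℝ)) * (1 + Lr N h c i / (gr n i : ℝ))) ≤
          ∏ i, (4 * (Lf N h c i * Lr N h c i / h) * (if i = 1 then s⁻¹ else 1)) := by
            apply prod_le_prod
            · intro i _
              have a1 := hLf0 i
              have a2 := hLr0 i
              positivity
            · intro i _
              exact factor_all hn hh hN s hs hsh hsN hsm i
        _ = 4 ^ (m + 2) * ((∏ i, Lf N h c i) * (∏ i, Lr N h c i) / h ^ (m + 2)) * s⁻¹ := by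
            rw [prod_mul_distrib, prod_mul_distrib, prod_div_distrib, prod_mul_distrib]
            simp only [prod_const, card_univ, Fintype.card_fin]
            rw [Finset.prod_ite_eq' univ (1 : Fin (m + 2)) (fun _ => s⁻¹), if_pos (mem_univ _)]
        _ ≤ M := by
            rw [hM]
            apply mul_le_mul_of_nonneg_right _ (by positivity)
            apply mul_le_mul_of_nonneg_left _ (by positivity)
            rw [div_le_iff₀ (by positivity)]
            calc (∏ i, Lf N h c i) * (∏ i, Lr N h c i) ≤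
                (h ^ (m + 2) * ((N : ℝ) / h) ^ (univ.image c).card) * (h ^ (m + 2) * ((N : ℝ) / h) ^ (univ.image c).card) := by
                  apply mul_le_mul (prod_Lf N h hh0 hN' c) (prod_Lr N h hh0 hN' c) (prod_nonneg fun i _ => hLr0 i) (by positivity)
              _ = h ^ (m + 2) * ((N : ℝ) / h) ^ (2 * (univ.image c).card) * h ^ (m + 2) := by
                  rw [two_mul, pow_add]
                  ring
    have h2 : (∏ i, ((1 + Lf N h c i / (gg n i : ℝ)) * (1 + Lr N h c i / (gr n i : ℝ)))) * (u n * v n) = 1 := by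
      rw [hu, hv]
      simp only
      rw [← prod_mul_distrib, ← prod_mul_distrib]
      apply prod_eq_one
      intro i _
      have a1 : (1 + Lf N h c i / (gg n i : ℝ)) ≠ 0 := by have := hLf0 i; positivity
      have a2 : (1 + Lr N h c i / (gr n i : ℝ)) ≠ 0 := by have := hLr0 i; positivity
      field_simp
    calc (1 : ℝ) = _ := h2.symm
      _ ≤ M * (u n * v n) := mul_le_mul_of_nonneg_right h1 (mul_nonneg (hu0 n) (hv0 n))
  have hU : ∑ n ∈ Sol1 N h Y c, u n ≤ W := by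
    refine (sum_le_sum_of_subset_of_nonneg (fun n hn => Sol1_sub hn) (fun n _ _ => hu0 n)).trans ?_
    rw [hu]
    exact hW c
  have hV : ∑ n ∈ Sol1 N h Y c, v n ≤ W := by
    have hinj : Set.InjOn (fun n : Fin (m + 2) → ℕ => n ∘ Fin.rev) (Sol1 N h Y c : Set (Fin (m + 2) → ℕ)) := by
      intro n _ n' _ hnn
      funext i
      have := congrFun hnn (Fin.rev i)
      simpa using this
    have hvn : ∀ n, v n = ∏ i, (1 + Lf N h (c ∘ Fin.rev) i / (gg (n ∘ Fin.rev) i : ℝ))⁻¹ := by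
      intro n
      rw [hv]
      unfold Lr gr
      exact Fintype.prod_equiv Fin.revPerm _ _ (fun i => rfl)
    have h3 : ∑ n ∈ Sol1 N h Y c, v n = ∑ n ∈ (Sol1 N h Y c).image (fun n => n ∘ Fin.rev),
        ∏ i, (1 + Lf N h (c ∘ Fin.rev) i / (gg n i : ℝ))⁻¹ := by
      rw [sum_image hinj]
      exact sum_congr rfl fun n _ => hvn n
    rw [h3]
    refine (sum_le_sum_of_subset_of_nonneg ?_ (fun n _ _ => ?_)).trans (hW (c ∘ Fin.rev))
    · intro x hx
      obtain ⟨n, hn, rfl⟩ := mem_image.1 hx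
      exact Sol1_sub' hn
    · apply prod_nonneg
      intro i _
      have : 0 ≤ Lf N h (c ∘ Fin.rev) i := hh0.le.trans (Lf_ge hN' _ i)
      positivity
  have hW0 : 0 ≤ W := le_trans (sum_nonneg fun n _ => hu0 n) hU
  have h4 : ((Sol1 N h Y c).card : ℝ) ≤ Real.sqrt M * ∑ n ∈ Sol1 N h Y c, Real.sqrt (u n) * Real.sqrt (v n) := by
    rw [mul_sum, Finset.card_eq_sum_ones]
    push_cast
    apply sum_le_sum
    intro n hn
    rw [← Real.sqrt_mul (hu0 n), ← Real.sqrt_mul hM0, Real.one_le_sqrt]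
    exact hkey n hn
  have h5 : (∑ n ∈ Sol1 N h Y c, Real.sqrt (u n) * Real.sqrt (v n)) ^ 2 ≤ W ^ 2 := by
    refine (sum_mul_sq_le_sq_mul_sq _ _ _).trans ?_
    simp only [Real.sq_sqrt (hu0 _), Real.sq_sqrt (hv0 _)]
    rw [sq]
    exact mul_le_mul hU hV (sum_nonneg fun n _ => hv0 n) hW0
  calc ((Sol1 N h Y c).card : ℝ) ^ 2 ≤ (Real.sqrt M * ∑ n ∈ Sol1 N h Y c, Real.sqrt (u n) * Real.sqrt (v n)) ^ 2 :=
        pow_le_pow_left₀ (Nat.cast_nonneg _) h4 2
    _ = M * (∑ n ∈ Sol1 N h Y c, Real.sqrt (u n) * Real.sqrt (v n)) ^ 2 := by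
        rw [mul_pow, Real.sq_sqrt hM0]
    _ ≤ M * W ^ 2 := mul_le_mul_of_nonneg_left h5 hM0
    _ = _ := by rw [hM]

end Pool.Agent.K4H14.GC
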