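import Pool.Agent.K4H14.GC.Count3

/-!
# Tuples of squarefree numbers from short intervals whose product is a square: the final count
-/

set_option autoImplicit false

namespace Pool.Agent.K4H14.GC

open Finset

theorem gcd_prod_dvd {ι : Type} (S : Finset ι) (a : ℕ) (f : ι → ℕ) :
    Nat.gcd a (∏ j ∈ S, f j) ∣ ∏ j ∈ S, Nat.gcd a (f j) := by
  classical
  induction S using Finset.induction_on with
  | empty => simp
  | insert x S hx ih =>
    rw [prod_insert hx, prod_insert hx]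
    exact (Nat.gcd_mul_right_dvd_mul_gcd _ _ _).trans (Nat.mul_dvd_mul_left _ ih)

theorem exists_big {N h Y m : ℕ} {c : Fin (m + 2) → ℕ} {n : Fin (m + 2) → ℕ} (hn : n ∈ Sol N h Y c) :
    ∃ j : Fin (m + 2), j ≠ 0 ∧ N < (Nat.gcd (n 0) (n j)) ^ (m + 1) := by
  classical
  by_contra hcon
  push Not at hcon
  have h1 := dvd_rest hn 0
  have h2 := gcd_prod_dvd (univ.erase (0 : Fin (m + 2))) (n 0) n
  rw [Nat.gcd_eq_left h1] at h2
  have h0 : N < n 0 := ((mem_Sol.1 hn).1 0).1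
  have h3 : 0 < ∏ j ∈ univ.erase (0 : Fin (m + 2)), Nat.gcd (n 0) (n j) :=
    prod_pos fun j _ => Nat.gcd_pos_of_pos_left _ (by omega)
  have h4 := Nat.le_of_dvd h3 h2
  have h5 : (∏ j ∈ univ.erase (0 : Fin (m + 2)), Nat.gcd (n 0) (n j)) ^ (m + 1) ≤ N ^ (m + 1) := by
    rw [← prod_pow]
    calc ∏ j ∈ univ.erase (0 : Fin (m + 2)), (Nat.gcd (n 0) (n j)) ^ (m + 1) ≤
        ∏ _j ∈ univ.erase (0 : Fin (m + 2)), N := prod_le_prod' fun j hj => hcon j (ne_of_mem_erase hj)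
      _ = N ^ (m + 1) := by
        rw [prod_const, card_erase_of_mem (mem_univ _), card_univ, Fintype.card_fin]
        rfl
  have h6 := lt_of_le_of_lt h5 (Nat.pow_lt_pow_left (lt_of_lt_of_le h0 h4) (by omega))
  exact lt_irrefl _ h6

theorem Sol_comp {ι κ : Type} [Fintype ι] [Fintype κ] {N h Y : ℕ} {c : ι → ℕ} {n : ι → ℕ} (e : κ ≃ ι)
    (hn : n ∈ Sol N h Y c) : n ∘ e ∈ Sol N h Y (c ∘ e) := by
  rw [mem_Sol] at hn ⊢
  refine ⟨fun i => hn.1 _, fun i j hij => hn.2.1 _ _ hij, fun i j hij hc => hn.2.2.1 _ _ (fun he => hij (e.injective he)) hc,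
    fun i => hn.2.2.2.1 _, ?_⟩
  have h1 : ∏ i, (n ∘ e) i = ∏ i, n i := Fintype.prod_equiv e _ _ (fun i => rfl)
  rw [h1]
  exact hn.2.2.2.2

theorem image_comp {ι κ : Type} [Fintype ι] [Fintype κ] (c : ι → ℕ) (e : κ ≃ ι) :
    univ.image (c ∘ e) = univ.image c := by
  classical
  ext x
  simp only [mem_image, mem_univ, true_and, Function.comp_apply]
  constructor
  · rintro ⟨a, ha⟩; exact ⟨_, ha⟩
  · rintro ⟨a, ha⟩; exact ⟨e.symm a, by rw [e.apply_symm_apply]; exact ha⟩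

theorem Sol_le (N h Y m : ℕ) (c : Fin (m + 2) → ℕ) (B : ℝ)
    (hB : ∀ c' : Fin (m + 2) → ℕ, (univ.image c').card = (univ.image c).card → ((Sol1 N h Y c').card : ℝ) ^ 2 ≤ B) :
    ((Sol N h Y c).card : ℝ) ^ 2 ≤ (m + 1) ^ 2 * B := by
  classical
  have hB0 : 0 ≤ B := le_trans (sq_nonneg _) (hB c rfl)
  have h1 : ((Sol N h Y c).card : ℝ) ≤ ∑ j ∈ univ.erase (0 : Fin (m + 2)), ((Sol1 N h Y (c ∘ Equiv.swap 1 j)).card : ℝ) := by
    have h2 : (Sol N h Y c).card ≤ ∑ j ∈ univ.erase (0 : Fin (m + 2)), (Sol1 N h Y (c ∘ Equiv.swap 1 j)).card := by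
      have h3 : Sol N h Y c ⊆ (univ.erase (0 : Fin (m + 2))).biUnion
          (fun j => (Sol N h Y c).filter (fun n => n ∘ Equiv.swap 1 j ∈ Sol1 N h Y (c ∘ Equiv.swap 1 j))) := by
        intro n hn
        obtain ⟨j, hj, hj2⟩ := exists_big hn
        rw [mem_biUnion]
        refine ⟨j, mem_erase.2 ⟨hj, mem_univ _⟩, mem_filter.2 ⟨hn, ?_⟩⟩
        unfold Sol1
        rw [mem_filter]
        refine ⟨Sol_comp _ hn, ?_⟩
        have e0 : Equiv.swap (1 : Fin (m + 2)) j 0 = 0 := Equiv.swap_apply_of_ne_of_ne (by simp) hj.symm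
        simp only [Function.comp_apply, Equiv.swap_apply_left, e0]
        exact hj2
      refine (card_le_card h3).trans (card_biUnion_le.trans (sum_le_sum fun j _ => ?_))
      apply card_le_card_of_injOn (fun n => n ∘ Equiv.swap 1 j)
      · intro n hn
        rw [mem_coe, mem_filter] at hn
        exact hn.2
      · intro n _ n' _ hnn
        funext i
        have := congrFun hnn (Equiv.swap 1 j i)
        simpa using this
    exact_mod_cast h2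
  have h2 : ∀ j ∈ univ.erase (0 : Fin (m + 2)), ((Sol1 N h Y (c ∘ Equiv.swap 1 j)).card : ℝ) ≤ Real.sqrt B := by
    intro j _
    apply Real.le_sqrt_of_sq_le
    exact hB _ (by rw [image_comp])
  have h3 : ((Sol N h Y c).card : ℝ) ≤ (m + 1) * Real.sqrt B := by
    refine h1.trans ((sum_le_sum h2).trans (le_of_eq ?_))
    rw [sum_const, card_erase_of_mem (mem_univ _), card_univ, Fintype.card_fin, nsmul_eq_mul]
    push_cast
    ring
  calc ((Sol N h Y c).card : ℝ) ^ 2 ≤ ((m + 1) * Real.sqrt B) ^ 2 := pow_le_pow_left₀ (Nat.cast_nonneg _) h3 2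
    _ = (m + 1) ^ 2 * B := by rw [mul_pow, Real.sq_sqrt hB0]

theorem Sol_one {N h Y : ℕ} {ι : Type} [Fintype ι] (hι : Fintype.card ι = 1) (hN : 1 ≤ N) (c : ι → ℕ) : Sol N h Y c = ∅ := by
  classical
  rw [Finset.eq_empty_iff_forall_notMem]
  intro n hn
  obtain ⟨i, hi⟩ := Fintype.card_eq_one_iff.1 hι
  have h1 := dvd_rest hn i
  have h2 : (univ : Finset ι).erase i = ∅ := by
    rw [Finset.eq_empty_iff_forall_notMem]
    intro j hj
    exact (ne_of_mem_erase hj) (hi j)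
  rw [h2, prod_empty] at h1
  have h3 := Nat.le_of_dvd one_pos h1
  have h4 := ((mem_Sol.1 hn).1 i).1
  omega

theorem count (u R : ℕ) (hu : 1 ≤ u) (hR : 2 ≤ R) (κ : ℝ) (hκ : 0 < κ) (hκu : κ * u ≤ 1) :
    ∃ C : ℝ, 0 ≤ C ∧ ∀ (ι : Type) [Fintype ι], Fintype.card ι = u → ∀ (N h Y : ℕ) (c : ι → ℕ), 1 ≤ N →
      (N : ℝ) ^ κ ≤ h → (h : ℝ) * (N : ℝ) ^ κ ≤ N → 1 ≤ Y → Y ≤ R * N →
      ((Sol N h Y c).card : ℝ) ^ 2 ≤
        C * (N : ℝ) ^ (-(κ / 2)) * ((h : ℝ) ^ u * ((N : ℝ) / h) ^ (2 * (univ.image c).card)) := by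
  classical
  have hu0 : (0 : ℝ) < u := by exact_mod_cast hu
  have hη : 0 < κ / (4 * (u : ℝ) ^ 2) := by positivity
  obtain ⟨C₁, hC₁, hdiv⟩ := H353.divisor_bound_real (κ / (4 * (u : ℝ) ^ 2)) hη
  rcases Nat.eq_or_lt_of_le hu with h1 | h1
  · refine ⟨0, le_rfl, fun ι _ hι N h Y c hN _ _ _ _ => ?_⟩
    rw [Sol_one (by omega) hN c]
    simp
  obtain ⟨m, rfl⟩ : ∃ m, u = m + 2 := ⟨u - 2, by omega⟩
  refine ⟨(m + 1) ^ 2 * (4 ^ (m + 2) * (((R : ℝ) + 1) * (C₁ * ((R : ℝ) ^ (m + 2)) ^ (κ / (4 * ((m + 2 : ℕ) : ℝ) ^ 2)))) ^ (2 * (m + 2))),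
    by positivity, ?_⟩
  intro ι _ hι N h Y c hN hNh hhN hY1 hY
  have hNr : (1 : ℝ) ≤ N := by exact_mod_cast hN
  have hN0 : (0 : ℝ) < N := by linarith
  have hs1 : (1 : ℝ) ≤ (N : ℝ) ^ κ := Real.one_le_rpow hNr hκ.le
  have hh1 : 1 ≤ h := by
    have : (1 : ℝ) ≤ h := hs1.trans hNh
    exact_mod_cast this
  have hhN' : h ≤ N := by
    have h2 : (h : ℝ) ≤ N := by
      have : (0 : ℝ) ≤ h := Nat.cast_nonneg _
      nlinarith
    exact_mod_cast h2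
  have hsm : ((N : ℝ) ^ κ) ^ (m + 1) ≤ N := by
    rw [← Real.rpow_natCast, ← Real.rpow_mul hN0.le]
    calc (N : ℝ) ^ (κ * ((m + 1 : ℕ) : ℝ)) ≤ (N : ℝ) ^ (1 : ℝ) := by
          apply Real.rpow_le_rpow_of_exponent_le hNr
          push_cast at hκu ⊢
          nlinarith
      _ = N := Real.rpow_one _
  -- transport to Fin
  have e : Fin (m + 2) ≃ ι := (Fintype.equivFinOfCardEq hι).symm
  have hcard : (Sol N h Y c).card ≤ (Sol N h Y (c ∘ e)).card := by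
    apply card_le_card_of_injOn (fun n => n ∘ e)
    · intro n hn
      exact Sol_comp e hn
    · intro n _ n' _ hnn
      funext i
      have := congrFun hnn (e.symm i)
      simpa using this
  have himg : (univ.image (c ∘ e)).card = (univ.image c).card := by rw [image_comp]
  obtain ⟨T, hT⟩ : ∃ T : ℝ, T = C₁ * (((R * N : ℕ) : ℝ) ^ (m + 2)) ^ (κ / (4 * ((m + 2 : ℕ) : ℝ) ^ 2)) := ⟨_, rfl⟩
  have hT0 : 0 ≤ T := by rw [hT]; positivity
  have hdivT : ∀ P : ℕ, 1 ≤ P → P ≤ Y ^ (m + 2) → (P.divisors.card : ℝ) ≤ T := by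
    intro P hP1 hP2
    refine (hdiv P (by omega)).trans ?_
    rw [hT]
    apply mul_le_mul_of_nonneg_left _ hC₁.le
    apply Real.rpow_le_rpow (Nat.cast_nonneg _) _ hη.le
    have h3 : P ≤ (R * N) ^ (m + 2) := hP2.trans (Nat.pow_le_pow_left hY _)
    exact_mod_cast h3
  have hW := weights N h R Y (m + 2) hh1 hR hY hY1 T hdivT (m + 2) le_rfl
  have hB := Sol_le N h Y m (c ∘ e) _ (fun c' hc' => (Sol1_bound N h Y m c' hh1 hhN' ((N : ℝ) ^ κ) hs1 hNh hhN hsm _ hW).trans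
    (le_of_eq (by rw [hc', himg])))
  have hTT : T = (C₁ * ((R : ℝ) ^ (m + 2)) ^ (κ / (4 * ((m + 2 : ℕ) : ℝ) ^ 2))) * (N : ℝ) ^ (κ / (4 * ((m + 2 : ℕ) : ℝ))) := by
    rw [hT]
    push_cast
    rw [mul_pow, Real.mul_rpow (by positivity) (by positivity), ← mul_assoc]
    congr 1
    rw [← Real.rpow_natCast, ← Real.rpow_mul hN0.le]
    congr 1
    have : ((m : ℝ) + 2) ≠ 0 := by positivity
    push_cast
    field_simp
  have hpow : ((N : ℝ) ^ (κ / (4 * ((m + 2 : ℕ) : ℝ)))) ^ (2 * (m + 2)) = (N : ℝ) ^ (κ / 2) := by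
    rw [← Real.rpow_natCast, ← Real.rpow_mul hN0.le]
    congr 1
    have : ((m : ℝ) + 2) ≠ 0 := by positivity
    push_cast
    field_simp
    ring
  have hss : ((N : ℝ) ^ κ)⁻¹ * (N : ℝ) ^ (κ / 2) = (N : ℝ) ^ (-(κ / 2)) := by
    rw [← Real.rpow_neg hN0.le, ← Real.rpow_add hN0]
    congr 1
    ring
  calc ((Sol N h Y c).card : ℝ) ^ 2 ≤ ((Sol N h Y (c ∘ e)).card : ℝ) ^ 2 :=
        pow_le_pow_left₀ (Nat.cast_nonneg _) (by exact_mod_cast hcard) 2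
    _ ≤ _ := hB
    _ = _ := by
      have hWW : ((((R : ℝ) + 1) * T) ^ (m + 2)) ^ 2 =
          (((R : ℝ) + 1) * (C₁ * ((R : ℝ) ^ (m + 2)) ^ (κ / (4 * ((m + 2 : ℕ) : ℝ) ^ 2)))) ^ (2 * (m + 2)) * (N : ℝ) ^ (κ / 2) := by
        rw [hTT, ← pow_mul, mul_comm (m + 2) 2, ← mul_assoc, mul_pow, hpow]
      rw [hWW, ← hss]
      generalize (((R : ℝ) + 1) * (C₁ * ((R : ℝ) ^ (m + 2)) ^ (κ / (4 * ((m + 2 : ℕ) : ℝ) ^ 2)))) ^ (2 * (m + 2)) = Q
      generalize (N : ℝ) ^ (κ / 2) = Q2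
      generalize (h : ℝ) ^ (m + 2) * ((N : ℝ) / h) ^ (2 * (univ.image c).card) = Q3
      generalize ((N : ℝ) ^ κ)⁻¹ = Q4
      generalize (4 : ℝ) ^ (m + 2) = Q5
      ring

end Pool.Agent.K4H14.GC
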