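import Pool.Agent.K4H14.GC.Gau

/-!
# From the points of a grid to all intervals
-/

set_option autoImplicit false

namespace Pool.Agent.K4H14.GC

open Finset

/-- the remaining part of the moments is small, for the lengths `j 2^s`, `j < 2 J` -/
def Good (K J : ℕ) (κ : ℝ) (f : ℕ → ℝ) (N : ℕ) : Prop :=
  ∀ k, 1 ≤ k → k ≤ K → ∀ R, (R = 2 ∨ R = 8) → ∀ j s : ℕ, j < 2 * J → (N : ℝ) ^ κ ≤ ((j * 2 ^ s : ℕ) : ℝ) →
    ((j * 2 ^ s : ℕ) : ℝ) * (N : ℝ) ^ κ ≤ N →
    |∑ n ∈ Ioc N (R * N), BB f k (j * 2 ^ s) n| ≤ (N : ℝ) ^ (1 - κ / 16) * Real.sqrt ((j * 2 ^ s : ℕ) : ℝ) ^ k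

theorem eventually_pow_ge (a B : ℝ) (ha : 0 < a) : ∃ N₀ : ℕ, ∀ N : ℕ, N₀ ≤ N → B ≤ (N : ℝ) ^ a := by
  have h1 := (tendsto_rpow_atTop ha).comp tendsto_natCast_atTop_atTop
  exact Filter.eventually_atTop.1 (h1.eventually_ge_atTop B)

theorem sqrt_le_sg (h : ℕ) : Real.sqrt h ≤ 2 * sg h := by
  unfold sg
  rw [show (2 : ℝ) = Real.sqrt 4 by
    rw [show (4 : ℝ) = 2 ^ 2 by norm_num, Real.sqrt_sq (by norm_num)], ← Real.sqrt_mul (by norm_num)]
  apply Real.sqrt_le_sqrt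
  have := mul_le_mul_of_nonneg_right six_ge (Nat.cast_nonneg (α := ℝ) h)
  have h0 : (0 : ℝ) ≤ h := Nat.cast_nonneg _
  linarith

theorem grid_dist (K : ℕ) (E : ℝ) (hE : 0 < E) (κ : ℝ) (hκ : 0 < κ) (hκK : κ * K ≤ 1) :
    ∃ N₀ : ℕ, 1 ≤ N₀ ∧ ∀ N : ℕ, N₀ ≤ N → ∀ h : ℕ, (N : ℝ) ^ κ ≤ h → (h : ℝ) * (N : ℝ) ^ κ ≤ N →
      ∀ f : ℕ → ℝ, Rad f N (9 * N) →
      (∀ k, 1 ≤ k → k ≤ K → |∑ n ∈ Ioc N (2 * N), BB f k h n| ≤ (N : ℝ) ^ (1 - κ / 16) * Real.sqrt h ^ k) →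
      ∀ k, 1 ≤ k → k ≤ K → |∑ n ∈ Ioc N (2 * N), (W f h n / sg h) ^ k - N * gk k| ≤ E * N := by
  have hm : ∀ k : ℕ, ∃ C : ℝ, 0 ≤ C ∧ (1 ≤ k → k ≤ K → ∀ N h : ℕ, 1 ≤ N → (N : ℝ) ^ κ ≤ h → (h : ℝ) * (N : ℝ) ^ κ ≤ N →
      ∀ f : ℕ → ℝ, Rad f N (2 * N + h) →
      |∑ n ∈ Ioc N (2 * N), W f h n ^ k - ((2 * N - N : ℕ) : ℝ) * (gk k * sg h ^ k) - ∑ n ∈ Ioc N (2 * N), BB f k h n| ≤
        C * (N : ℝ) ^ (1 - κ / 4) * Real.sqrt h ^ k) := by
    intro k
    by_cases hk : 1 ≤ k ∧ k ≤ K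
    · obtain ⟨C, hC, h1⟩ := moment k 2 hk.1 (by norm_num) κ hκ (by
        refine le_trans (mul_le_mul_of_nonneg_left ?_ hκ.le) hκK
        exact_mod_cast hk.2)
      exact ⟨C, hC, fun _ _ => h1⟩
    · exact ⟨0, le_rfl, fun h1 h2 => absurd ⟨h1, h2⟩ hk⟩
  choose C hC hmom using hm
  obtain ⟨D, hD⟩ : ∃ D : ℝ, D = ∑ u ∈ range (K + 1), C u := ⟨_, rfl⟩
  have hD0 : 0 ≤ D := by rw [hD]; exact sum_nonneg fun u _ => hC u
  have hCD : ∀ u ≤ K, C u ≤ D := fun u hu => by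
    rw [hD]
    exact single_le_sum (f := C) (fun v _ => hC v) (mem_range.2 (by omega))
  obtain ⟨N₁, hN₁⟩ := eventually_pow_ge (κ / 16) ((D + 1) * 2 ^ K / E) (by positivity)
  refine ⟨max N₁ 1, le_max_right _ _, ?_⟩
  intro N hN h hNh hhN f hf hB k hk1 hk2
  have hN1 : 1 ≤ N := (le_max_right _ _).trans hN
  have hNr : (1 : ℝ) ≤ N := by exact_mod_cast hN1
  have hN0 : (0 : ℝ) < N := by linarith
  have hs1 : (1 : ℝ) ≤ (N : ℝ) ^ κ := Real.one_le_rpow hNr hκ.le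
  have hh1 : (1 : ℝ) ≤ h := hs1.trans hNh
  have hh0 : (0 : ℝ) < h := by linarith
  have hhN' : h ≤ N := by
    have h2 : (h : ℝ) ≤ N := by nlinarith
    exact_mod_cast h2
  have h1 := hmom k hk1 hk2 N h hN1 hNh hhN f (fun m hm1 hm2 => hf m hm1 (by omega))
  have h2 := hB k hk1 hk2
  have hsg0 : 0 < sg h := by
    have := sqrt_le_sg h
    have h3 : 0 < Real.sqrt h := Real.sqrt_pos.2 hh0
    linarith
  have e1 : ((2 * N - N : ℕ) : ℝ) = N := by
    rw [show 2 * N - N = N by omega]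
  rw [e1] at h1
  have h3 : |∑ n ∈ Ioc N (2 * N), W f h n ^ k - N * (gk k * sg h ^ k)| ≤ (D + 1) * (N : ℝ) ^ (1 - κ / 16) * Real.sqrt h ^ k := by
    have h4 : (N : ℝ) ^ (1 - κ / 4) ≤ (N : ℝ) ^ (1 - κ / 16) := by
      apply Real.rpow_le_rpow_of_exponent_le hNr
      linarith
    have h5 : C k * (N : ℝ) ^ (1 - κ / 4) * Real.sqrt h ^ k ≤ D * (N : ℝ) ^ (1 - κ / 16) * Real.sqrt h ^ k := by
      apply mul_le_mul_of_nonneg_right _ (by positivity)
      exact mul_le_mul (hCD k hk2) h4 (by positivity) hD0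
    calc |∑ n ∈ Ioc N (2 * N), W f h n ^ k - N * (gk k * sg h ^ k)| =
        |(∑ n ∈ Ioc N (2 * N), W f h n ^ k - N * (gk k * sg h ^ k) - ∑ n ∈ Ioc N (2 * N), BB f k h n) + ∑ n ∈ Ioc N (2 * N), BB f k h n| := by
          congr 1; ring
      _ ≤ D * (N : ℝ) ^ (1 - κ / 16) * Real.sqrt h ^ k + (N : ℝ) ^ (1 - κ / 16) * Real.sqrt h ^ k :=
          (abs_add_le _ _).trans (add_le_add (h1.trans h5) h2)
      _ = _ := by ring
  have e2 : ∑ n ∈ Ioc N (2 * N), (W f h n / sg h) ^ k - N * gk k =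
      (∑ n ∈ Ioc N (2 * N), W f h n ^ k - N * (gk k * sg h ^ k)) / sg h ^ k := by
    have : sg h ^ k ≠ 0 := by positivity
    rw [sub_div, sum_div]
    congr 1
    · apply sum_congr rfl
      intro n _
      rw [div_pow]
    · field_simp
  rw [e2, abs_div, abs_of_pos (by positivity : 0 < sg h ^ k), div_le_iff₀ (by positivity)]
  refine h3.trans ?_
  have h4 : Real.sqrt h ^ k ≤ 2 ^ K * sg h ^ k := by
    calc Real.sqrt h ^ k ≤ (2 * sg h) ^ k := pow_le_pow_left₀ (Real.sqrt_nonneg _) (sqrt_le_sg h) k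
      _ = 2 ^ k * sg h ^ k := mul_pow _ _ _
      _ ≤ 2 ^ K * sg h ^ k := by
        apply mul_le_mul_of_nonneg_right _ (by positivity)
        exact pow_le_pow_right₀ (by norm_num) hk2
  have h5 : (D + 1) * 2 ^ K * (N : ℝ) ^ (1 - κ / 16) ≤ E * N := by
    have h6 := hN₁ N ((le_max_left _ _).trans hN)
    rw [div_le_iff₀ hE] at h6
    calc (D + 1) * 2 ^ K * (N : ℝ) ^ (1 - κ / 16) ≤ ((N : ℝ) ^ (κ / 16) * E) * (N : ℝ) ^ (1 - κ / 16) :=
          mul_le_mul_of_nonneg_right h6 (by positivity)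
      _ = E * ((N : ℝ) ^ (κ / 16) * (N : ℝ) ^ (1 - κ / 16)) := by ring
      _ = E * N := by
          rw [← Real.rpow_add hN0, show κ / 16 + (1 - κ / 16) = (1 : ℝ) by ring, Real.rpow_one]
  calc (D + 1) * (N : ℝ) ^ (1 - κ / 16) * Real.sqrt h ^ k ≤ (D + 1) * (N : ℝ) ^ (1 - κ / 16) * (2 ^ K * sg h ^ k) :=
        mul_le_mul_of_nonneg_left h4 (by positivity)
    _ = ((D + 1) * 2 ^ K * (N : ℝ) ^ (1 - κ / 16)) * sg h ^ k := by ring
    _ ≤ E * N * sg h ^ k := mul_le_mul_of_nonneg_right h5 (by positivity)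

/-- comparison of the distribution of two sums -/
theorem compare (f : ℕ → ℝ) (N N' h g : ℕ) (hNN : N ≤ N') (y u F : ℝ) (hu : 0 < u)
    (hF : ∑ m ∈ Ioc (N' + h) (2 * N' + h), W f g m ^ 4 ≤ F) :
    (((Ioc N' (2 * N')).filter (fun n => W f (h + g) n ≤ y)).card : ℝ) ≤
      ((Ioc N (2 * N)).filter (fun n => W f h n ≤ y + u)).card + 2 * (N' - N : ℝ) + F / u ^ 4 ∧
    (((Ioc N (2 * N)).filter (fun n => W f h n ≤ y - u)).card : ℝ) ≤
      ((Ioc N' (2 * N')).filter (fun n => W f (h + g) n ≤ y)).card + (N' - N : ℝ) + F / u ^ 4 := by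
  classical
  have hu4 : 0 < u ^ 4 := by positivity
  -- the exceptional set
  obtain ⟨X, hX⟩ : ∃ X : Finset ℕ, X = (Ioc N' (2 * N')).filter (fun n => u < |W f g (n + h)|) := ⟨_, rfl⟩
  have hXF : (X.card : ℝ) ≤ F / u ^ 4 := by
    rw [le_div_iff₀ hu4]
    refine le_trans ?_ hF
    have h1 : ∑ m ∈ Ioc (N' + h) (2 * N' + h), W f g m ^ 4 = ∑ n ∈ Ioc N' (2 * N'), W f g (n + h) ^ 4 := by
      symm
      apply sum_bij (fun m _ => m + h)
      · intro m hm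
        rw [mem_Ioc] at hm ⊢
        omega
      · intro m _ m' _ h
        omega
      · intro m hm
        rw [mem_Ioc] at hm
        exact ⟨m - h, by rw [mem_Ioc]; omega, by omega⟩
      · intro m _
        rfl
    rw [h1, ← nsmul_eq_mul]
    refine (card_nsmul_le_sum X (fun n => W f g (n + h) ^ 4) _ fun n hn => ?_).trans
      (sum_le_sum_of_subset_of_nonneg (by rw [hX]; exact filter_subset _ _) fun i _ _ => by positivity)
    rw [hX, mem_filter] at hn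
    have h2 : W f g (n + h) ^ 4 = |W f g (n + h)| ^ 4 := (Even.pow_abs (by decide) _).symm
    rw [h2]
    exact pow_le_pow_left₀ hu.le hn.2.le 4
  have hW : ∀ n, W f (h + g) n = W f h n + W f g (n + h) := fun n => W_add f h g n
  constructor
  · have h1 : (Ioc N' (2 * N')).filter (fun n => W f (h + g) n ≤ y) ⊆
        (Ioc N (2 * N)).filter (fun n => W f h n ≤ y + u) ∪ (Ioc (2 * N) (2 * N') ∪ X) := by
      intro n hn
      rw [mem_filter, mem_Ioc] at hn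
      rw [mem_union, mem_union, mem_filter, mem_Ioc, mem_Ioc]
      by_cases hx : n ∈ X
      · right; right; exact hx
      · by_cases h2 : n ≤ 2 * N
        · left
          refine ⟨⟨by omega, h2⟩, ?_⟩
          rw [hX, mem_filter, mem_Ioc] at hx
          push Not at hx
          have h3 := hx hn.1
          rw [hW] at hn
          have := (abs_le.1 h3).1
          linarith [hn.2]
        · right; left
          omega
    have h2 := (card_le_card h1).trans ((card_union_le _ _).trans (Nat.add_le_add_left (card_union_le _ _) _))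
    rw [Nat.card_Ioc] at h2
    have h3 : ((2 * N' - 2 * N : ℕ) : ℝ) = 2 * (N' - N : ℝ) := by
      rw [Nat.cast_sub (by omega)]
      push_cast
      ring
    have h4 : (((Ioc N' (2 * N')).filter (fun n => W f (h + g) n ≤ y)).card : ℝ) ≤
        ((Ioc N (2 * N)).filter (fun n => W f h n ≤ y + u)).card + (((2 * N' - 2 * N : ℕ) : ℝ) + X.card) := by exact_mod_cast h2
    rw [h3] at h4
    linarith
  · have h1 : (Ioc N (2 * N)).filter (fun n => W f h n ≤ y - u) ⊆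
        (Ioc N' (2 * N')).filter (fun n => W f (h + g) n ≤ y) ∪ (Ioc N N' ∪ X) := by
      intro n hn
      rw [mem_filter, mem_Ioc] at hn
      rw [mem_union, mem_union, mem_filter, mem_Ioc, mem_Ioc]
      by_cases hx : n ∈ X
      · right; right; exact hx
      · by_cases h2 : n ≤ N'
        · right; left
          exact ⟨hn.1.1, h2⟩
        · left
          have h5 : n ∈ Ioc N' (2 * N') := by rw [mem_Ioc]; omega
          refine ⟨mem_Ioc.1 h5, ?_⟩
          rw [hX, mem_filter] at hx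
          push Not at hx
          have h3 := hx h5
          rw [hW]
          have := (abs_le.1 h3).2
          linarith [hn.2]
    have h2 := (card_le_card h1).trans ((card_union_le _ _).trans (Nat.add_le_add_left (card_union_le _ _) _))
    rw [Nat.card_Ioc] at h2
    have h3 : ((N' - N : ℕ) : ℝ) = (N' - N : ℝ) := by
      rw [Nat.cast_sub hNN]
    have h4 : (((Ioc N (2 * N)).filter (fun n => W f h n ≤ y - u)).card : ℝ) ≤
        ((Ioc N' (2 * N')).filter (fun n => W f (h + g) n ≤ y)).card + (((N' - N : ℕ) : ℝ) + X.card) := by exact_mod_cast h2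
    rw [h3] at h4
    linarith

end Pool.Agent.K4H14.GC
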