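import Pool.Agent.K4H14.GC.Det

/-!
# From the points of a grid to all intervals: the distribution
-/

set_option autoImplicit false

namespace Pool.Agent.K4H14.GC

open Finset

theorem digits (b h' : ℕ) (hh : 2 ^ b ≤ h') : ∃ j s g : ℕ, h' = j * 2 ^ s + g ∧ g < 2 ^ s ∧ 2 ^ b ≤ j ∧ j < 2 ^ (b + 1) := by
  have h0 : h' ≠ 0 := by have : 0 < 2 ^ b := by positivity
                         omega
  have hl : b ≤ Nat.log 2 h' := Nat.le_log_of_pow_le (by norm_num) hh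
  have h1 : 2 ^ (Nat.log 2 h') ≤ h' := Nat.pow_log_le_self 2 h0
  have h2 : h' < 2 ^ (Nat.log 2 h' + 1) := Nat.lt_pow_succ_log_self (by norm_num) h'
  obtain ⟨s, hs⟩ : ∃ s, Nat.log 2 h' = b + s := ⟨Nat.log 2 h' - b, by omega⟩
  rw [hs] at h1 h2
  have hp : 0 < 2 ^ s := by positivity
  refine ⟨h' / 2 ^ s, s, h' % 2 ^ s, ?_, Nat.mod_lt _ hp, ?_, ?_⟩
  · rw [mul_comm]
    exact (Nat.div_add_mod h' (2 ^ s)).symm
  · rw [Nat.le_div_iff_mul_le hp, ← pow_add]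
    exact h1
  · rw [Nat.div_lt_iff_lt_mul hp, ← pow_add]
    refine lt_of_lt_of_le h2 (le_of_eq ?_)
    congr 1
    omega

theorem filter_div (s : Finset ℕ) (X : ℕ → ℝ) (σ y : ℝ) (hσ : 0 < σ) :
    s.filter (fun n => X n ≤ y) = s.filter (fun n => X n / σ ≤ y / σ) := by
  apply filter_congr
  intro n _
  rw [div_le_div_iff_of_pos_right hσ]

theorem det (τ ε : ℝ) (hτ : 0 < τ) (hε : 0 < ε) : ∃ K b : ℕ, 4 ≤ K ∧ ∃ κ : ℝ, 0 < κ ∧ κ * (2 * K) ≤ 1 ∧ κ ≤ ε / 16 ∧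
    1 ≤ τ * 2 ^ b ∧ ∃ N₀ : ℕ, 1 ≤ N₀ ∧
    ∀ N : ℕ, N₀ ≤ N → ∀ f : ℕ → ℝ, Rad f N (9 * N) → Good K (2 ^ b) κ f N → ∀ N' : ℕ, N ≤ N' → 2 ^ b * (N' - N) ≤ N →
      ∀ h' : ℕ, (N' : ℝ) ^ ε ≤ h' → (h' : ℝ) ≤ (N' : ℝ) ^ (1 - ε) → ∀ x : ℝ,
      |(((Ioc N' (2 * N')).filter (fun n => W f h' n ≤ x * sg h')).card : ℝ) - N' * Ph x| ≤ 6 * τ * N' := by
  obtain ⟨K, hK4, E, hE, hdist⟩ := dist_of_moments τ hτ
  have hKr : (4 : ℝ) ≤ K := by exact_mod_cast hK4
  obtain ⟨κ, hκdef⟩ : ∃ κ : ℝ, κ = min (ε / 16) (1 / (2 * K)) := ⟨_, rfl⟩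
  have hκ : 0 < κ := by rw [hκdef]; exact lt_min (by positivity) (by positivity)
  have hκε : κ ≤ ε / 16 := by rw [hκdef]; exact min_le_left _ _
  have hκK : κ * (2 * K) ≤ 1 := by
    have : κ ≤ 1 / (2 * K) := by rw [hκdef]; exact min_le_right _ _
    rw [le_div_iff₀ (by positivity)] at this
    exact this
  obtain ⟨N₁, hN₁1, hgrid⟩ := grid_dist K E hE κ hκ (by nlinarith)
  obtain ⟨D, hD, N₂, hN₂1, hfour⟩ := four κ hκ (by nlinarith)
  obtain ⟨b, hb⟩ := pow_unbounded_of_one_lt (1 / τ + 16 * D / τ ^ 5 + 1) (show (1 : ℝ) < 2 by norm_num)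
  have hJ0 : (0 : ℝ) < 2 ^ b := by positivity
  have hJ1 : (1 : ℝ) ≤ 2 ^ b := one_le_pow₀ (by norm_num)
  have hJτ : 1 ≤ τ * 2 ^ b := by
    have h1 : 1 / τ ≤ 2 ^ b := by
      have : 0 ≤ 16 * D / τ ^ 5 := by positivity
      linarith
    rw [div_le_iff₀ hτ] at h1
    linarith
  have hJD : 16 * D / τ ^ 5 ≤ (2 ^ b) ^ 2 := by
    have h1 : 0 < 1 / τ := by positivity
    have h2 : 16 * D / τ ^ 5 ≤ 2 ^ b := by linarith
    refine h2.trans ?_
    rw [sq]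
    exact le_mul_of_one_le_left hJ0.le hJ1
  obtain ⟨N₃, hN₃⟩ := eventually_pow_ge (ε / 2) (2 * 2 ^ b) (by positivity)
  refine ⟨K, b, hK4, κ, hκ, hκK, hκε, hJτ, max (max N₁ N₂) N₃, le_trans hN₁1 (le_trans (le_max_left _ _) (le_max_left _ _)), ?_⟩
  intro N hN f hf hgood N' hNN' hN'J h' hh'1 hh'2 x
  have hN1 : N₁ ≤ N := le_trans (le_trans (le_max_left _ _) (le_max_left _ _)) hN
  have hN2 : N₂ ≤ N := le_trans (le_trans (le_max_right _ _) (le_max_left _ _)) hN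
  have hN3 := hN₃ N (le_trans (le_max_right _ _) hN)
  have hNn1 : 1 ≤ N := hN₁1.trans hN1
  have hNr : (1 : ℝ) ≤ N := by exact_mod_cast hNn1
  have hN0 : (0 : ℝ) < N := by linarith
  have hN'r : (N : ℝ) ≤ N' := by exact_mod_cast hNN'
  have hN'0 : (0 : ℝ) < N' := by linarith
  have hN'J' : (2 : ℝ) ^ b * (N' - N) ≤ N := by
    have h1 : ((2 ^ b * (N' - N) : ℕ) : ℝ) ≤ N := by exact_mod_cast hN'J
    rw [Nat.cast_mul, Nat.cast_sub hNN'] at h1
    push_cast at h1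
    exact h1
  have hN'2 : (N' : ℝ) ≤ 2 * N := by
    have h1 : (N' - N : ℝ) ≤ 2 ^ b * (N' - N) := le_mul_of_one_le_left (by linarith) hJ1
    linarith
  have hN'2' : N' ≤ 2 * N := by exact_mod_cast hN'2
  have hNε : (N : ℝ) ^ ε ≤ h' := (Real.rpow_le_rpow hN0.le hN'r hε.le).trans hh'1
  have hNhalf : (N : ℝ) ^ (ε / 2) ≤ (N : ℝ) ^ ε := Real.rpow_le_rpow_of_exponent_le hNr (by linarith)
  have hh'J : 2 ^ b ≤ h' := by
    have h1 : (2 : ℝ) ^ b ≤ h' := by linarith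
    exact_mod_cast h1
  obtain ⟨j, s, g, e1, hg, hj1, hj2⟩ := digits b h' hh'J
  obtain ⟨h, hh⟩ : ∃ h, h = j * 2 ^ s := ⟨_, rfl⟩
  rw [← hh] at e1
  have hjr1 : (2 : ℝ) ^ b ≤ j := by exact_mod_cast hj1
  have hgs : (g : ℝ) < 2 ^ s := by exact_mod_cast hg
  have hhr : (h : ℝ) = j * 2 ^ s := by rw [hh]; push_cast; ring
  have h2s0 : (0 : ℝ) < 2 ^ s := by positivity
  have hJs : (2 : ℝ) ^ b * 2 ^ s ≤ h := by rw [hhr]; exact mul_le_mul_of_nonneg_right hjr1 h2s0.le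
  have hh0 : (0 : ℝ) < h := lt_of_lt_of_le (by positivity) hJs
  have e1r : (h' : ℝ) = h + g := by exact_mod_cast e1
  have hg0 : (0 : ℝ) ≤ g := Nat.cast_nonneg _
  have hhh' : (h : ℝ) ≤ h' := by linarith
  have h2sh : (2 : ℝ) ^ s ≤ h := le_trans (le_mul_of_one_le_left h2s0.le hJ1) hJs
  have hhalf : (h' : ℝ) ≤ 2 * h := by linarith
  have hratio : (h' : ℝ) * 2 ^ b ≤ h * (2 ^ b + 1) := by
    rw [e1r]
    have h1 : (g : ℝ) * 2 ^ b ≤ 2 ^ s * 2 ^ b := mul_le_mul_of_nonneg_right hgs.le hJ0.le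
    linarith
  -- the conditions
  have c1 : (N : ℝ) ^ κ ≤ h := by
    have h1 : (N : ℝ) ^ κ * 2 ≤ (N : ℝ) ^ ε := by
      calc (N : ℝ) ^ κ * 2 ≤ (N : ℝ) ^ (ε / 2) * (N : ℝ) ^ (ε / 2) := by
            apply mul_le_mul
            · exact Real.rpow_le_rpow_of_exponent_le hNr (by linarith)
            · linarith
            · norm_num
            · positivity
        _ = (N : ℝ) ^ ε := by rw [← Real.rpow_add hN0]; congr 1; ring
    linarith
  have c2' : (h' : ℝ) * (N : ℝ) ^ κ ≤ N := by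
    have h1 : (N' : ℝ) ^ (1 - ε) ≤ 2 * (N : ℝ) ^ (1 - ε) := by
      rcases le_total ε 1 with h2 | h2
      · calc (N' : ℝ) ^ (1 - ε) ≤ (2 * N : ℝ) ^ (1 - ε) := Real.rpow_le_rpow hN'0.le hN'2 (by linarith)
          _ = 2 ^ (1 - ε) * (N : ℝ) ^ (1 - ε) := Real.mul_rpow (by norm_num) hN0.le
          _ ≤ 2 * (N : ℝ) ^ (1 - ε) := by
            apply mul_le_mul_of_nonneg_right _ (by positivity)
            calc (2 : ℝ) ^ (1 - ε) ≤ 2 ^ (1 : ℝ) := Real.rpow_le_rpow_of_exponent_le (by norm_num) (by linarith)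
              _ = 2 := Real.rpow_one 2
      · calc (N' : ℝ) ^ (1 - ε) ≤ (N : ℝ) ^ (1 - ε) := Real.rpow_le_rpow_of_nonpos hN0 hN'r (by linarith)
          _ ≤ 2 * (N : ℝ) ^ (1 - ε) := by
            have : 0 < (N : ℝ) ^ (1 - ε) := by positivity
            linarith
    have h2 : 2 * (N : ℝ) ^ κ ≤ (N : ℝ) ^ ε := by
      calc 2 * (N : ℝ) ^ κ ≤ (N : ℝ) ^ (ε / 2) * (N : ℝ) ^ (ε / 2) := by
            apply mul_le_mul
            · linarith
            · exact Real.rpow_le_rpow_of_exponent_le hNr (by linarith)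
            · positivity
            · positivity
        _ = (N : ℝ) ^ ε := by rw [← Real.rpow_add hN0]; congr 1; ring
    calc (h' : ℝ) * (N : ℝ) ^ κ ≤ (2 * (N : ℝ) ^ (1 - ε)) * (N : ℝ) ^ κ :=
          mul_le_mul_of_nonneg_right (hh'2.trans h1) (by positivity)
      _ = (N : ℝ) ^ (1 - ε) * (2 * (N : ℝ) ^ κ) := by ring
      _ ≤ (N : ℝ) ^ (1 - ε) * (N : ℝ) ^ ε := mul_le_mul_of_nonneg_left h2 (by positivity)
      _ = N := by rw [← Real.rpow_add hN0, show 1 - ε + ε = (1 : ℝ) by ring, Real.rpow_one]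
  have c2 : (h : ℝ) * (N : ℝ) ^ κ ≤ N := (mul_le_mul_of_nonneg_right hhh' (by positivity)).trans c2'
  have c3 : (N : ℝ) ^ (4 * κ) ≤ 2 ^ s := by
    have h1 : (h' : ℝ) ≤ 2 ^ s * (2 * 2 ^ b) := by
      have h2 : h' ≤ 2 ^ s * (2 * 2 ^ b) := by
        have h3 : j + 1 ≤ 2 * 2 ^ b := by rw [pow_succ] at hj2; omega
        calc h' = h + g := e1
          _ ≤ j * 2 ^ s + 2 ^ s := by rw [hh]; omega
          _ = 2 ^ s * (j + 1) := by ring
          _ ≤ _ := Nat.mul_le_mul_left _ h3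
      exact_mod_cast h2
    have h2 : (N : ℝ) ^ (4 * κ) * (2 * 2 ^ b) ≤ 2 ^ s * (2 * 2 ^ b) := by
      calc (N : ℝ) ^ (4 * κ) * (2 * 2 ^ b) ≤ (N : ℝ) ^ (ε / 2) * (N : ℝ) ^ (ε / 2) := by
            apply mul_le_mul
            · exact Real.rpow_le_rpow_of_exponent_le hNr (by linarith)
            · exact hN3
            · positivity
            · positivity
        _ = (N : ℝ) ^ ε := by rw [← Real.rpow_add hN0]; congr 1; ring
        _ ≤ _ := hNε.trans h1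
    exact le_of_mul_le_mul_right h2 (by positivity)
  have c4 : (2 : ℝ) ^ s * (N : ℝ) ^ κ ≤ N := (mul_le_mul_of_nonneg_right h2sh (by positivity)).trans c2
  have hκ1 : (1 : ℝ) ≤ (N : ℝ) ^ κ := Real.one_le_rpow hNr hκ.le
  have hh'N : (h' : ℝ) ≤ N := (le_mul_of_one_le_right (Nat.cast_nonneg _) hκ1).trans c2'
  have hh'N' : h' ≤ N := by exact_mod_cast hh'N
  have hpowle : (N : ℝ) ^ (1 - κ / 16) ≤ N := by
    nth_rewrite 2 [← Real.rpow_one (N : ℝ)]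
    exact Real.rpow_le_rpow_of_exponent_le hNr (by linarith)
  -- distribution at the grid point
  have hd := hdist (Ioc N (2 * N)) (fun n => W f h n / sg h) (fun k hk1 hk2 => by
    have h1 := hgrid N hN1 h c1 c2 f hf (fun k hk1 hk2 => by
      have h2 := hgood k hk1 hk2 2 (Or.inl rfl) j s (by rw [pow_succ] at hj2; omega) (by rw [← hh]; exact c1) (by rw [← hh]; exact c2)
      rw [← hh] at h2
      exact h2) k hk1 hk2
    rw [Nat.card_Ioc, show 2 * N - N = N by omega]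
    exact h1)
  rw [Nat.card_Ioc, show 2 * N - N = N by omega] at hd
  -- the fourth moment
  have h1J : 1 < 2 * 2 ^ b := by
    have : 0 < 2 ^ b := by positivity
    omega
  have h4 := hfour N hN2 f hf (fun r hr1 hr2 => by
    have h2 := hgood 4 (by norm_num) hK4 8 (Or.inr rfl) 1 r h1J (by push_cast; linarith) (by push_cast; linarith)
    rw [one_mul] at h2
    rw [sqrt_pow_eq] at h2
    exact h2.trans (mul_le_mul_of_nonneg_right hpowle (by positivity))) s c3 c4 g (N' + h) (2 * N' + h) hg (by omega) (by omega)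
  have hsg0 : 0 < sg h := by
    have := sqrt_le_sg h
    have h3 : 0 < Real.sqrt h := Real.sqrt_pos.2 hh0
    linarith
  have hu : 0 < τ * sg h := by positivity
  have hcmp := compare f N N' h g hNN' (x * sg h') (τ * sg h) _ hu h4
  rw [← e1] at hcmp
  -- the exceptional set
  have hF : D * N * 4 ^ s / (τ * sg h) ^ 4 ≤ τ * N := by
    rw [div_le_iff₀ (by positivity)]
    have a1 : (4 : ℝ) ^ s * (2 ^ b) ^ 2 ≤ (h : ℝ) ^ 2 := by
      calc (4 : ℝ) ^ s * (2 ^ b) ^ 2 = (2 ^ b * 2 ^ s) ^ 2 := by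
            rw [show (4 : ℝ) = 2 ^ 2 by norm_num, ← pow_mul, mul_pow, ← pow_mul 2 s 2, mul_comm 2 s]
            ring
        _ ≤ (h : ℝ) ^ 2 := pow_le_pow_left₀ (by positivity) hJs 2
    have a2 : (h : ℝ) ^ 2 ≤ 16 * sg h ^ 4 := by
      have h5 := sqrt_le_sg h
      calc (h : ℝ) ^ 2 = Real.sqrt h ^ 4 := by
            rw [show Real.sqrt h ^ 4 = (Real.sqrt h ^ 2) ^ 2 by ring, Real.sq_sqrt hh0.le]
        _ ≤ (2 * sg h) ^ 4 := pow_le_pow_left₀ (Real.sqrt_nonneg _) h5 4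
        _ = _ := by ring
    have a3 : 16 * D ≤ τ ^ 5 * (2 ^ b) ^ 2 := by
      rw [div_le_iff₀ (by positivity)] at hJD
      linarith
    have a4 : 16 * D * 4 ^ s ≤ τ ^ 5 * (16 * sg h ^ 4) := by
      calc 16 * D * 4 ^ s ≤ τ ^ 5 * (2 ^ b) ^ 2 * 4 ^ s := mul_le_mul_of_nonneg_right a3 (by positivity)
        _ = τ ^ 5 * (4 ^ s * (2 ^ b) ^ 2) := by ring
        _ ≤ τ ^ 5 * (16 * sg h ^ 4) := mul_le_mul_of_nonneg_left (a1.trans a2) (by positivity)
    have a5 : D * 4 ^ s ≤ τ ^ 5 * sg h ^ 4 := by linarith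
    calc D * N * 4 ^ s = N * (D * 4 ^ s) := by ring
      _ ≤ N * (τ ^ 5 * sg h ^ 4) := mul_le_mul_of_nonneg_left a5 hN0.le
      _ = τ * N * (τ * sg h) ^ 4 := by ring
  have hNN : (N' - N : ℝ) ≤ τ * N := by
    have h5 : (N' - N : ℝ) * (2 ^ b) ≤ τ * N * 2 ^ b := by
      have h6 := mul_le_mul_of_nonneg_right hJτ hN0.le
      linarith
    exact le_of_mul_le_mul_right h5 hJ0
  -- the scale
  obtain ⟨l, hl⟩ : ∃ l : ℝ, l = sg h' / sg h := ⟨_, rfl⟩
  have hl1 : 1 ≤ l := by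
    rw [hl, one_le_div hsg0]
    unfold sg
    apply Real.sqrt_le_sqrt
    exact mul_le_mul_of_nonneg_left hhh' (by positivity)
  have hl2 : l - 1 ≤ τ := by
    have h5 : l ^ 2 ≤ 1 + 1 / 2 ^ b := by
      rw [hl, div_pow, sg_sq, sg_sq, mul_div_mul_left _ _ (by positivity : (6 / Real.pi ^ 2 : ℝ) ≠ 0), div_le_iff₀ hh0]
      have h6 : (h' : ℝ) ≤ h * (2 ^ b + 1) / 2 ^ b := by
        rw [le_div_iff₀ hJ0]; exact hratio
      refine h6.trans (le_of_eq ?_)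
      field_simp
    have h6 : 1 / 2 ^ b ≤ τ := by
      rw [div_le_iff₀ hJ0]; exact hJτ
    have h7 : l ≤ l ^ 2 := le_self_pow₀ hl1 two_ne_zero
    linarith
  have hls : l * sg h = sg h' := by rw [hl]; field_simp
  have hsc := Ph_scale l x hl1
  rw [abs_le] at hsc
  have hPx0 := Ph_nonneg x
  have hPx1 := Ph_le_one x
  obtain ⟨hup, hlow⟩ := hcmp
  have hd1 := hd (l * x + τ)
  have hd2 := hd (l * x - τ)
  rw [abs_le] at hd1 hd2
  have e2 : (Ioc N (2 * N)).filter (fun n => W f h n ≤ x * sg h' + τ * sg h) =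
      (Ioc N (2 * N)).filter (fun n => W f h n / sg h ≤ l * x + τ) := by
    rw [filter_div _ _ (sg h) _ hsg0]
    congr 1
    funext n
    congr 1
    rw [← hls]
    field_simp
  have e3 : (Ioc N (2 * N)).filter (fun n => W f h n ≤ x * sg h' - τ * sg h) =
      (Ioc N (2 * N)).filter (fun n => W f h n / sg h ≤ l * x - τ) := by
    rw [filter_div _ _ (sg h) _ hsg0]
    congr 1
    funext n
    congr 1
    rw [← hls]
    field_simp
  rw [e2] at hup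
  rw [e3] at hlow
  have p1 : Ph (l * x + τ) ≤ Ph x + 2 * τ := by
    have := Ph_lip (show l * x ≤ l * x + τ by linarith)
    linarith
  have p2 : Ph x - 2 * τ ≤ Ph (l * x - τ) := by
    have := Ph_lip (show l * x - τ ≤ l * x by linarith)
    linarith
  have q1 : (N : ℝ) * Ph (l * x + τ) ≤ N * Ph x + 2 * τ * N := by
    have := mul_le_mul_of_nonneg_left p1 hN0.le
    linarith
  have q2 : (N : ℝ) * Ph x - 2 * τ * N ≤ N * Ph (l * x - τ) := by
    have := mul_le_mul_of_nonneg_left p2 hN0.le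
    linarith
  have q3 : (N : ℝ) * Ph x ≤ N' * Ph x := mul_le_mul_of_nonneg_right hN'r hPx0
  have q4 : (N' : ℝ) * Ph x ≤ N * Ph x + τ * N := by
    have h5 : (N' - N : ℝ) * Ph x ≤ (N' - N : ℝ) := mul_le_of_le_one_right (by linarith) hPx1
    linarith
  have q5 : τ * N ≤ τ * N' := mul_le_mul_of_nonneg_left hN'r hτ.le
  rw [abs_le]
  constructor
  · linarith [hd2.1]
  · linarith [hd1.2]

end Pool.Agent.K4H14.GC
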