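import Pool.Agent.K4H14.GC.ToReal

/-!
# From the integers to the real numbers: the limit
-/

set_option autoImplicit false

namespace Pool.Agent.K4H14.GC

open Finset MeasureTheory ProbabilityTheory Filter

/-- the set of the problem -/
def VV (f : ℕ → ℝ) (X H t : ℝ) : Set ℝ :=
  {x : ℝ | x ∈ Set.Icc X (2 * X) ∧ MM f x H / Real.sqrt (H / (Real.pi ^ 2 / 6)) ≤ t}

theorem two_sided (f : ℕ → ℝ) (hf : ∀ n, |f n| ≤ 1) (X H t τ : ℝ) (hH : 1 ≤ H) (hX : H ≤ X)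
    (hd : ∀ x : ℝ, |(((Ioc ⌊X⌋₊ (2 * ⌊X⌋₊)).filter (fun n => W f ⌊H⌋₊ n ≤ x * sg ⌊H⌋₊)).card : ℝ) - (⌊X⌋₊ : ℝ) * Ph x| ≤ τ * (⌊X⌋₊ : ℝ)) :
    |(volume (VV f X H t)).toReal - X * Ph t| ≤ X * (τ + 5 / Real.sqrt (⌊H⌋₊ : ℝ)) + H + 7 := by
  classical
  obtain ⟨N, hN⟩ : ∃ N, N = ⌊X⌋₊ := ⟨_, rfl⟩
  obtain ⟨h, hh⟩ : ∃ h, h = ⌊H⌋₊ := ⟨_, rfl⟩
  rw [← hN, ← hh] at hd
  rw [← hh]
  have hX1 : 1 ≤ X := hH.trans hX
  have hN1 : (N : ℝ) ≤ X := by rw [hN]; exact Nat.floor_le (by linarith)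
  have hN2 : X < N + 1 := by rw [hN]; exact Nat.lt_floor_add_one _
  have hN0 : (0 : ℝ) ≤ N := Nat.cast_nonneg _
  have hh1 : (h : ℝ) ≤ H := by rw [hh]; exact Nat.floor_le (by linarith)
  have hh2 : H < h + 1 := by rw [hh]; exact Nat.lt_floor_add_one _
  have hh3 : (1 : ℝ) ≤ h := by
    have : 1 ≤ h := by rw [hh]; exact Nat.le_floor (by simpa using hH)
    exact_mod_cast this
  have hh0 : (0 : ℝ) < h := by linarith
  have hτ0 : 0 ≤ τ * N := (abs_nonneg _).trans (hd 0)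
  -- the standard deviations
  obtain ⟨σ, hσ⟩ : ∃ σ : ℝ, σ = Real.sqrt (H / (Real.pi ^ 2 / 6)) := ⟨_, rfl⟩
  have hσ0 : 0 < σ := by rw [hσ]; apply Real.sqrt_pos.2; positivity
  have hsg0 : 0 < sg h := by
    have := sqrt_le_sg h
    have h3 : 0 < Real.sqrt h := Real.sqrt_pos.2 hh0
    linarith
  obtain ⟨l, hl⟩ : ∃ l : ℝ, l = σ / sg h := ⟨_, rfl⟩
  have hl0 : 0 < l := by rw [hl]; positivity
  have hl2 : l ^ 2 = H / h := by
    rw [hl, div_pow, sg_sq, hσ, Real.sq_sqrt (by positivity)]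
    field_simp
  have hl1 : 1 ≤ l := by
    have : 1 ≤ l ^ 2 := by rw [hl2, one_le_div hh0]; exact hh1
    nlinarith
  have hl3 : l - 1 ≤ 1 / h := by
    have h1 : l ^ 2 ≤ 1 + 1 / h := by
      rw [hl2, div_le_iff₀ hh0]
      have : (1 + 1 / (h : ℝ)) * h = h + 1 := by field_simp
      linarith
    have h2 : l ≤ l ^ 2 := le_self_pow₀ hl1 two_ne_zero
    linarith
  have hs1 : (1 : ℝ) ≤ Real.sqrt h := Real.one_le_sqrt.2 hh3
  have hs0 : (0 : ℝ) < Real.sqrt h := by linarith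
  have hsinv : 1 / (h : ℝ) ≤ 1 / Real.sqrt h := by
    apply one_div_le_one_div_of_le hs0
    have : Real.sqrt h * Real.sqrt h = h := Real.mul_self_sqrt hh0.le
    nlinarith
  have hsg4 : 2 / sg h ≤ 4 / Real.sqrt h := by
    rw [div_le_div_iff₀ hsg0 hs0]
    have := sqrt_le_sg h
    linarith
  have hσl : σ = l * sg h := by rw [hl]; exact (div_mul_cancel₀ σ hsg0.ne').symm
  have hdev : (l - 1) + 2 / sg h ≤ 5 / Real.sqrt h := by
    calc (l - 1) + 2 / sg h ≤ 1 / Real.sqrt h + 4 / Real.sqrt h := add_le_add (hl3.trans hsinv) hsg4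
      _ = _ := by ring
  have hE0 : 0 ≤ 5 / Real.sqrt h := by positivity
  -- upper bound
  have hup : (volume (VV f X H t)).toReal ≤ (((Ioc N (2 * N)).filter (fun n => W f h n ≤ t * σ + 2)).card : ℝ) + (H / 2 + 6) := by
    have h1 := vol_le X H (by linarith) hX hX1 (fun n => W f h n ≤ t * σ + 2) (VV f X H t) (fun x hx => ?_)
    · rw [← hN] at h1
      exact ENNReal.toReal_le_of_le_ofReal (add_nonneg (Nat.cast_nonneg _) (by linarith)) h1
    · refine ⟨hx.1, ?_⟩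
      have h2 := MM_near f hf x H (by linarith) (by linarith [hx.1.1])
      rw [← hh, abs_le] at h2
      have h3 : MM f x H ≤ t * σ := by
        have := hx.2
        rw [← hσ, div_le_iff₀ hσ0] at this
        exact this
      change W f h ⌊x - H / 2⌋₊ ≤ t * σ + 2
      linarith [h2.1]
  -- lower bound
  have hlow : X ≤ (volume (VV f X H t)).toReal + ((((Ioc N (2 * N)).filter (fun n => ¬ W f h n ≤ t * σ - 2)).card : ℝ) + (H / 2 + 6)) := by
    have h1 := vol_le X H (by linarith) hX hX1 (fun n => ¬ W f h n ≤ t * σ - 2) (Set.Icc X (2 * X) \ VV f X H t) (fun x hx => ?_)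
    · rw [← hN] at h1
      have h2 : volume (Set.Icc X (2 * X)) ≤ volume (VV f X H t) + volume (Set.Icc X (2 * X) \ VV f X H t) := by
        refine (measure_mono ?_).trans (measure_union_le _ _)
        intro x hx
        by_cases hv : x ∈ VV f X H t
        · left; exact hv
        · right; exact ⟨hx, hv⟩
      rw [Real.volume_Icc, show 2 * X - X = X by ring] at h2
      have hVfin : volume (VV f X H t) ≠ ⊤ := by
        apply ne_top_of_le_ne_top _ (measure_mono (show VV f X H t ⊆ Set.Icc X (2 * X) from fun x hx => hx.1))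
        rw [Real.volume_Icc]
        exact ENNReal.ofReal_ne_top
      have h3 := h2.trans (add_le_add_right h1 _)
      rw [← ENNReal.ofReal_toReal hVfin, ← ENNReal.ofReal_add ENNReal.toReal_nonneg (add_nonneg (Nat.cast_nonneg _) (by linarith))] at h3
      exact (ENNReal.ofReal_le_ofReal_iff (add_nonneg ENNReal.toReal_nonneg (add_nonneg (Nat.cast_nonneg _) (by linarith)))).1 h3
    · refine ⟨hx.1, ?_⟩
      have h2 := MM_near f hf x H (by linarith) (by linarith [hx.1.1])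
      rw [← hh, abs_le] at h2
      have h3 : t * σ < MM f x H := by
        by_contra hcon
        push Not at hcon
        apply hx.2
        refine ⟨hx.1, ?_⟩
        rw [← hσ, div_le_iff₀ hσ0]
        exact hcon
      change ¬ W f h ⌊x - H / 2⌋₊ ≤ t * σ - 2
      linarith [h2.2]
  have hcompl : (((Ioc N (2 * N)).filter (fun n => ¬ W f h n ≤ t * σ - 2)).card : ℝ) =
      N - ((Ioc N (2 * N)).filter (fun n => W f h n ≤ t * σ - 2)).card := by
    have := card_filter_add_card_filter_not (s := Ioc N (2 * N)) (fun n => W f h n ≤ t * σ - 2)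
    rw [Nat.card_Ioc, show 2 * N - N = N by omega] at this
    have h2 : (((Ioc N (2 * N)).filter (fun n => W f h n ≤ t * σ - 2)).card : ℝ) +
        ((Ioc N (2 * N)).filter (fun n => ¬ W f h n ≤ t * σ - 2)).card = N := by exact_mod_cast this
    linarith
  rw [hcompl] at hlow
  -- the discrete law
  have e1 : t * σ + 2 = (t * l + 2 / sg h) * sg h := by
    rw [add_mul, div_mul_cancel₀ _ hsg0.ne', mul_assoc, ← hσl]
  have e2 : t * σ - 2 = (t * l - 2 / sg h) * sg h := by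
    rw [sub_mul, div_mul_cancel₀ _ hsg0.ne', mul_assoc, ← hσl]
  have d1 := hd (t * l + 2 / sg h)
  have d2 := hd (t * l - 2 / sg h)
  rw [← e1, abs_le] at d1
  rw [← e2, abs_le] at d2
  have hsc := Ph_scale l t hl1
  rw [abs_le, mul_comm l t] at hsc
  have h2sg : 0 ≤ 2 / sg h := by positivity
  have p1 : Ph (t * l + 2 / sg h) ≤ Ph t + 5 / Real.sqrt h := by
    have := Ph_lip (show t * l ≤ t * l + 2 / sg h by linarith)
    linarith [hsc.2]
  have p2 : Ph t - 5 / Real.sqrt h ≤ Ph (t * l - 2 / sg h) := by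
    have := Ph_lip (show t * l - 2 / sg h ≤ t * l by linarith)
    linarith [hsc.1]
  have q1 := mul_le_mul_of_nonneg_left p1 hN0
  have q2 := mul_le_mul_of_nonneg_left p2 hN0
  have hP0 := Ph_nonneg t
  have hP1 := Ph_le_one t
  have r1 : (N : ℝ) * Ph t ≤ X * Ph t := mul_le_mul_of_nonneg_right hN1 hP0
  have r2 : X * Ph t ≤ N * Ph t + 1 := by nlinarith
  have r3 : (N : ℝ) * (5 / Real.sqrt h) ≤ X * (5 / Real.sqrt h) := mul_le_mul_of_nonneg_right hN1 hE0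
  have r4 : τ * N ≤ X * τ := by
    rcases eq_or_lt_of_le hN0 with c | c
    · exfalso
      rw [← c] at hN2
      linarith
    · have : 0 ≤ τ := nonneg_of_mul_nonneg_left hτ0 c
      rw [mul_comm]
      exact mul_le_mul_of_nonneg_right hN1 this
  have hexp : X * (τ + 5 / Real.sqrt h) = X * τ + X * (5 / Real.sqrt h) := by ring
  rw [hexp, abs_le]
  constructor
  · linarith [d2.1]
  · linarith [d1.2]

/-- the normal law, uniformly -/
theorem real_unif (f : ℕ → ℝ) (hf : ∀ n, |f n| ≤ 1) (hD : Disc f) : ∀ ε δ : ℝ, 0 < ε → 0 < δ → ∃ X₀ : ℝ, 1 ≤ X₀ ∧ ∀ X : ℝ, X₀ ≤ X →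
    ∀ H : ℝ, X ^ ε ≤ H → H ≤ X ^ (1 - ε) → ∀ t : ℝ, |(volume (VV f X H t)).toReal / X - Ph t| ≤ δ := by
  intro ε δ hε hδ
  obtain ⟨N₀, hN₀⟩ := hD (ε / 2) (δ / 8) (by positivity) (by positivity)
  -- large X
  have hpow : ∀ a B : ℝ, 0 < a → ∀ᶠ X : ℝ in atTop, B ≤ X ^ a := fun a B ha => (tendsto_rpow_atTop ha).eventually_ge_atTop B
  have hev : ∀ᶠ X : ℝ in atTop, (N₀ + 2 : ℝ) ≤ X ∧ 56 / δ ≤ X ∧ 4 ≤ X ^ (ε / 2) ∧ 2 * (40 / δ) ^ 2 + 2 ≤ X ^ ε ∧ 8 / δ ≤ X ^ ε := by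
    filter_upwards [eventually_ge_atTop (N₀ + 2 : ℝ), eventually_ge_atTop (56 / δ), hpow (ε / 2) 4 (by positivity),
      hpow ε (2 * (40 / δ) ^ 2 + 2) hε, hpow ε (8 / δ) hε] with X h1 h2 h3 h4 h5
    exact ⟨h1, h2, h3, h4, h5⟩
  obtain ⟨X₀, hX₀⟩ := eventually_atTop.1 hev
  refine ⟨max X₀ 1, le_max_right _ _, ?_⟩
  intro X hXX0 H h1 h2 t
  obtain ⟨hX2, hX3, hX4, hX5, hX6⟩ := hX₀ X ((le_max_left _ _).trans hXX0)
  have hX0 : (2 : ℝ) ≤ X := by
    have : (0 : ℝ) ≤ N₀ := Nat.cast_nonneg _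
    linarith
  have hXp : (0 : ℝ) < X := by linarith
  have hX1' : (1 : ℝ) ≤ X := by linarith
  have hH1 : 1 ≤ H := by
    have : (1 : ℝ) ≤ X ^ ε := Real.one_le_rpow hX1' hε.le
    linarith
  have hXX : X ^ (1 - ε) * X ^ ε = X := by
    rw [← Real.rpow_add hXp, show 1 - ε + ε = (1 : ℝ) by ring, Real.rpow_one]
  have hXe1 : (1 : ℝ) ≤ X ^ ε := Real.one_le_rpow hX1' hε.le
  have hHX : H ≤ X := by
    have : X ^ (1 - ε) ≤ X := by
      calc X ^ (1 - ε) ≤ X ^ (1 - ε) * X ^ ε := le_mul_of_one_le_right (by positivity) hXe1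
        _ = X := hXX
    linarith
  obtain ⟨N, hN⟩ : ∃ N, N = ⌊X⌋₊ := ⟨_, rfl⟩
  obtain ⟨h, hh⟩ : ∃ h, h = ⌊H⌋₊ := ⟨_, rfl⟩
  have hN1 : (N : ℝ) ≤ X := by rw [hN]; exact Nat.floor_le (by linarith)
  have hN2 : X < N + 1 := by rw [hN]; exact Nat.lt_floor_add_one _
  have hh1 : (h : ℝ) ≤ H := by rw [hh]; exact Nat.floor_le (by linarith)
  have hh2 : H < h + 1 := by rw [hh]; exact Nat.lt_floor_add_one _
  have hNN : N₀ ≤ N := by
    have : (N₀ : ℝ) ≤ N := by linarith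
    exact_mod_cast this
  have hNp : (0 : ℝ) < N := by linarith
  have hNhalf : X ≤ 2 * N := by linarith
  have hsplit : X ^ (ε / 2) * X ^ (ε / 2) = X ^ ε := by
    rw [← Real.rpow_add hXp]; congr 1; ring
  have hc1 : (N : ℝ) ^ (ε / 2) ≤ h := by
    have a1 : (N : ℝ) ^ (ε / 2) ≤ X ^ (ε / 2) := Real.rpow_le_rpow hNp.le hN1 (by linarith)
    nlinarith
  have hc2 : (h : ℝ) ≤ (N : ℝ) ^ (1 - ε / 2) := by
    have a1 : X ^ (1 - ε) * 2 ≤ X ^ (1 - ε / 2) := by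
      have : X ^ (1 - ε / 2) = X ^ (1 - ε) * X ^ (ε / 2) := by
        rw [← Real.rpow_add hXp]; congr 1; ring
      rw [this]
      apply mul_le_mul_of_nonneg_left _ (by positivity)
      linarith
    have hX1ε : 0 < X ^ (1 - ε) := by positivity
    have a2 : X ^ (1 - ε / 2) ≤ 2 * (N : ℝ) ^ (1 - ε / 2) := by
      rcases le_total 0 (1 - ε / 2) with hs | hs
      · calc X ^ (1 - ε / 2) ≤ (2 * N : ℝ) ^ (1 - ε / 2) := Real.rpow_le_rpow hXp.le hNhalf hs
          _ = 2 ^ (1 - ε / 2) * (N : ℝ) ^ (1 - ε / 2) := Real.mul_rpow (by norm_num) hNp.le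
          _ ≤ 2 * (N : ℝ) ^ (1 - ε / 2) := by
            apply mul_le_mul_of_nonneg_right _ (by positivity)
            calc (2 : ℝ) ^ (1 - ε / 2) ≤ 2 ^ (1 : ℝ) := Real.rpow_le_rpow_of_exponent_le (by norm_num) (by linarith)
              _ = 2 := Real.rpow_one 2
      · have hc : X ^ (1 - ε / 2) ≤ (N : ℝ) ^ (1 - ε / 2) := Real.rpow_le_rpow_of_nonpos hNp hN1 hs
        have : 0 < (N : ℝ) ^ (1 - ε / 2) := by positivity
        linarith
    linarith
  have hd := hN₀ N hNN h hc1 hc2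
  have hts := two_sided f hf X H t (δ / 8) hH1 hHX (by rw [← hN, ← hh]; exact hd)
  rw [← hh] at hts
  have hsqrt : 40 / δ ≤ Real.sqrt h := by
    apply Real.le_sqrt_of_sq_le
    have : 0 ≤ (40 / δ) ^ 2 := sq_nonneg _
    linarith
  have hs0 : 0 < Real.sqrt h := lt_of_lt_of_le (by positivity) hsqrt
  have hb1 : 5 / Real.sqrt h ≤ δ / 8 := by
    rw [div_le_iff₀ hs0]
    rw [div_le_iff₀ hδ] at hsqrt
    linarith
  have hb2 : H ≤ X * (δ / 8) := by
    have a1 : X ^ (1 - ε) * (8 / δ) ≤ X := by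
      calc X ^ (1 - ε) * (8 / δ) ≤ X ^ (1 - ε) * X ^ ε := mul_le_mul_of_nonneg_left hX6 (by positivity)
        _ = X := hXX
    have a2 : H * (8 / δ) ≤ X := (mul_le_mul_of_nonneg_right h2 (by positivity)).trans a1
    rw [← mul_div_assoc, div_le_iff₀ hδ] at a2
    linarith
  have hb3 : (7 : ℝ) ≤ X * (δ / 8) := by
    rw [div_le_iff₀ hδ] at hX3
    linarith
  have e1 : (volume (VV f X H t)).toReal / X - Ph t = ((volume (VV f X H t)).toReal - X * Ph t) / X := by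
    field_simp
  rw [e1, abs_div, abs_of_pos hXp, div_le_iff₀ hXp]
  have hfin : X * (δ / 8 + 5 / Real.sqrt h) ≤ X * (δ / 8 + δ / 8) := by
    apply mul_le_mul_of_nonneg_left _ hXp.le
    linarith
  have hXδ : 0 < X * δ := by positivity
  linarith

theorem real_of_disc (f : ℕ → ℝ) (hf : ∀ n, |f n| ≤ 1) (hD : Disc f) : ∀ ε : ℝ, 0 < ε → ε < 1 / 2 → ∀ H : ℝ → ℝ,
    (∀ᶠ X in atTop, X ^ ε < H X ∧ H X < X ^ (1 - ε)) → ∀ t : ℝ,
    Tendsto (fun X : ℝ => (volume (VV f X (H X) t)).toReal / X) atTop (nhds (cdf (gaussianReal 0 1) t)) := by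
  intro ε hε _ H hH t
  rw [cdf_eq_real]
  change Tendsto _ atTop (nhds (Ph t))
  rw [Metric.tendsto_nhds]
  intro δ hδ
  obtain ⟨X₀, _, hX₀⟩ := real_unif f hf hD ε (δ / 2) hε (by positivity)
  filter_upwards [hH, eventually_ge_atTop X₀] with X hX1 hX2
  rw [Real.dist_eq]
  have := hX₀ X hX2 (H X) hX1.1.le hX1.2.le t
  linarith

end Pool.Agent.K4H14.GC
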