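import Pool.Agent.K4H14.GC.BC
import Pool.Agent.K4H14.GC.ToReal2

/-!
# The normal law holds almost surely
-/

set_option autoImplicit false

namespace Pool.Agent.K4H14.GC

open Finset MeasureTheory ProbabilityTheory Filter

theorem disc_step (f : ℕ → ℝ) (hf : ∀ N Y, Rad f N Y) (τ ε : ℝ) (K b : ℕ) (κ : ℝ)
    (hdet : ∃ N₀ : ℕ, 1 ≤ N₀ ∧
      ∀ N : ℕ, N₀ ≤ N → ∀ f : ℕ → ℝ, Rad f N (9 * N) → Good K (2 ^ b) κ f N → ∀ N' : ℕ, N ≤ N' → 2 ^ b * (N' - N) ≤ N →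
      ∀ h' : ℕ, (N' : ℝ) ^ ε ≤ h' → (h' : ℝ) ≤ (N' : ℝ) ^ (1 - ε) → ∀ x : ℝ,
      |(((Ioc N' (2 * N')).filter (fun n => W f h' n ≤ x * sg h')).card : ℝ) - N' * Ph x| ≤ 6 * τ * N')
    (hgood : ∀ᶠ v : ℕ in atTop, ∀ i : ℕ, 2 ^ b ≤ i → i < 2 ^ (b + 1) → Good K (2 ^ b) κ f (i * 2 ^ v)) :
    ∃ N₀ : ℕ, ∀ N' : ℕ, N₀ ≤ N' → ∀ h' : ℕ, (N' : ℝ) ^ ε ≤ h' → (h' : ℝ) ≤ (N' : ℝ) ^ (1 - ε) → ∀ x : ℝ,
      |(((Ioc N' (2 * N')).filter (fun n => W f h' n ≤ x * sg h')).card : ℝ) - N' * Ph x| ≤ 6 * τ * N' := by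
  obtain ⟨N₁, _, hdet⟩ := hdet
  obtain ⟨v₀, hv₀⟩ := eventually_atTop.1 hgood
  refine ⟨max (2 * N₁) (2 ^ (v₀ + b + 1)), ?_⟩
  intro N' hN'
  have h1 : 2 * N₁ ≤ N' := (le_max_left _ _).trans hN'
  have h2 : 2 ^ (v₀ + b + 1) ≤ N' := (le_max_right _ _).trans hN'
  have h3 : 2 ^ b ≤ N' := le_trans (Nat.pow_le_pow_right (by norm_num) (by omega)) h2
  obtain ⟨i, v, g, e1, hg, hi1, hi2⟩ := digits b N' h3
  have hb1 : 1 ≤ 2 ^ b := Nat.one_le_two_pow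
  have hv : v₀ ≤ v := by
    have h4 : N' < 2 ^ (b + 1 + v) := by
      rw [pow_add]
      calc N' = i * 2 ^ v + g := e1
        _ < i * 2 ^ v + 2 ^ v := by omega
        _ = (i + 1) * 2 ^ v := by ring
        _ ≤ 2 ^ (b + 1) * 2 ^ v := Nat.mul_le_mul_right _ hi2
    have h5 := (Nat.pow_lt_pow_iff_right (by norm_num : 1 < 2)).1 (lt_of_le_of_lt h2 h4)
    omega
  have hiv : 2 ^ v ≤ i * 2 ^ v := Nat.le_mul_of_pos_left _ (by omega)
  apply hdet (i * 2 ^ v) (by omega) f (hf _ _) (hv₀ v hv i hi1 hi2) N' (by omega)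
  have h6 : N' - i * 2 ^ v = g := by omega
  rw [h6]
  calc 2 ^ b * g ≤ 2 ^ b * 2 ^ v := Nat.mul_le_mul_left _ hg.le
    _ ≤ i * 2 ^ v := Nat.mul_le_mul_right _ hi1

theorem ae_disc {Ω : Type} [MeasurableSpace Ω] {P : Measure Ω} [IsProbabilityMeasure P] {e : ℕ → Ω → ℝ} (hS : Signs P e) :
    ∀ᵐ ω ∂P, Disc (rmf e ω) := by
  have hpos : ∀ m : ℕ, (0 : ℝ) < 1 / ((m : ℝ) + 1) := fun m => by positivity
  choose K b hK κ hκ hκK _ _ hdet using fun m₁ m₂ : ℕ => det (1 / ((m₂ : ℝ) + 1)) (1 / ((m₁ : ℝ) + 1)) (hpos m₂) (hpos m₁)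
  have h1 : ∀ᵐ ω ∂P, ∀ m₁ m₂ : ℕ, ∀ᶠ v : ℕ in Filter.atTop, ∀ i : ℕ, 2 ^ (b m₁ m₂) ≤ i → i < 2 ^ (b m₁ m₂ + 1) →
      Good (K m₁ m₂) (2 ^ (b m₁ m₂)) (κ m₁ m₂) (rmf e ω) (i * 2 ^ v) := by
    rw [ae_all_iff]
    intro m₁
    rw [ae_all_iff]
    intro m₂
    exact ae_good _ _ _ (hκ m₁ m₂) (hκK m₁ m₂) hS
  filter_upwards [h1] with ω hω
  intro ε τ hε hτ
  obtain ⟨m₁, hm₁⟩ := exists_nat_one_div_lt hε
  obtain ⟨m₂, hm₂⟩ := exists_nat_one_div_lt (show 0 < τ / 6 by positivity)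
  obtain ⟨N₀, hN₀⟩ := disc_step (rmf e ω) (rad_rmf hS ω) _ _ _ _ _ (hdet m₁ m₂) (hω m₁ m₂)
  refine ⟨max N₀ 1, fun N hN h hh1 hh2 x => ?_⟩
  have hN1 : (1 : ℝ) ≤ N := by exact_mod_cast (le_max_right _ _).trans hN
  refine (hN₀ N ((le_max_left _ _).trans hN) h ?_ ?_ x).trans ?_
  · exact (Real.rpow_le_rpow_of_exponent_le hN1 hm₁.le).trans hh1
  · exact hh2.trans (Real.rpow_le_rpow_of_exponent_le hN1 (by linarith))
  · apply mul_le_mul_of_nonneg_right _ (Nat.cast_nonneg _)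
    linarith

theorem rmf_abs {Ω : Type} [MeasurableSpace Ω] {P : Measure Ω} {e : ℕ → Ω → ℝ} (hS : Signs P e) (ω : Ω) (n : ℕ) :
    |rmf e ω n| ≤ 1 := by
  classical
  by_cases h : Squarefree n
  · rw [← cm_sqf e ω n h, cm_abs hS]
  · unfold rmf
    rw [if_neg h, abs_zero]
    exact zero_le_one

theorem almost_surely {Ω : Type} [MeasurableSpace Ω] {P : Measure Ω} [IsProbabilityMeasure P] {e : ℕ → Ω → ℝ} (hS : Signs P e) :
    ∀ᵐ ω ∂P, ∀ ε : ℝ, 0 < ε → ε < 1 / 2 → ∀ H : ℝ → ℝ,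
    (∀ᶠ X in atTop, X ^ ε < H X ∧ H X < X ^ (1 - ε)) → ∀ t : ℝ,
    Tendsto (fun X : ℝ => (volume (VV (rmf e ω) X (H X) t)).toReal / X) atTop (nhds (cdf (gaussianReal 0 1) t)) := by
  filter_upwards [ae_disc hS] with ω hω
  exact real_of_disc _ (rmf_abs hS ω) hω

/-- random signs exist -/
theorem exists_signs : ∃ (P : Measure (ℕ → Bool)) (_ : IsProbabilityMeasure P),
    Signs P (fun n ω => if ω n then (1 : ℝ) else -1) := by
  obtain ⟨ν, hν⟩ : ∃ ν : Measure Bool, ν = (PMF.uniformOfFintype Bool).toMeasure := ⟨_, rfl⟩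
  have hνp : IsProbabilityMeasure ν := by rw [hν]; infer_instance
  refine ⟨Measure.infinitePi (fun _ : ℕ => ν), inferInstance, ?_⟩
  have hm : Measurable (fun b : Bool => if b then (1 : ℝ) else -1) := measurable_from_top
  refine ⟨fun p _ => hm.comp (measurable_pi_apply p), ?_, fun p _ ω => ?_, fun p _ => ?_⟩
  · have h1 := iIndepFun_infinitePi (P := fun _ : ℕ => ν) (X := fun (_ : ℕ) (b : Bool) => if b then (1 : ℝ) else -1) (fun _ => hm)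
    exact h1.precomp (g := fun p : Nat.Primes => (p : ℕ)) (fun a b h => Subtype.ext h)
  · by_cases h : ω p = true
    · left; simp [h]
    · right; simp [h]
  · have h1 : {ω : ℕ → Bool | (if ω p then (1 : ℝ) else -1) = 1} = (fun ω : ℕ → Bool => ω p) ⁻¹' {true} := by
      ext ω
      simp only [Set.mem_setOf_eq, Set.mem_preimage, Set.mem_singleton_iff]
      by_cases h : ω p = true
      · simp [h]
      · have h2 : ω p = false := by simpa using h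
        simp [h2]
        norm_num
    rw [h1, ← Measure.map_apply (measurable_pi_apply p) (measurableSet_singleton _), Measure.infinitePi_map_eval, hν,
      PMF.toMeasure_apply_singleton _ _ (measurableSet_singleton _), PMF.uniformOfFintype_apply]
    simp

end Pool.Agent.K4H14.GC
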