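import Pool.Agent.K4H14.GC.Mom2

/-!
# The fourth moment over all lengths, by means of the binary digits
-/

set_option autoImplicit false

namespace Pool.Agent.K4H14.GC

open Finset

theorem W_add (f : ℕ → ℝ) (a b n : ℕ) : W f (a + b) n = W f a n + W f b (n + a) := by
  unfold W
  rw [← sum_union]
  · apply sum_congr _ (fun _ _ => rfl)
    ext m
    simp only [mem_union, mem_Ioc]
    omega
  · rw [disjoint_left]
    intro m hm hm'
    rw [mem_Ioc] at hm hm'
    omega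

theorem W_zero (f : ℕ → ℝ) (n : ℕ) : W f 0 n = 0 := by
  unfold W
  simp

/-- the norm of order four -/
noncomputable def N4 (f : ℕ → ℝ) (g A B : ℕ) : ℝ := (∑ m ∈ Ioc A B, |W f g m| ^ (4 : ℝ)) ^ (1 / (4 : ℝ))

theorem N4_nonneg (f : ℕ → ℝ) (g A B : ℕ) : 0 ≤ N4 f g A B := by unfold N4; positivity

theorem N4_mono (f : ℕ → ℝ) (g : ℕ) {A B A' B' : ℕ} (hA : A' ≤ A) (hB : B ≤ B') : N4 f g A B ≤ N4 f g A' B' := by
  unfold N4
  apply Real.rpow_le_rpow (by positivity) _ (by norm_num)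
  apply sum_le_sum_of_subset_of_nonneg
  · intro m hm
    rw [mem_Ioc] at hm ⊢
    omega
  · intro m _ _
    positivity

theorem N4_shift (f : ℕ → ℝ) (g A B c : ℕ) :
    (∑ m ∈ Ioc A B, |W f g (m + c)| ^ (4 : ℝ)) ^ (1 / (4 : ℝ)) = N4 f g (A + c) (B + c) := by
  unfold N4
  congr 1
  apply sum_bij (fun m _ => m + c)
  · intro m hm
    rw [mem_Ioc] at hm ⊢
    omega
  · intro m _ m' _ h
    omega
  · intro m hm
    rw [mem_Ioc] at hm
    exact ⟨m - c, by rw [mem_Ioc]; omega, by omega⟩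
  · intro m _
    rfl

theorem chain (f : ℕ → ℝ) (N M : ℕ) : ∀ s g A B : ℕ, g < 2 ^ s → N ≤ A → B + g ≤ M →
    N4 f g A B ≤ ∑ r ∈ range s, N4 f (2 ^ r) N M := by
  intro s
  induction s with
  | zero =>
    intro g A B hg _ _
    have : g = 0 := by simpa using hg
    rw [this, range_zero, sum_empty]
    unfold N4
    simp only [W_zero, abs_zero]
    rw [Real.zero_rpow (by norm_num), sum_const_zero, Real.zero_rpow (by norm_num)]
  | succ s ih =>
    intro g A B hg hA hB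
    rw [sum_range_succ]
    by_cases h : g < 2 ^ s
    · have := ih g A B h hA hB
      have h2 := N4_nonneg f (2 ^ s) N M
      linarith
    · obtain ⟨g', rfl⟩ : ∃ g', g = 2 ^ s + g' := ⟨g - 2 ^ s, by omega⟩
      have hg' : g' < 2 ^ s := by rw [pow_succ] at hg; omega
      have h1 : N4 f (2 ^ s + g') A B ≤ N4 f (2 ^ s) A B + N4 f g' (A + 2 ^ s) (B + 2 ^ s) := by
        rw [← N4_shift f g' A B (2 ^ s)]
        unfold N4
        have h2 := Real.Lp_add_le (Ioc A B) (fun m => W f (2 ^ s) m) (fun m => W f g' (m + 2 ^ s)) (p := 4) (by norm_num)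
        refine le_trans (le_of_eq ?_) h2
        congr 1
        apply sum_congr rfl
        intro m _
        rw [W_add]
      have h3 := ih g' (A + 2 ^ s) (B + 2 ^ s) hg' (by omega) (by omega)
      have h4 := N4_mono f (2 ^ s) (A := A) (B := B) (A' := N) (B' := M) hA (by omega)
      linarith

theorem rpow_four (x : ℝ) : |x| ^ (4 : ℝ) = x ^ 4 := by
  rw [show (4 : ℝ) = ((4 : ℕ) : ℝ) by norm_num, Real.rpow_natCast]
  have : |x| ^ 4 = (|x| ^ 2) ^ 2 := by ring
  rw [this, sq_abs]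
  ring

theorem N4_pow (f : ℕ → ℝ) (g A B : ℕ) : N4 f g A B ^ 4 = ∑ m ∈ Ioc A B, W f g m ^ 4 := by
  unfold N4
  rw [← Real.rpow_natCast, ← Real.rpow_mul (by positivity)]
  norm_num
  apply sum_congr rfl
  intro m _
  exact Even.pow_abs (by decide) _

theorem N4_le (f : ℕ → ℝ) (g A B : ℕ) (x : ℝ) (hx : 0 ≤ x) (h : ∑ m ∈ Ioc A B, W f g m ^ 4 ≤ x ^ 4) : N4 f g A B ≤ x := by
  rw [← N4_pow] at h
  exact le_of_pow_le_pow_left₀ (by norm_num) hx h

theorem geom (s : ℕ) : ∑ r ∈ range s, Real.sqrt 2 ^ r ≤ 3 * Real.sqrt 2 ^ s := by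
  have h1 : (1.4 : ℝ) < Real.sqrt 2 := by
    rw [Real.lt_sqrt (by norm_num)]
    norm_num
  rw [geom_sum_eq (by linarith), div_le_iff₀ (by linarith)]
  have : 0 < Real.sqrt 2 ^ s := by positivity
  nlinarith

theorem sqrt_pow_eq (r : ℕ) : Real.sqrt ((2 ^ r : ℕ) : ℝ) = Real.sqrt 2 ^ r := by
  push_cast
  rw [Real.sqrt_eq_iff_mul_self_eq (by positivity) (by positivity), ← mul_pow, Real.mul_self_sqrt (by norm_num)]

theorem W_abs {f : ℕ → ℝ} {N Y g n : ℕ} (hf : Rad f N Y) (hn : N ≤ n) (hY : n + g ≤ Y) : |W f g n| ≤ g := by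
  unfold W
  refine (abs_sum_le_sum_abs _ _).trans ?_
  calc ∑ m ∈ Ioc n (n + g), |f m| ≤ ∑ _m ∈ Ioc n (n + g), (1 : ℝ) := by
        apply sum_le_sum
        intro m hm
        rw [mem_Ioc] at hm
        have h1 := hf m (by omega) (by omega)
        by_cases hs : Squarefree m
        · have h2 := h1.1 hs
          rw [← sq_abs] at h2
          nlinarith [abs_nonneg (f m)]
        · rw [h1.2 hs, abs_zero]
          exact zero_le_one
    _ = g := by
        rw [sum_const, Nat.card_Ioc, nsmul_eq_mul, mul_one]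
        congr 1
        omega

theorem four (κ : ℝ) (hκ : 0 < κ) (hκ4 : κ * 4 ≤ 1) : ∃ D : ℝ, 0 ≤ D ∧ ∃ N₀ : ℕ, 1 ≤ N₀ ∧ ∀ N : ℕ, N₀ ≤ N →
    ∀ f : ℕ → ℝ, Rad f N (9 * N) →
    (∀ r : ℕ, (N : ℝ) ^ κ ≤ 2 ^ r → (2 : ℝ) ^ r * (N : ℝ) ^ κ ≤ N →
      |∑ n ∈ Ioc N (8 * N), BB f 4 (2 ^ r) n| ≤ N * (Real.sqrt 2 ^ r) ^ 4) →
    ∀ s : ℕ, (N : ℝ) ^ (4 * κ) ≤ 2 ^ s → (2 : ℝ) ^ s * (N : ℝ) ^ κ ≤ N → ∀ g A B : ℕ, g < 2 ^ s → N ≤ A → B + g ≤ 8 * N →
      ∑ m ∈ Ioc A B, W f g m ^ 4 ≤ D * N * 4 ^ s := by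
  obtain ⟨C, hC, hmom⟩ := moment 4 8 (by norm_num) (by norm_num) κ hκ (by push_cast; linarith)
  obtain ⟨E, hE⟩ : ∃ E : ℝ, E = C + 22 := ⟨_, rfl⟩
  have hE1 : 1 ≤ E := by rw [hE]; linarith
  -- `s ≤ N^κ`
  have hlog : ∀ᶠ N : ℕ in Filter.atTop, 2 * Real.log N + 1 ≤ (N : ℝ) ^ κ := by
    have h1 : Filter.Tendsto (fun N : ℕ => (2 * Real.log N + 1) / (N : ℝ) ^ κ) Filter.atTop (nhds 0) := by
      have h2 : Filter.Tendsto (fun x : ℝ => Real.log x / x ^ κ) Filter.atTop (nhds 0) :=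
        (isLittleO_log_rpow_atTop hκ).tendsto_div_nhds_zero
      have h3 : Filter.Tendsto (fun x : ℝ => 1 / x ^ κ) Filter.atTop (nhds 0) := by
        have := tendsto_rpow_neg_atTop hκ
        refine this.congr' ?_
        filter_upwards [Filter.eventually_gt_atTop 0] with x hx
        rw [Real.rpow_neg hx.le, one_div]
      have h4 := ((h2.const_mul 2).add h3).comp tendsto_natCast_atTop_atTop
      rw [mul_zero, add_zero] at h4
      refine h4.congr fun N => ?_
      simp only [Function.comp_apply]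
      ring
    have h2 := h1.eventually (gt_mem_nhds (show (0 : ℝ) < 1 by norm_num))
    filter_upwards [h2, Filter.eventually_ge_atTop 1] with N h3 hN
    have hN0 : (0 : ℝ) < N := by exact_mod_cast hN
    have h4 : 0 < (N : ℝ) ^ κ := by positivity
    rw [div_lt_one h4] at h3
    exact h3.le
  obtain ⟨N₁, hN₁⟩ := Filter.eventually_atTop.1 hlog
  refine ⟨(4 * E) ^ 4, by positivity, max N₁ 2, le_max_of_le_right (by norm_num), ?_⟩
  intro N hN f hf hgood s hs1 hs2 g A B hg hA hB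
  have hN2 : 2 ≤ N := (le_max_right _ _).trans hN
  have hNr : (1 : ℝ) ≤ N := by exact_mod_cast (by omega : 1 ≤ N)
  have hN0 : (0 : ℝ) < N := by linarith
  have hsl := hN₁ N ((le_max_left _ _).trans hN)
  have hq0 : 0 ≤ (N : ℝ) ^ (1 / (4 : ℝ)) := by positivity
  have hq4 : ((N : ℝ) ^ (1 / (4 : ℝ))) ^ 4 = N := by
    rw [← Real.rpow_natCast, ← Real.rpow_mul hN0.le]
    norm_num
  have hκ1 : (1 : ℝ) ≤ (N : ℝ) ^ κ := Real.one_le_rpow hNr hκ.le
  -- every power of two
  have hone : ∀ r ∈ range s, N4 f (2 ^ r) N (8 * N) ≤ E * (N : ℝ) ^ (1 / (4 : ℝ)) * (Real.sqrt 2 ^ r + (N : ℝ) ^ κ) := by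
    intro r hr
    rw [mem_range] at hr
    have hx0 : 0 ≤ E * (N : ℝ) ^ (1 / (4 : ℝ)) * (Real.sqrt 2 ^ r + (N : ℝ) ^ κ) := by positivity
    have hrs : (2 : ℝ) ^ r ≤ 2 ^ s := pow_le_pow_right₀ (by norm_num) hr.le
    have h2r : (2 : ℝ) ^ r ≤ N := by
      calc (2 : ℝ) ^ r ≤ 2 ^ s := hrs
        _ ≤ 2 ^ s * (N : ℝ) ^ κ := le_mul_of_one_le_right (by positivity) hκ1
        _ ≤ N := hs2
    apply N4_le f _ _ _ _ hx0
    by_cases hr1 : (N : ℝ) ^ κ ≤ 2 ^ r
    · have hr2 : (2 : ℝ) ^ r * (N : ℝ) ^ κ ≤ N := (mul_le_mul_of_nonneg_right hrs (by positivity)).trans hs2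
      have h1 := hmom N (2 ^ r) (by omega) (by push_cast; exact hr1) (by push_cast; exact hr2) f
        (fun m hm1 hm2 => hf m hm1 (by
          have : 2 ^ r ≤ N := by exact_mod_cast h2r
          omega))
      rw [abs_le] at h1
      have h2 := hgood r hr1 hr2
      rw [abs_le] at h2
      have h3 : gk 4 = 3 := by
        unfold gk
        rw [if_pos (by decide)]
        norm_num [Nat.doubleFactorial]
      have h4 : sg (2 ^ r) ^ 4 ≤ (Real.sqrt 2 ^ r) ^ 4 := by
        rw [← sqrt_pow_eq]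
        exact pow_le_pow_left₀ (Real.sqrt_nonneg _) (sg_le _) 4
      have h5 : (N : ℝ) ^ (1 - κ / 4) ≤ N := by
        nth_rewrite 2 [← Real.rpow_one (N : ℝ)]
        apply Real.rpow_le_rpow_of_exponent_le hNr
        linarith
      have h6 : ((8 * N - N : ℕ) : ℝ) = 7 * N := by
        rw [show 8 * N - N = 7 * N by omega]
        push_cast
        ring
      rw [h3, h6, sqrt_pow_eq] at h1
      have h7 : C * (N : ℝ) ^ (1 - κ / 4) * (Real.sqrt 2 ^ r) ^ 4 ≤ C * N * (Real.sqrt 2 ^ r) ^ 4 := by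
        apply mul_le_mul_of_nonneg_right _ (by positivity)
        exact mul_le_mul_of_nonneg_left h5 hC
      have h8 : 7 * (N : ℝ) * (3 * sg (2 ^ r) ^ 4) ≤ 21 * N * (Real.sqrt 2 ^ r) ^ 4 := by nlinarith
      calc ∑ m ∈ Ioc N (8 * N), W f (2 ^ r) m ^ 4 ≤ E * (N * (Real.sqrt 2 ^ r) ^ 4) := by
            rw [hE]
            linarith [h1.2, h2.2]
        _ ≤ E ^ 4 * (N * (Real.sqrt 2 ^ r) ^ 4) := by
            apply mul_le_mul_of_nonneg_right _ (by positivity)
            exact le_self_pow₀ hE1 (by norm_num)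
        _ = (E * (N : ℝ) ^ (1 / (4 : ℝ)) * Real.sqrt 2 ^ r) ^ 4 := by
            rw [mul_pow, mul_pow, hq4]
            ring
        _ ≤ _ := by
            apply pow_le_pow_left₀ (by positivity)
            apply mul_le_mul_of_nonneg_left _ (by positivity)
            linarith
    · push Not at hr1
      calc ∑ m ∈ Ioc N (8 * N), W f (2 ^ r) m ^ 4 ≤ ∑ _m ∈ Ioc N (8 * N), ((2 : ℝ) ^ r) ^ 4 := by
            apply sum_le_sum
            intro m hm
            rw [mem_Ioc] at hm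
            have h2r' : 2 ^ r ≤ N := by exact_mod_cast h2r
            have h1 := W_abs (g := 2 ^ r) hf hm.1.le (by omega)
            push_cast at h1
            calc W f (2 ^ r) m ^ 4 = |W f (2 ^ r) m| ^ 4 := by
                  have : |W f (2 ^ r) m| ^ 4 = (|W f (2 ^ r) m| ^ 2) ^ 2 := by ring
                  rw [this, sq_abs]
                  ring
              _ ≤ _ := pow_le_pow_left₀ (abs_nonneg _) h1 4
        _ = 7 * (N * ((2 : ℝ) ^ r) ^ 4) := by
            rw [sum_const, Nat.card_Ioc, nsmul_eq_mul, show 8 * N - N = 7 * N by omega]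
            push_cast
            ring
        _ ≤ E ^ 4 * (N * ((N : ℝ) ^ κ) ^ 4) := by
            apply mul_le_mul _ _ (by positivity) (by positivity)
            · calc (7 : ℝ) ≤ E := by rw [hE]; linarith
                _ ≤ E ^ 4 := le_self_pow₀ hE1 (by norm_num)
            · apply mul_le_mul_of_nonneg_left _ hN0.le
              exact pow_le_pow_left₀ (by positivity) hr1.le 4
        _ = (E * (N : ℝ) ^ (1 / (4 : ℝ)) * (N : ℝ) ^ κ) ^ 4 := by
            rw [mul_pow, mul_pow, hq4]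
            ring
        _ ≤ _ := by
            apply pow_le_pow_left₀ (by positivity)
            apply mul_le_mul_of_nonneg_left _ (by positivity)
            have : 0 ≤ Real.sqrt 2 ^ r := by positivity
            linarith
  have h1 := (chain f N (8 * N) s g A B hg hA hB).trans (sum_le_sum hone)
  rw [← mul_sum, sum_add_distrib, sum_const, card_range, nsmul_eq_mul] at h1
  have h2 : (s : ℝ) ≤ (N : ℝ) ^ κ := by
    have h3 : (2 : ℝ) ^ s ≤ N := (le_mul_of_one_le_right (by positivity) hκ1).trans hs2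
    have h4 : (s : ℝ) * Real.log 2 ≤ Real.log N := by
      rw [← Real.log_pow]
      exact Real.log_le_log (by positivity) h3
    have h5 : (1 / 2 : ℝ) ≤ Real.log 2 := by linarith [Real.log_two_gt_d9]
    have h6 : (0 : ℝ) ≤ s := Nat.cast_nonneg _
    nlinarith
  have h3 : (s : ℝ) * (N : ℝ) ^ κ ≤ Real.sqrt 2 ^ s := by
    calc (s : ℝ) * (N : ℝ) ^ κ ≤ (N : ℝ) ^ κ * (N : ℝ) ^ κ := mul_le_mul_of_nonneg_right h2 (by positivity)
      _ = (N : ℝ) ^ (2 * κ) := by
        rw [← Real.rpow_add hN0]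
        congr 1
        ring
      _ ≤ Real.sqrt 2 ^ s := by
        rw [← sqrt_pow_eq]
        apply Real.le_sqrt_of_sq_le
        rw [← Real.rpow_natCast, ← Real.rpow_mul hN0.le]
        push_cast
        refine le_trans (le_of_eq ?_) hs1
        congr 1
        ring
  have h4 : N4 f g A B ≤ E * (N : ℝ) ^ (1 / (4 : ℝ)) * (4 * Real.sqrt 2 ^ s) := by
    refine h1.trans ?_
    apply mul_le_mul_of_nonneg_left _ (by positivity)
    have := geom s
    linarith
  calc ∑ m ∈ Ioc A B, W f g m ^ 4 = N4 f g A B ^ 4 := (N4_pow f g A B).symm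
    _ ≤ (E * (N : ℝ) ^ (1 / (4 : ℝ)) * (4 * Real.sqrt 2 ^ s)) ^ 4 := pow_le_pow_left₀ (N4_nonneg _ _ _ _) h4 4
    _ = (4 * E) ^ 4 * N * (Real.sqrt 2 ^ s) ^ 4 := by
        rw [mul_pow, mul_pow, hq4]
        ring
    _ = (4 * E) ^ 4 * N * 4 ^ s := by
        congr 1
        rw [← pow_mul, mul_comm s 4, pow_mul]
        congr 1
        have : Real.sqrt 2 ^ 4 = (Real.sqrt 2 ^ 2) ^ 2 := by ring
        rw [this, Real.sq_sqrt (by norm_num)]
        norm_num

end Pool.Agent.K4H14.GC
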