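import Pool.Agent.K4H14.GC.Four
import Pool.Agent.K4H4.GL.Half

/-!
# The normal distribution function, and the distribution at the points of the grid
-/

set_option autoImplicit false

namespace Pool.Agent.K4H14.GC

open Finset MeasureTheory ProbabilityTheory

/-- the normal distribution function -/
noncomputable def Ph (x : ℝ) : ℝ := (gaussianReal 0 1).real (Set.Iic x)

theorem Ph_nonneg (x : ℝ) : 0 ≤ Ph x := measureReal_nonneg

theorem Ph_le_one (x : ℝ) : Ph x ≤ 1 := measureReal_le_one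

theorem Ph_mono {a b : ℝ} (h : a ≤ b) : Ph a ≤ Ph b := measureReal_mono (Set.Iic_subset_Iic.2 h)

theorem Ph_sub (a b M : ℝ) (hab : a ≤ b) (hM : ∀ x ∈ Set.Ioc a b, gaussianPDFReal 0 1 x ≤ M) :
    Ph b - Ph a ≤ M * (b - a) := by
  have h1 : Ph b - Ph a = (gaussianReal 0 1).real (Set.Ioc a b) := by
    unfold Ph
    have e : Set.Ioc a b = Set.Iic b \ Set.Iic a := by
      ext x
      simp only [Set.mem_Ioc, Set.mem_diff, Set.mem_Iic, not_le]
      exact and_comm
    rw [e, measureReal_diff (Set.Iic_subset_Iic.2 hab) measurableSet_Iic]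
  rw [h1, measureReal_def, gaussianReal_apply_eq_integral 0 one_ne_zero, ENNReal.toReal_ofReal]
  · have h2 : ∫ x in Set.Ioc a b, gaussianPDFReal 0 1 x ≤ ∫ _x in Set.Ioc a b, M := by
      apply setIntegral_mono_on
      · exact (integrable_gaussianPDFReal 0 1).integrableOn
      · exact integrableOn_const (by simp) (by simp)
      · exact measurableSet_Ioc
      · exact hM
    refine h2.trans (le_of_eq ?_)
    rw [setIntegral_const, measureReal_def, Real.volume_Ioc, ENNReal.toReal_ofReal (by linarith), smul_eq_mul]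
    ring
  · apply setIntegral_nonneg measurableSet_Ioc
    intro x _
    exact gaussianPDFReal_nonneg _ _ _

theorem pdf_le_exp (x : ℝ) : gaussianPDFReal 0 1 x ≤ Real.exp (-(x ^ 2 / 2)) := by
  unfold gaussianPDFReal
  have h1 : (Real.sqrt (2 * Real.pi * ((1 : NNReal) : ℝ)))⁻¹ ≤ 1 := by
    apply inv_le_one_of_one_le₀
    rw [Real.one_le_sqrt]
    norm_num
    nlinarith [Real.pi_gt_three]
  calc (Real.sqrt (2 * Real.pi * ((1 : NNReal) : ℝ)))⁻¹ * Real.exp (-(x - 0) ^ 2 / (2 * ((1 : NNReal) : ℝ))) ≤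
      1 * Real.exp (-(x - 0) ^ 2 / (2 * ((1 : NNReal) : ℝ))) := mul_le_mul_of_nonneg_right h1 (Real.exp_pos _).le
    _ = _ := by
      rw [one_mul]
      congr 1
      norm_num
      ring

theorem pdf_le_one (x : ℝ) : gaussianPDFReal 0 1 x ≤ 1 := by
  refine (pdf_le_exp x).trans ?_
  rw [Real.exp_le_one_iff]
  have : 0 ≤ x ^ 2 := sq_nonneg x
  linarith

theorem Ph_lip {a b : ℝ} (h : a ≤ b) : Ph b ≤ Ph a + (b - a) := by
  have := Ph_sub a b 1 h (fun x _ => pdf_le_one x)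
  linarith

theorem pdf_mul (x y : ℝ) (hxy : x ≤ |y|) : x * gaussianPDFReal 0 1 y ≤ 1 := by
  have h1 := pdf_le_exp y
  have h2 : y ^ 2 / 2 + 1 ≤ Real.exp (y ^ 2 / 2) := Real.add_one_le_exp _
  have h3 : x ≤ Real.exp (y ^ 2 / 2) := by
    refine le_trans ?_ h2
    have : y ^ 2 = |y| ^ 2 := (sq_abs y).symm
    rw [this]
    nlinarith [sq_nonneg (|y| - 1)]
  calc x * gaussianPDFReal 0 1 y ≤ Real.exp (y ^ 2 / 2) * Real.exp (-(y ^ 2 / 2)) :=
        mul_le_mul h3 h1 (gaussianPDFReal_nonneg _ _ _) (Real.exp_pos _).le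
    _ = 1 := by rw [← Real.exp_add]; simp

theorem Ph_scale (l x : ℝ) (hl : 1 ≤ l) : |Ph (l * x) - Ph x| ≤ l - 1 := by
  rcases le_total 0 x with hx | hx
  · have h1 : x ≤ l * x := le_mul_of_one_le_left hx hl
    rw [abs_of_nonneg (sub_nonneg.2 (Ph_mono h1))]
    rcases eq_or_lt_of_le hx with h0 | h0
    · rw [← h0]
      simp
      exact hl
    · refine (Ph_sub x (l * x) (1 / x) h1 (fun y hy => ?_)).trans (le_of_eq ?_)
      · rw [le_div_iff₀ h0, mul_comm]
        exact pdf_mul x y (hy.1.le.trans (le_abs_self y))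
      · field_simp
  · have h1 : l * x ≤ x := by nlinarith
    rw [abs_sub_comm, abs_of_nonneg (sub_nonneg.2 (Ph_mono h1))]
    rcases eq_or_lt_of_le hx with h0 | h0
    · rw [h0]
      simp
      exact hl
    · refine (Ph_sub (l * x) x (1 / (-x)) h1 (fun y hy => ?_)).trans (le_of_eq ?_)
      · rw [le_div_iff₀ (by linarith), mul_comm]
        exact pdf_mul (-x) y (le_trans (by linarith [hy.2]) (neg_le_abs y))
      · have : x ≠ 0 := h0.ne
        field_simp
        ring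

theorem gk_int (k : ℕ) : gk k = ∫ z : ℝ, z ^ k ∂(gaussianReal 0 1) := by
  unfold gk
  split_ifs with h
  · obtain ⟨a, ha⟩ := h
    rw [show k = 2 * a by omega]
    exact (Pool.Agent.R320.KL.gm_even a).symm
  · exact (Pool.Agent.R320.KL.gm_odd k (Nat.not_even_iff_odd.1 h) 1).symm

/-- the distribution from the moments -/
theorem dist_of_moments (τ : ℝ) (hτ : 0 < τ) : ∃ K : ℕ, 4 ≤ K ∧ ∃ E : ℝ, 0 < E ∧ ∀ (s : Finset ℕ) (X : ℕ → ℝ),
    (∀ k, 1 ≤ k → k ≤ K → |∑ i ∈ s, X i ^ k - s.card * gk k| ≤ E * s.card) →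
    ∀ x : ℝ, |((s.filter (fun i => X i ≤ x)).card : ℝ) - s.card * Ph x| ≤ τ * s.card := by
  obtain ⟨m0, hm0⟩ := exists_nat_gt ((25000 / τ) ^ 2)
  obtain ⟨m, hm⟩ : ∃ m, m = m0 + 2 := ⟨_, rfl⟩
  have hm1 : 1 ≤ m := by omega
  obtain ⟨Cm, hCm, h⟩ := Pool.Agent.K4H4.GL.half_line m hm1
  refine ⟨2 * m, by omega, τ / (2 * (Cm + 1)), by positivity, fun s X hmom x => ?_⟩
  have h1 := h s X (τ / (2 * (Cm + 1)) * s.card) (by positivity) (fun k hk1 hk2 => by
    unfold Pool.Agent.K4H4.GL.Lam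
    rw [← gk_int]
    exact hmom k hk1 hk2) x
  refine h1.trans ?_
  have h2 : 12500 / Real.sqrt m ≤ τ / 2 := by
    have hmr : (25000 / τ) ^ 2 ≤ m := by
      rw [hm]
      push_cast
      linarith
    have h3 : 25000 / τ ≤ Real.sqrt m := Real.le_sqrt_of_sq_le hmr
    have h4 : 0 < 25000 / τ := by positivity
    rw [div_le_iff₀ (by linarith)]
    calc (12500 : ℝ) = τ / 2 * (25000 / τ) := by field_simp; norm_num
      _ ≤ τ / 2 * Real.sqrt m := mul_le_mul_of_nonneg_left h3 (by positivity)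
  have h3 : Cm * (τ / (2 * (Cm + 1)) * s.card) ≤ τ / 2 * s.card := by
    have h4 : Cm * (τ / (2 * (Cm + 1))) ≤ τ / 2 := by
      rw [← mul_div_assoc, div_le_div_iff₀ (by positivity) (by norm_num)]
      nlinarith
    calc Cm * (τ / (2 * (Cm + 1)) * s.card) = (Cm * (τ / (2 * (Cm + 1)))) * s.card := by ring
      _ ≤ _ := mul_le_mul_of_nonneg_right h4 (Nat.cast_nonneg _)
  have h4 : 12500 / Real.sqrt m * s.card ≤ τ / 2 * s.card := mul_le_mul_of_nonneg_right h2 (Nat.cast_nonneg _)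
  linarith

end Pool.Agent.K4H14.GC
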