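import Pool.Agent.K4H4.GL.Grow

/-!
# The number of tuples in which every value occurs an even number of times
-/

set_option autoImplicit false

namespace Pool.Agent.K4H14.GC

open Finset

/-- the moment of a sum of `N` random signs -/
noncomputable def AM (m N : ℕ) : ℝ := (∑ j ∈ range (N + 1), N.choose j • ((N : ℝ) - 2 * j) ^ m) / 2 ^ N

/-- tuples in which every value occurs an even number of times -/
def Prd {k : ℕ} (t : Fin k → ℕ) : Prop := ∀ v, Even (univ.filter (fun i => t i = v)).card

theorem AM_eq (m : ℕ) {α : Type} [DecidableEq α] (S : Finset α) :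
    AM m S.card = (∑ A ∈ S.powerset, ((S.card : ℝ) - 2 * A.card) ^ m) / 2 ^ S.card := by
  unfold AM
  rw [Finset.sum_powerset_apply_card (fun j => ((S.card : ℝ) - 2 * j) ^ m)]

theorem AM_zero (N : ℕ) : AM 0 N = 1 := by
  unfold AM
  simp only [pow_zero, smul_eq_mul, nsmul_eq_mul, mul_one]
  rw [← Nat.cast_sum, Nat.sum_range_choose]
  push_cast
  exact div_self (by positivity)

theorem AM_zero' (m : ℕ) (hm : 1 ≤ m) : AM m 0 = 0 := by
  unfold AM
  simp
  omega

theorem AM_succ (m N : ℕ) : AM m (N + 1) = ∑ j ∈ range (m + 1), (m.choose j : ℝ) * ((1 + (-1) ^ j) / 2) * AM (m - j) N := by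
  have h1 := AM_eq m (range (N + 1))
  rw [card_range, range_add_one, powerset_insert, sum_union] at h1
  · rw [h1, sum_image]
    · have h2 : ∀ A ∈ (range N).powerset, (((N + 1 : ℕ) : ℝ) - 2 * (insert N A).card) ^ m = (((N : ℝ) - 2 * A.card) - 1) ^ m := by
        intro A hA
        rw [mem_powerset] at hA
        rw [card_insert_of_notMem (fun h => by have := mem_range.1 (hA h); omega)]
        push_cast
        congr 1
        ring
      rw [sum_congr rfl h2, ← sum_add_distrib]
      have h3 : ∀ A ∈ (range N).powerset, (((N + 1 : ℕ) : ℝ) - 2 * A.card) ^ m + (((N : ℝ) - 2 * A.card) - 1) ^ m =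
          ∑ j ∈ range (m + 1), (m.choose j : ℝ) * (1 + (-1) ^ j) * ((N : ℝ) - 2 * A.card) ^ (m - j) := by
        intro A _
        have e1 : (((N + 1 : ℕ) : ℝ) - 2 * A.card) = 1 + ((N : ℝ) - 2 * A.card) := by push_cast; ring
        have e2 : ((N : ℝ) - 2 * A.card) - 1 = (-1) + ((N : ℝ) - 2 * A.card) := by ring
        rw [e1, e2, add_pow, add_pow, ← sum_add_distrib]
        apply sum_congr rfl
        intro j _
        rw [one_pow]
        ring
      rw [sum_congr rfl h3, sum_comm, sum_div]
      apply sum_congr rfl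
      intro j _
      have h4 := AM_eq (m - j) (range N)
      rw [card_range] at h4
      rw [h4, ← mul_sum]
      rw [pow_succ]
      field_simp
    · intro A hA B hB hAB
      rw [mem_coe, mem_powerset] at hA hB
      have hA' : N ∉ A := fun h => by have := mem_range.1 (hA h); omega
      have hB' : N ∉ B := fun h => by have := mem_range.1 (hB h); omega
      have := congrArg (fun C => C.erase N) hAB
      simpa [erase_insert hA', erase_insert hB'] using this
  · rw [disjoint_left]
    intro A hA hA'
    rw [mem_powerset] at hA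
    obtain ⟨B, _, rfl⟩ := mem_image.1 hA'
    have := mem_range.1 (hA (mem_insert_self N B))
    omega

theorem pair_eq (k : ℕ) (S : Finset ℕ) [DecidablePred fun t : Fin k → ℕ => Prd t] :
    (((Fintype.piFinset (fun _ : Fin k => S)).filter (fun t => Prd t)).card : ℝ) = AM k S.card := by
  classical
  rw [AM_eq k S, eq_div_iff (by positivity), card_filter]
  push_cast
  have h1 : ∀ A ∈ S.powerset, ((S.card : ℝ) - 2 * A.card) ^ k =
      ∑ t ∈ Fintype.piFinset (fun _ : Fin k => S), ∏ v ∈ A, (-1 : ℝ) ^ (univ.filter (fun i => t i = v)).card := by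
    intro A hA
    rw [mem_powerset] at hA
    have e1 : (S.card : ℝ) - 2 * A.card = ∑ v ∈ S, (if v ∈ A then (-1 : ℝ) else 1) := by
      rw [sum_ite]
      have e2 : S.filter (fun v => v ∈ A) = A := by
        ext v
        rw [mem_filter]
        exact ⟨fun h => h.2, fun h => ⟨hA h, h⟩⟩
      have e3 : (S.filter (fun v => v ∉ A)).card + A.card = S.card := by
        have := card_filter_add_card_filter_not (s := S) (fun v => v ∈ A)
        rw [e2] at this
        omega
      rw [e2, sum_const, sum_const, nsmul_eq_mul, nsmul_eq_mul, mul_one]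
      have e4 : ((S.filter (fun v => v ∉ A)).card : ℝ) + A.card = S.card := by exact_mod_cast e3
      linarith
    rw [e1]
    have e5 : (∑ v ∈ S, (if v ∈ A then (-1 : ℝ) else 1)) ^ k = ∏ _i : Fin k, ∑ v ∈ S, (if v ∈ A then (-1 : ℝ) else 1) := by
      rw [prod_const, card_univ, Fintype.card_fin]
    rw [e5, prod_univ_sum]
    apply sum_congr rfl
    intro t ht
    rw [Fintype.mem_piFinset] at ht
    rw [← prod_fiberwise_of_maps_to (g := t) (t := S) (fun i _ => ht i)]
    rw [← prod_subset hA]
    · apply prod_congr rfl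
      intro v hv
      rw [← prod_const]
      apply prod_congr rfl
      intro i hi
      rw [mem_filter] at hi
      rw [hi.2, if_pos hv]
    · intro v _ hv
      apply prod_eq_one
      intro i hi
      rw [mem_filter] at hi
      rw [hi.2, if_neg hv]
  rw [sum_congr rfl h1, sum_comm, sum_mul]
  apply sum_congr rfl
  intro t ht
  rw [Fintype.mem_piFinset] at ht
  rw [← Finset.prod_one_add]
  split_ifs with hP
  · rw [one_mul]
    rw [prod_congr rfl (fun v _ => show (1 : ℝ) + (-1) ^ (univ.filter (fun i => t i = v)).card = 2 by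
      rw [(hP v).neg_one_pow]; norm_num)]
    rw [prod_const]
  · rw [zero_mul]
    symm
    unfold Prd at hP
    push Not at hP
    obtain ⟨v, hv⟩ := hP
    rw [Nat.not_even_iff_odd] at hv
    have hvS : v ∈ S := by
      obtain ⟨i, hi⟩ := card_pos.1 hv.pos
      rw [mem_filter] at hi
      rw [← hi.2]
      exact ht i
    apply prod_eq_zero hvS
    rw [hv.neg_one_pow]
    norm_num

theorem pair_asymp (m : ℕ) : ∃ C : ℝ, 0 ≤ C ∧ ∀ h : ℕ, 1 ≤ h → ∀ N ≤ h,
    |AM m N - Pool.Agent.K4H4.GL.PP m N| ≤ C * Real.sqrt h ^ m / Real.sqrt h := by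
  obtain ⟨C, hC, h1⟩ := Pool.Agent.K4H4.GL.growthG 1 le_rfl m
  refine ⟨C, hC, fun h hh N hN => ?_⟩
  apply h1 h hh (Real.sqrt h) (Real.one_le_sqrt.2 (by exact_mod_cast hh)) (Real.sq_sqrt (Nat.cast_nonneg _))
    AM (fun j => (1 + (-1) ^ j) / 2) AM_zero AM_zero' AM_succ
  · norm_num
  · norm_num
  · norm_num
  · intro j
    rw [one_pow]
    rcases neg_one_pow_eq_or ℝ j with hj | hj <;> rw [hj] <;> norm_num
  · exact hN

end Pool.Agent.K4H14.GC
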