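import Pool.Agent.Y293.SF.SQF

/-!
# Squarefree numbers in short intervals, in the mean
-/

set_option autoImplicit false

namespace Pool.Agent.K4H14.GC

open Finset
open Pool.Agent.Y293.SF (mu abs_mu_le indic_eq card_mult moebius_hasSum mu_zero)

/-- the number of squarefree numbers of `(n, n + h]` -/
noncomputable def sf (h n : ℕ) : ℕ := open Classical in ((Ioc n (n + h)).filter (fun m => Squarefree m)).card

theorem sf_le (h n : ℕ) : sf h n ≤ h := by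
  classical
  unfold sf
  refine (card_filter_le _ _).trans ?_
  rw [Nat.card_Ioc]
  omega

theorem mu_tail (z : ℕ) (hz : 1 ≤ z) : |∑ d ∈ Icc 1 z, mu d * (1 / (d : ℝ) ^ 2) - 6 / Real.pi ^ 2| ≤ 1 / (z : ℝ) := by
  have h1 := moebius_hasSum.tendsto_sum_nat
  have h2 : Filter.Tendsto (fun n : ℕ => |∑ d ∈ Icc 1 z, mu d * (1 / (d : ℝ) ^ 2) - ∑ i ∈ range n, mu i * (1 / (i : ℝ) ^ 2)|)
      Filter.atTop (nhds |∑ d ∈ Icc 1 z, mu d * (1 / (d : ℝ) ^ 2) - 6 / Real.pi ^ 2|) :=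
    (tendsto_const_nhds.sub h1).abs
  apply le_of_tendsto h2
  filter_upwards [Filter.eventually_ge_atTop (z + 1)] with n hn
  obtain ⟨Y, rfl⟩ : ∃ Y, n = Y + 1 := ⟨n - 1, by omega⟩
  have h3 : ∑ i ∈ range (Y + 1), mu i * (1 / (i : ℝ) ^ 2) = ∑ d ∈ Icc 1 z, mu d * (1 / (d : ℝ) ^ 2) +
      ∑ d ∈ Ioc z Y, mu d * (1 / (d : ℝ) ^ 2) := by
    have e1 : range (Y + 1) = insert 0 (Icc 1 z ∪ Ioc z Y) := by
      ext i
      simp only [mem_range, mem_insert, mem_union, mem_Icc, mem_Ioc]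
      omega
    have e2 : (0 : ℕ) ∉ Icc 1 z ∪ Ioc z Y := by
      simp only [mem_union, mem_Icc, mem_Ioc]
      omega
    have e3 : Disjoint (Icc 1 z) (Ioc z Y) := by
      rw [disjoint_left]
      intro i hi hi'
      rw [mem_Icc] at hi
      rw [mem_Ioc] at hi'
      omega
    rw [e1, sum_insert e2, sum_union e3, mu_zero, zero_mul, zero_add]
  rw [h3]
  have h4 : |∑ d ∈ Icc 1 z, mu d * (1 / (d : ℝ) ^ 2) - (∑ d ∈ Icc 1 z, mu d * (1 / (d : ℝ) ^ 2) +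
      ∑ d ∈ Ioc z Y, mu d * (1 / (d : ℝ) ^ 2))| = |∑ d ∈ Ioc z Y, mu d * (1 / (d : ℝ) ^ 2)| := by
    rw [← abs_neg]
    congr 1
    ring
  rw [h4]
  calc |∑ d ∈ Ioc z Y, mu d * (1 / (d : ℝ) ^ 2)| ≤ ∑ d ∈ Ioc z Y, |mu d * (1 / (d : ℝ) ^ 2)| := abs_sum_le_sum_abs _ _
    _ ≤ ∑ d ∈ Ioc z Y, ((d : ℝ) ^ 2)⁻¹ := by
        apply sum_le_sum
        intro d _
        rw [abs_mul, abs_of_nonneg (by positivity : (0 : ℝ) ≤ 1 / (d : ℝ) ^ 2), ← one_div]
        calc |mu d| * (1 / (d : ℝ) ^ 2) ≤ 1 * (1 / (d : ℝ) ^ 2) :=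
              mul_le_mul_of_nonneg_right (abs_mu_le d) (by positivity)
          _ = _ := one_mul _
    _ ≤ (z : ℝ)⁻¹ - (Y : ℝ)⁻¹ := sum_Ioc_inv_sq_le_sub (by omega) (by omega)
    _ ≤ 1 / z := by
        rw [one_div]
        have : (0 : ℝ) ≤ (Y : ℝ)⁻¹ := by positivity
        linarith

/-- the number of multiples of `d²` in `(n, n + h]` -/
def cd (h d n : ℕ) : ℕ := ((Ioc n (n + h)).filter (fun m => d ^ 2 ∣ m)).card

theorem cd_approx (h d n : ℕ) (hd : 1 ≤ d) : |(cd h d n : ℝ) - h / (d : ℝ) ^ 2| ≤ 1 := by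
  have hd2 : 0 < d ^ 2 := pow_pos (by omega) 2
  have h1 : cd h d n + n / d ^ 2 = (n + h) / d ^ 2 := by
    have e1 := card_mult (n + h) (d ^ 2) hd2
    have e2 := card_mult n (d ^ 2) hd2
    rw [← e1, ← e2]
    unfold cd
    rw [← card_union_of_disjoint]
    · congr 1
      ext m
      simp only [mem_union, mem_filter, mem_Ioc, mem_Icc]
      constructor
      · rintro (⟨⟨a1, a2⟩, a3⟩ | ⟨⟨a1, a2⟩, a3⟩)
        · exact ⟨⟨by omega, a2⟩, a3⟩
        · exact ⟨⟨a1, by omega⟩, a3⟩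
      · rintro ⟨⟨a1, a2⟩, a3⟩
        by_cases hm : m ≤ n
        · right; exact ⟨⟨a1, hm⟩, a3⟩
        · left; exact ⟨⟨by omega, a2⟩, a3⟩
    · rw [disjoint_left]
      intro m hm hm'
      simp only [mem_filter, mem_Ioc, mem_Icc] at hm hm'
      omega
  have h2 : (cd h d n : ℝ) = (((n + h) / d ^ 2 : ℕ) : ℝ) - ((n / d ^ 2 : ℕ) : ℝ) := by
    rw [← h1]
    push_cast
    ring
  have hdr : (0 : ℝ) < (d : ℝ) ^ 2 := by positivity
  have a1 : (((n + h) / d ^ 2 : ℕ) : ℝ) ≤ (n + h) / (d : ℝ) ^ 2 := by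
    have := @Nat.cast_div_le ℝ _ _ _ (n + h) (d ^ 2)
    push_cast at this
    exact this
  have a2 : ((n / d ^ 2 : ℕ) : ℝ) ≤ n / (d : ℝ) ^ 2 := by
    have := @Nat.cast_div_le ℝ _ _ _ n (d ^ 2)
    push_cast at this
    exact this
  have a3 : ((n : ℝ) + h) / (d : ℝ) ^ 2 < (((n + h) / d ^ 2 : ℕ) : ℝ) + 1 := by
    rw [div_lt_iff₀ hdr]
    have := Nat.lt_div_mul_add (a := n + h) (b := d ^ 2) hd2
    have h5 : n + h < ((n + h) / d ^ 2 + 1) * d ^ 2 := by linarith [this]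
    exact_mod_cast h5
  have a4 : (n : ℝ) / (d : ℝ) ^ 2 < ((n / d ^ 2 : ℕ) : ℝ) + 1 := by
    rw [div_lt_iff₀ hdr]
    have := Nat.lt_div_mul_add (a := n) (b := d ^ 2) hd2
    have h5 : n < (n / d ^ 2 + 1) * d ^ 2 := by linarith [this]
    exact_mod_cast h5
  rw [h2, abs_le]
  have a5 : (h : ℝ) / (d : ℝ) ^ 2 = ((n : ℝ) + h) / (d : ℝ) ^ 2 - n / (d : ℝ) ^ 2 := by ring
  rw [a5]
  constructor <;> linarith

theorem sf_eq (h n Y : ℕ) (hY : n + h ≤ Y) : (sf h n : ℝ) = ∑ d ∈ Icc 1 Y, mu d * (cd h d n : ℝ) := by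
  classical
  unfold sf cd
  rw [card_filter]
  push_cast
  have h1 : ∀ m ∈ Ioc n (n + h), (if Squarefree m then (1 : ℝ) else 0) = ∑ d ∈ Icc 1 Y, if d ^ 2 ∣ m then mu d else 0 := by
    intro m hm
    rw [mem_Ioc] at hm
    rw [indic_eq m (by omega)]
    apply sum_subset (Icc_subset_Icc_right (by omega))
    intro d hd hd'
    rw [if_neg]
    intro hdm
    apply hd'
    rw [mem_Icc] at hd ⊢
    refine ⟨hd.1, ?_⟩
    have : d ∣ m := dvd_trans (dvd_pow_self d two_ne_zero) hdm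
    exact Nat.le_of_dvd (by omega) this
  rw [sum_congr rfl h1, sum_comm]
  apply sum_congr rfl
  intro d _
  rw [← sum_filter, sum_const, nsmul_eq_mul, mul_comm]

theorem sum_cd (N Y h d : ℕ) (hd : 1 ≤ d) (S : Finset ℕ) (hS : ∀ n ∈ S, N < n ∧ n + h ≤ Y) :
    ∑ n ∈ S, (cd h d n : ℝ) ≤ h * (Y * ((d : ℝ) ^ 2)⁻¹) := by
  have h1 : ∑ n ∈ S, cd h d n ≤ ∑ m ∈ (Icc 1 Y).filter (fun m => d ^ 2 ∣ m), h := by
    have h2 : ∀ n ∈ S, cd h d n ≤ ∑ m ∈ (Icc 1 Y).filter (fun m => d ^ 2 ∣ m), if n < m ∧ m ≤ n + h then 1 else 0 := by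
      intro n hn
      have := hS n hn
      rw [← card_filter, filter_filter]
      unfold cd
      apply card_le_card
      intro m hm
      rw [mem_filter, mem_Ioc] at hm
      rw [mem_filter, mem_Icc]
      exact ⟨⟨by omega, by omega⟩, hm.2, hm.1⟩
    refine (sum_le_sum h2).trans ?_
    rw [sum_comm]
    apply sum_le_sum
    intro m _
    rw [← card_filter]
    have h3 : S.filter (fun n => n < m ∧ m ≤ n + h) ⊆ Ico (m - h) m := by
      intro n hn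
      rw [mem_filter] at hn
      rw [mem_Ico]
      omega
    refine (card_le_card h3).trans ?_
    rw [Nat.card_Ico]
    omega
  rw [sum_const, card_mult Y (d ^ 2) (pow_pos (by omega) 2), smul_eq_mul] at h1
  have h2 : ∑ n ∈ S, (cd h d n : ℝ) ≤ (((Y / d ^ 2 : ℕ) * h : ℕ) : ℝ) := by exact_mod_cast h1
  refine h2.trans ?_
  push_cast
  have h3 : (((Y / d ^ 2 : ℕ)) : ℝ) ≤ Y / (d : ℝ) ^ 2 := by
    have := @Nat.cast_div_le ℝ _ _ _ Y (d ^ 2)
    push_cast at this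
    exact this
  calc (((Y / d ^ 2 : ℕ)) : ℝ) * h ≤ (Y / (d : ℝ) ^ 2) * h := mul_le_mul_of_nonneg_right h3 (Nat.cast_nonneg _)
    _ = _ := by rw [div_eq_mul_inv]; ring

theorem sf_mean (R : ℕ) (hR : 1 ≤ R) (N h : ℕ) (hN : 1 ≤ N) (hh : 1 ≤ h) (hhN : h ≤ N) :
    ∑ n ∈ Ioc N (R * N), |(sf h n : ℝ) - 6 / Real.pi ^ 2 * h| ≤ 8 * R * N * Real.sqrt h := by
  obtain ⟨z, hz⟩ : ∃ z, z = Nat.sqrt h := ⟨_, rfl⟩
  have hz1 : 1 ≤ z := by rw [hz]; exact Nat.sqrt_pos.2 hh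
  have hzr : (1 : ℝ) ≤ z := by exact_mod_cast hz1
  have hz0 : (0 : ℝ) < z := by linarith
  have hzu : (z : ℝ) ≤ Real.sqrt h := by
    apply Real.le_sqrt_of_sq_le
    have : z ^ 2 ≤ h := by rw [hz, sq]; exact Nat.sqrt_le h
    exact_mod_cast this
  have hs0 : 0 < Real.sqrt h := by linarith
  have hss : Real.sqrt h * Real.sqrt h = h := Real.mul_self_sqrt (Nat.cast_nonneg _)
  have hzl : (h : ℝ) * (1 / (z : ℝ)) ≤ 2 * Real.sqrt h := by
    rw [mul_one_div, div_le_iff₀ hz0]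
    have h1 : Real.sqrt h < z + 1 := by
      rw [Real.sqrt_lt' (by linarith)]
      have : h < (z + 1) * (z + 1) := by rw [hz]; exact Nat.lt_succ_sqrt h
      have h2 : (h : ℝ) < (z + 1) * (z + 1) := by exact_mod_cast this
      rw [sq]; exact h2
    nlinarith
  obtain ⟨Y, hY⟩ : ∃ Y, Y = (R + 1) * N := ⟨_, rfl⟩
  have hzY : z ≤ Y := by
    have h1 : z ≤ h := by rw [hz]; exact Nat.sqrt_le_self h
    rw [hY]
    nlinarith
  have hkey : ∀ n ∈ Ioc N (R * N), |(sf h n : ℝ) - 6 / Real.pi ^ 2 * h| ≤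
      (z : ℝ) + h * (1 / z) + ∑ d ∈ Ioc z Y, (cd h d n : ℝ) := by
    intro n hn
    rw [mem_Ioc] at hn
    have hnY : n + h ≤ Y := by rw [hY]; nlinarith
    rw [sf_eq h n Y hnY]
    have e1 : Icc 1 Y = Icc 1 z ∪ Ioc z Y := by
      ext i
      simp only [mem_union, mem_Icc, mem_Ioc]
      omega
    have e3 : Disjoint (Icc 1 z) (Ioc z Y) := by
      rw [disjoint_left]
      intro i hi hi'
      rw [mem_Icc] at hi
      rw [mem_Ioc] at hi'
      omega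
    rw [e1, sum_union e3]
    have e4 : ∑ d ∈ Icc 1 z, mu d * (cd h d n : ℝ) + ∑ d ∈ Ioc z Y, mu d * (cd h d n : ℝ) - 6 / Real.pi ^ 2 * h =
        ∑ d ∈ Icc 1 z, mu d * ((cd h d n : ℝ) - h / (d : ℝ) ^ 2) + ∑ d ∈ Ioc z Y, mu d * (cd h d n : ℝ) +
          h * (∑ d ∈ Icc 1 z, mu d * (1 / (d : ℝ) ^ 2) - 6 / Real.pi ^ 2) := by
      have : ∑ d ∈ Icc 1 z, mu d * ((cd h d n : ℝ) - h / (d : ℝ) ^ 2) = ∑ d ∈ Icc 1 z, mu d * (cd h d n : ℝ) -
          h * ∑ d ∈ Icc 1 z, mu d * (1 / (d : ℝ) ^ 2) := by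
        rw [mul_sum, ← sum_sub_distrib]
        apply sum_congr rfl
        intro d _
        ring
      rw [this]
      ring
    rw [e4]
    have b1 : |∑ d ∈ Icc 1 z, mu d * ((cd h d n : ℝ) - h / (d : ℝ) ^ 2)| ≤ z := by
      refine (abs_sum_le_sum_abs _ _).trans ?_
      calc ∑ d ∈ Icc 1 z, |mu d * ((cd h d n : ℝ) - h / (d : ℝ) ^ 2)| ≤ ∑ _d ∈ Icc 1 z, (1 : ℝ) := by
            apply sum_le_sum
            intro d hd
            rw [mem_Icc] at hd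
            rw [abs_mul]
            calc |mu d| * |(cd h d n : ℝ) - h / (d : ℝ) ^ 2| ≤ 1 * 1 :=
                  mul_le_mul (abs_mu_le d) (cd_approx h d n hd.1) (abs_nonneg _) zero_le_one
              _ = 1 := one_mul 1
        _ = z := by rw [sum_const, Nat.card_Icc]; simp
    have b2 : |∑ d ∈ Ioc z Y, mu d * (cd h d n : ℝ)| ≤ ∑ d ∈ Ioc z Y, (cd h d n : ℝ) := by
      refine (abs_sum_le_sum_abs _ _).trans (sum_le_sum fun d _ => ?_)
      rw [abs_mul, Nat.abs_cast]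
      calc |mu d| * (cd h d n : ℝ) ≤ 1 * (cd h d n : ℝ) := mul_le_mul_of_nonneg_right (abs_mu_le d) (Nat.cast_nonneg _)
        _ = _ := one_mul _
    have b3 : |(h : ℝ) * (∑ d ∈ Icc 1 z, mu d * (1 / (d : ℝ) ^ 2) - 6 / Real.pi ^ 2)| ≤ (h : ℝ) * (1 / (z : ℝ)) := by
      rw [abs_mul, Nat.abs_cast]
      exact mul_le_mul_of_nonneg_left (mu_tail z hz1) (Nat.cast_nonneg _)
    refine (abs_add_three _ _ _).trans ?_
    linarith
  refine (sum_le_sum hkey).trans ?_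
  rw [sum_add_distrib, sum_const, Nat.card_Ioc, nsmul_eq_mul, sum_comm]
  have h1 : ∑ d ∈ Ioc z Y, ∑ n ∈ Ioc N (R * N), (cd h d n : ℝ) ≤ h * (Y * (1 / z)) := by
    calc ∑ d ∈ Ioc z Y, ∑ n ∈ Ioc N (R * N), (cd h d n : ℝ) ≤ ∑ d ∈ Ioc z Y, (h : ℝ) * (Y * ((d : ℝ) ^ 2)⁻¹) := by
          apply sum_le_sum
          intro d hd
          rw [mem_Ioc] at hd
          apply sum_cd N Y h d (by omega)
          intro n hn
          rw [mem_Ioc] at hn
          exact ⟨hn.1, by rw [hY]; nlinarith⟩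
      _ = h * (Y * ∑ d ∈ Ioc z Y, ((d : ℝ) ^ 2)⁻¹) := by rw [← mul_sum, ← mul_sum]
      _ ≤ h * (Y * (1 / z)) := by
          apply mul_le_mul_of_nonneg_left _ (Nat.cast_nonneg _)
          apply mul_le_mul_of_nonneg_left _ (Nat.cast_nonneg _)
          refine (sum_Ioc_inv_sq_le_sub (by omega) hzY).trans ?_
          rw [one_div]
          have : (0 : ℝ) ≤ (Y : ℝ)⁻¹ := by positivity
          linarith
  have h2 : ((R * N - N : ℕ) : ℝ) ≤ R * N := by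
    have : R * N - N ≤ R * N := Nat.sub_le _ _
    exact_mod_cast this
  have hR1 : (1 : ℝ) ≤ R := by exact_mod_cast hR
  have hN0 : (0 : ℝ) < N := by exact_mod_cast (by omega : 0 < N)
  have h3 : ((R * N - N : ℕ) : ℝ) * ((z : ℝ) + h * (1 / z)) ≤ R * N * (3 * Real.sqrt h) := by
    apply mul_le_mul h2 _ (by positivity) (by positivity)
    linarith
  have h4 : (h : ℝ) * (Y * (1 / z)) ≤ 4 * R * N * Real.sqrt h := by
    calc (h : ℝ) * (Y * (1 / z)) = Y * (h * (1 / z)) := by ring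
      _ ≤ Y * (2 * Real.sqrt h) := mul_le_mul_of_nonneg_left hzl (Nat.cast_nonneg _)
      _ ≤ (2 * R * N) * (2 * Real.sqrt h) := by
          apply mul_le_mul_of_nonneg_right _ (by positivity)
          rw [hY]
          push_cast
          nlinarith
      _ = _ := by ring
  have hNs : 0 ≤ R * N * Real.sqrt h := by positivity
  nlinarith

end Pool.Agent.K4H14.GC
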