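import Pool.Agent.K4H14.GC.Bad2
import Pool.Agent.K4H14.GC.Pair
import Pool.Agent.K4H14.GC.Sqf

/-!
# The moments of the sums over short intervals
-/

set_option autoImplicit false

namespace Pool.Agent.K4H14.GC

open Finset

/-- the sum of `f` over `(n, n + h]` -/
noncomputable def W (f : ℕ → ℝ) (h n : ℕ) : ℝ := ∑ m ∈ Ioc n (n + h), f m

/-- `f² = μ²` on `(N, Y]` -/
def Rad (f : ℕ → ℝ) (N Y : ℕ) : Prop :=
  ∀ m, N < m → m ≤ Y → (Squarefree m → f m ^ 2 = 1) ∧ (¬ Squarefree m → f m = 0)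

/-- squarefree tuples from `(n, n + h]` -/
noncomputable def TT (k h n : ℕ) : Finset (Fin k → ℕ) :=
  open Classical in Fintype.piFinset (fun _ : Fin k => (Ioc n (n + h)).filter (fun m => Squarefree m))

theorem mem_TT {k h n : ℕ} {t : Fin k → ℕ} :
    t ∈ TT k h n ↔ ∀ i, (n < t i ∧ t i ≤ n + h) ∧ Squarefree (t i) := by
  classical
  unfold TT
  simp only [Fintype.mem_piFinset, mem_filter, mem_Ioc]

/-- the part of the moment which comes from the tuples whose product is not a square -/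
noncomputable def BB (f : ℕ → ℝ) (k h n : ℕ) : ℝ :=
  open Classical in ∑ t ∈ (TT k h n).filter (fun t => ¬ IsSquare (∏ i, t i)), ∏ i, f (t i)

/-- tuples which are not paired but have a square product -/
noncomputable def QQ (k h n : ℕ) : Finset (Fin k → ℕ) :=
  open Classical in (TT k h n).filter (fun t => IsSquare (∏ i, t i) ∧ ¬ Prd t)

theorem prod_eq_pow {k : ℕ} (t : Fin k → ℕ) {M : Type} [CommMonoid M] (f : ℕ → M) :
    ∏ i, f (t i) = ∏ v ∈ univ.image t, f v ^ (univ.filter (fun i => t i = v)).card := by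
  rw [← prod_fiberwise_of_maps_to (g := t) (t := univ.image t) (fun i _ => mem_image_of_mem t (mem_univ i))]
  apply prod_congr rfl
  intro v _
  rw [← prod_const]
  apply prod_congr rfl
  intro i hi
  rw [mem_filter] at hi
  rw [hi.2]

theorem Prd_square {k : ℕ} {t : Fin k → ℕ} (h : Prd t) : IsSquare (∏ i, t i) := by
  have h1 := prod_eq_pow t (fun v : ℕ => v)
  rw [h1]
  refine ⟨∏ v ∈ univ.image t, v ^ ((univ.filter (fun i => t i = v)).card / 2), ?_⟩
  rw [← prod_mul_distrib]
  apply prod_congr rfl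
  intro v _
  obtain ⟨a, ha⟩ := h v
  rw [ha, show (a + a) / 2 = a by omega, pow_add]

theorem Prd_one {k : ℕ} {t : Fin k → ℕ} (h : Prd t) (f : ℕ → ℝ) (hf : ∀ i, f (t i) ^ 2 = 1) :
    ∏ i, f (t i) = 1 := by
  rw [prod_eq_pow t f]
  apply prod_eq_one
  intro v hv
  obtain ⟨i, _, rfl⟩ := mem_image.1 hv
  obtain ⟨a, ha⟩ := h (t i)
  rw [ha, ← two_mul, pow_mul, hf i, one_pow]

theorem pow_W {f : ℕ → ℝ} {N Y h n : ℕ} (hf : Rad f N Y) (hn : N ≤ n) (hY : n + h ≤ Y) (k : ℕ) :
    W f h n ^ k = ∑ t ∈ TT k h n, ∏ i, f (t i) := by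
  classical
  have h1 : W f h n = ∑ m ∈ (Ioc n (n + h)).filter (fun m => Squarefree m), f m := by
    unfold W
    rw [sum_filter]
    apply sum_congr rfl
    intro m hm
    rw [mem_Ioc] at hm
    split_ifs with hs
    · rfl
    · exact (hf m (by omega) (by omega)).2 hs
  rw [h1]
  unfold TT
  rw [← prod_univ_sum]
  simp only [prod_const, card_univ, Fintype.card_fin]

theorem decomp {f : ℕ → ℝ} {N Y h n : ℕ} (hf : Rad f N Y) (hn : N ≤ n) (hY : n + h ≤ Y) (k : ℕ) :
    |W f h n ^ k - AM k (sf h n) - BB f k h n| ≤ (QQ k h n).card := by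
  classical
  have hsq : ∀ t ∈ TT k h n, ∀ i, f (t i) ^ 2 = 1 := by
    intro t ht i
    have h1 := mem_TT.1 ht i
    exact (hf (t i) (by omega) (by omega)).1 h1.2
  have h1 : ∑ t ∈ TT k h n, ∏ i, f (t i) = BB f k h n + ∑ t ∈ (TT k h n).filter (fun t => IsSquare (∏ i, t i)), ∏ i, f (t i) := by
    unfold BB
    rw [add_comm]
    exact (sum_filter_add_sum_filter_not _ _ _).symm
  have h2 : ∑ t ∈ (TT k h n).filter (fun t => IsSquare (∏ i, t i)), ∏ i, f (t i) =
      ∑ t ∈ (TT k h n).filter (fun t => Prd t), ∏ i, f (t i) + ∑ t ∈ QQ k h n, ∏ i, f (t i) := by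
    unfold QQ
    rw [← sum_filter_add_sum_filter_not ((TT k h n).filter (fun t => IsSquare (∏ i, t i))) (fun t => Prd t)]
    congr 1
    · rw [filter_filter]
      apply sum_congr _ (fun _ _ => rfl)
      ext t
      simp only [mem_filter]
      constructor
      · rintro ⟨a, b, c⟩; exact ⟨a, c⟩
      · rintro ⟨a, c⟩; exact ⟨a, Prd_square c, c⟩
    · rw [filter_filter]
  have h3 : ∑ t ∈ (TT k h n).filter (fun t => Prd t), ∏ i, f (t i) = AM k (sf h n) := by
    have h4 : ∑ t ∈ (TT k h n).filter (fun t => Prd t), ∏ i, f (t i) = ∑ _t ∈ (TT k h n).filter (fun t => Prd t), (1 : ℝ) := by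
      apply sum_congr rfl
      intro t ht
      rw [mem_filter] at ht
      exact Prd_one ht.2 f (hsq t ht.1)
    rw [h4, sum_const, nsmul_eq_mul, mul_one]
    unfold TT sf
    exact pair_eq k _
  rw [pow_W hf hn hY k, h1, h2, h3]
  have h5 : BB f k h n + (AM k (sf h n) + ∑ t ∈ QQ k h n, ∏ i, f (t i)) - AM k (sf h n) - BB f k h n =
      ∑ t ∈ QQ k h n, ∏ i, f (t i) := by ring
  rw [h5]
  refine (abs_sum_le_sum_abs _ _).trans ?_
  rw [Finset.card_eq_sum_ones]
  push_cast
  apply sum_le_sum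
  intro t ht
  unfold QQ at ht
  rw [mem_filter] at ht
  rw [abs_prod]
  apply prod_le_one (fun i _ => abs_nonneg _)
  intro i _
  have := hsq t ht.1 i
  rw [← sq_abs] at this
  nlinarith [abs_nonneg (f (t i))]

/-- the number of windows which contain the tuple -/
def cw (N R h : ℕ) {k : ℕ} (t : Fin k → ℕ) : ℕ := ((Ioc N (R * N)).filter (fun n => ∀ i, n < t i ∧ t i ≤ n + h)).card

theorem cw_le (N R h : ℕ) {k : ℕ} (hk : 1 ≤ k) (t : Fin k → ℕ) : cw N R h t ≤ h := by
  unfold cw
  have h1 : (Ioc N (R * N)).filter (fun n => ∀ i, n < t i ∧ t i ≤ n + h) ⊆ Ico (t ⟨0, hk⟩ - h) (t ⟨0, hk⟩) := by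
    intro n hn
    rw [mem_filter] at hn
    have := hn.2 ⟨0, hk⟩
    rw [mem_Ico]
    omega
  refine (card_le_card h1).trans ?_
  rw [Nat.card_Ico]
  omega

/-- the sum of the exceptional tuples -/
theorem sum_QQ (N R h k : ℕ) (hk : 1 ≤ k) :
    ∑ n ∈ Ioc N (R * N), (QQ k h n).card ≤ h * (Bad N h (R * N + h) (fun _ : Fin k => 0)).card := by
  classical
  have h1 : ∀ n ∈ Ioc N (R * N), (QQ k h n).card ≤ ∑ t ∈ Bad N h (R * N + h) (fun _ : Fin k => 0),
      if (∀ i, n < t i ∧ t i ≤ n + h) then 1 else 0 := by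
    intro n hn
    rw [mem_Ioc] at hn
    rw [← card_filter]
    apply card_le_card
    intro t ht
    unfold QQ at ht
    rw [mem_filter, mem_TT] at ht
    obtain ⟨ht1, ht2, ht3⟩ := ht
    rw [mem_filter, mem_Bad]
    refine ⟨⟨fun i => ⟨by have := (ht1 i).1; omega, by have := (ht1 i).1; omega⟩, fun i j _ => by
      have a := (ht1 i).1; have b := (ht1 j).1; omega, fun i => (ht1 i).2, ht2, fun i => ?_⟩, fun i => (ht1 i).1⟩
    unfold Prd at ht3
    push Not at ht3
    obtain ⟨v, hv⟩ := ht3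
    rw [Nat.not_even_iff_odd] at hv
    refine ⟨v, ?_⟩
    convert hv using 3
    simp
  refine (sum_le_sum h1).trans ?_
  rw [sum_comm]
  calc _ ≤ ∑ _t ∈ Bad N h (R * N + h) (fun _ : Fin k => 0), h := by
        apply sum_le_sum
        intro t _
        rw [← card_filter]
        exact cw_le N R h hk t
    _ = _ := by rw [sum_const, smul_eq_mul, mul_comm]

/-- squarefree tuples of close numbers of `(N, R N + h]` whose product is not a square -/
noncomputable def NS (N R h k : ℕ) : Finset (Fin k → ℕ) :=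
  open Classical in (Fintype.piFinset (fun _ : Fin k => Ioc N (R * N + h))).filter
    (fun t => (∀ i j, t i ≤ t j + h) ∧ (∀ i, Squarefree (t i)) ∧ ¬ IsSquare (∏ i, t i))

theorem mem_NS {N R h k : ℕ} {t : Fin k → ℕ} :
    t ∈ NS N R h k ↔ (∀ i, N < t i ∧ t i ≤ R * N + h) ∧ (∀ i j, t i ≤ t j + h) ∧ (∀ i, Squarefree (t i)) ∧
      ¬ IsSquare (∏ i, t i) := by
  classical
  unfold NS
  simp only [mem_filter, Fintype.mem_piFinset, mem_Ioc]

/-- the sum of `BB` as a sum over tuples -/
theorem sum_BB (f : ℕ → ℝ) (N R h k : ℕ) :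
    ∑ n ∈ Ioc N (R * N), BB f k h n = ∑ t ∈ NS N R h k, (cw N R h t : ℝ) * ∏ i, f (t i) := by
  classical
  have h1 : ∀ n ∈ Ioc N (R * N), BB f k h n = ∑ t ∈ NS N R h k, if (∀ i, n < t i ∧ t i ≤ n + h) then ∏ i, f (t i) else 0 := by
    intro n hn
    rw [mem_Ioc] at hn
    unfold BB
    rw [← sum_filter]
    apply sum_congr _ (fun _ _ => rfl)
    ext t
    rw [mem_filter, mem_filter, mem_TT, mem_NS]
    constructor
    · rintro ⟨a, b⟩
      exact ⟨⟨fun i => ⟨by have := (a i).1; omega, by have := (a i).1; omega⟩, fun i j => by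
        have c := (a i).1; have d := (a j).1; omega, fun i => (a i).2, b⟩, fun i => (a i).1⟩
    · rintro ⟨⟨a, b, c, d⟩, e⟩
      exact ⟨fun i => ⟨e i, c i⟩, d⟩
  rw [sum_congr rfl h1, sum_comm]
  apply sum_congr rfl
  intro t _
  rw [← sum_filter, sum_const, nsmul_eq_mul]
  rfl

theorem exists_odd {k : ℕ} {t : Fin k → ℕ} (h : ¬ IsSquare (∏ i, t i)) :
    ∃ v, Odd (univ.filter (fun i => t i = v)).card := by
  by_contra hcon
  push Not at hcon
  exact h (Prd_square (fun v => Nat.not_odd_iff_even.1 (hcon v)))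

/-- the pairs of tuples with a square total product -/
theorem pairs_le (N R h k : ℕ) (hk : 1 ≤ k) :
    ∑ t ∈ NS N R h k, ∑ t' ∈ NS N R h k, (if IsSquare ((∏ i, t i) * ∏ i, t' i) then (cw N R h t : ℝ) * cw N R h t' else 0) ≤
      (h : ℝ) ^ 2 * (Bad N h (R * N + h) (Sum.elim (fun _ : Fin k => 0) (fun _ : Fin k => 1))).card := by
  classical
  have h1 : ∀ t ∈ NS N R h k, ∀ t' ∈ NS N R h k,
      (if IsSquare ((∏ i, t i) * ∏ i, t' i) then (cw N R h t : ℝ) * cw N R h t' else 0) ≤
        (h : ℝ) ^ 2 * (if IsSquare ((∏ i, t i) * ∏ i, t' i) then 1 else 0) := by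
    intro t _ t' _
    split_ifs
    · rw [mul_one, sq]
      have a : (cw N R h t : ℝ) ≤ h := by exact_mod_cast cw_le N R h hk t
      have b : (cw N R h t' : ℝ) ≤ h := by exact_mod_cast cw_le N R h hk t'
      exact mul_le_mul a b (Nat.cast_nonneg _) (Nat.cast_nonneg _)
    · rw [mul_zero]
  refine (sum_le_sum fun t ht => sum_le_sum fun t' ht' => h1 t ht t' ht').trans ?_
  have h2 : ∑ t ∈ NS N R h k, ∑ t' ∈ NS N R h k, (h : ℝ) ^ 2 * (if IsSquare ((∏ i, t i) * ∏ i, t' i) then (1 : ℝ) else 0) =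
      (h : ℝ) ^ 2 * ((((NS N R h k) ×ˢ (NS N R h k)).filter (fun x => IsSquare ((∏ i, x.1 i) * ∏ i, x.2 i))).card : ℝ) := by
    rw [card_filter, sum_product]
    push_cast
    rw [mul_sum]
    apply sum_congr rfl
    intro t _
    rw [mul_sum]
  rw [h2]
  apply mul_le_mul_of_nonneg_left _ (by positivity)
  have h3 : (((NS N R h k) ×ˢ (NS N R h k)).filter (fun x => IsSquare ((∏ i, x.1 i) * ∏ i, x.2 i))).card ≤
      (Bad N h (R * N + h) (Sum.elim (fun _ : Fin k => 0) (fun _ : Fin k => 1))).card := by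
    apply card_le_card_of_injOn (fun x => Sum.elim x.1 x.2)
    · intro x hx
      rw [mem_coe, mem_filter, mem_product, mem_NS, mem_NS] at hx
      obtain ⟨⟨⟨a1, a2, a3, a4⟩, ⟨b1, b2, b3, b4⟩⟩, hsq⟩ := hx
      rw [mem_coe, mem_Bad]
      refine ⟨?_, ?_, ?_, ?_, ?_⟩
      · rintro (i | i)
        · exact a1 i
        · exact b1 i
      · rintro (i | i) (j | j) hij
        · exact a2 i j
        · simp at hij
        · simp at hij
        · exact b2 i j
      · rintro (i | i)
        · exact a3 i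
        · exact b3 i
      · rw [Fintype.prod_sum_type]
        exact hsq
      · rintro (i | i)
        · obtain ⟨v, hv⟩ := exists_odd a4
          refine ⟨v, ?_⟩
          have : univ.filter (fun j : Fin k ⊕ Fin k => Sum.elim (fun _ : Fin k => 0) (fun _ : Fin k => 1) j =
              Sum.elim (fun _ : Fin k => 0) (fun _ : Fin k => 1) (Sum.inl i) ∧ Sum.elim x.1 x.2 j = v) =
              (univ.filter (fun j => x.1 j = v)).map Function.Embedding.inl := by
            ext j
            rcases j with j | j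
            · simp
            · simp
          rw [this, card_map]
          exact hv
        · obtain ⟨v, hv⟩ := exists_odd b4
          refine ⟨v, ?_⟩
          have : univ.filter (fun j : Fin k ⊕ Fin k => Sum.elim (fun _ : Fin k => 0) (fun _ : Fin k => 1) j =
              Sum.elim (fun _ : Fin k => 0) (fun _ : Fin k => 1) (Sum.inr i) ∧ Sum.elim x.1 x.2 j = v) =
              (univ.filter (fun j => x.2 j = v)).map Function.Embedding.inr := by
            ext j
            rcases j with j | j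
            · simp
            · simp
          rw [this, card_map]
          exact hv
    · intro x _ y _ hxy
      simp only at hxy
      apply Prod.ext
      · funext i
        exact congrFun hxy (Sum.inl i)
      · funext i
        exact congrFun hxy (Sum.inr i)
  exact_mod_cast h3

end Pool.Agent.K4H14.GC
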