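import Pool.Agent.K4H14.GC.Mom

/-!
# The moments of the sums over short intervals: asymptotic formula
-/

set_option autoImplicit false

namespace Pool.Agent.K4H14.GC

open Finset

/-- the moments of the normal law -/
noncomputable def gk (k : ℕ) : ℝ := if Even k then (Nat.doubleFactorial (k - 1) : ℝ) else 0

/-- the standard deviation -/
noncomputable def sg (h : ℕ) : ℝ := Real.sqrt (6 / Real.pi ^ 2 * h)

theorem sg_sq (h : ℕ) : sg h ^ 2 = 6 / Real.pi ^ 2 * h := Real.sq_sqrt (by positivity)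

theorem six_le : 6 / Real.pi ^ 2 ≤ 1 := by
  rw [div_le_one (by positivity)]
  nlinarith [Real.pi_gt_three]

theorem six_ge : 1 / 2 ≤ 6 / Real.pi ^ 2 := by
  rw [div_le_div_iff₀ (by norm_num) (by positivity)]
  nlinarith [Real.pi_lt_d2, Real.pi_gt_three]

theorem sg_le (h : ℕ) : sg h ≤ Real.sqrt h := by
  unfold sg
  apply Real.sqrt_le_sqrt
  calc 6 / Real.pi ^ 2 * h ≤ 1 * h := mul_le_mul_of_nonneg_right six_le (Nat.cast_nonneg _)
    _ = h := one_mul _

theorem pow_diff (a : ℕ) (x y H : ℝ) (hx : 0 ≤ x) (hy : 0 ≤ y) (hxH : x ≤ H) (hyH : y ≤ H) :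
    |x ^ a - y ^ a| * H ≤ a * H ^ a * |x - y| := by
  induction a with
  | zero => simp
  | succ a ih =>
    have hH : 0 ≤ H := hx.trans hxH
    have e : x ^ (a + 1) - y ^ (a + 1) = (x ^ a - y ^ a) * x + y ^ a * (x - y) := by ring
    rw [e]
    calc |(x ^ a - y ^ a) * x + y ^ a * (x - y)| * H ≤ (|(x ^ a - y ^ a) * x| + |y ^ a * (x - y)|) * H :=
          mul_le_mul_of_nonneg_right (abs_add_le _ _) hH
      _ = (|x ^ a - y ^ a| * H) * x + y ^ a * |x - y| * H := by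
          rw [abs_mul, abs_mul, abs_of_nonneg hx, abs_of_nonneg (by positivity : 0 ≤ y ^ a)]
          ring
      _ ≤ (a * H ^ a * |x - y|) * H + H ^ a * |x - y| * H := by
          apply add_le_add
          · apply mul_le_mul ih hxH hx (by positivity)
          · apply mul_le_mul_of_nonneg_right _ hH
            exact mul_le_mul_of_nonneg_right (pow_le_pow_left₀ hy hyH a) (abs_nonneg _)
      _ = _ := by push_cast; ring

theorem main_term (k R : ℕ) (hR : 1 ≤ R) : ∃ C : ℝ, 0 ≤ C ∧ ∀ N h : ℕ, 1 ≤ N → 1 ≤ h → h ≤ N →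
    ∑ n ∈ Ioc N (R * N), |AM k (sf h n) - gk k * sg h ^ k| ≤ C * N * Real.sqrt h ^ k / Real.sqrt h := by
  obtain ⟨C₁, hC₁, h1⟩ := pair_asymp k
  obtain ⟨D, hD⟩ : ∃ D : ℝ, D = (Nat.doubleFactorial (k - 1) : ℝ) := ⟨_, rfl⟩
  have hD0 : 0 ≤ D := by rw [hD]; exact Nat.cast_nonneg _
  refine ⟨R * C₁ + D * k * (8 * R), by positivity, ?_⟩
  intro N h hN hh hhN
  have hh1 : (1 : ℝ) ≤ h := by exact_mod_cast hh
  have hh0 : (0 : ℝ) < h := by linarith
  have hs1 : (1 : ℝ) ≤ Real.sqrt h := Real.one_le_sqrt.2 hh1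
  have hs0 : (0 : ℝ) < Real.sqrt h := by linarith
  have hss : Real.sqrt h * Real.sqrt h = h := Real.mul_self_sqrt hh0.le
  have h2 : ∀ n ∈ Ioc N (R * N), |AM k (sf h n) - gk k * sg h ^ k| ≤
      C₁ * Real.sqrt h ^ k / Real.sqrt h + D * k * Real.sqrt h ^ k / h * |(sf h n : ℝ) - 6 / Real.pi ^ 2 * h| := by
    intro n _
    have h3 := h1 h hh (sf h n) (sf_le h n)
    have h4 : |Pool.Agent.K4H4.GL.PP k (sf h n) - gk k * sg h ^ k| ≤ D * k * Real.sqrt h ^ k / h * |(sf h n : ℝ) - 6 / Real.pi ^ 2 * h| := by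
      unfold Pool.Agent.K4H4.GL.PP gk
      split_ifs with hk
      · obtain ⟨a, ha⟩ := hk
        have e1 : sg h ^ k = (6 / Real.pi ^ 2 * h) ^ a := by
          rw [← sg_sq, ← pow_mul]
          congr 1
          omega
        have e2 : Real.sqrt h ^ k = (h : ℝ) ^ a := by
          rw [show k = 2 * a by omega, pow_mul, Real.sq_sqrt hh0.le]
        rw [e1, e2, show k / 2 = a by omega, ← hD, ← mul_sub, abs_mul, abs_of_nonneg hD0]
        have h5 := pow_diff a (sf h n) (6 / Real.pi ^ 2 * h) h (Nat.cast_nonneg _) (by positivity)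
          (by exact_mod_cast sf_le h n) (by
            calc 6 / Real.pi ^ 2 * (h : ℝ) ≤ 1 * h := mul_le_mul_of_nonneg_right six_le hh0.le
              _ = h := one_mul _)
        have h6 : |(sf h n : ℝ) ^ a - (6 / Real.pi ^ 2 * h) ^ a| ≤ a * (h : ℝ) ^ a * |(sf h n : ℝ) - 6 / Real.pi ^ 2 * h| / h := by
          rw [le_div_iff₀ hh0]
          exact h5
        calc D * |(sf h n : ℝ) ^ a - (6 / Real.pi ^ 2 * h) ^ a| ≤ D * (a * (h : ℝ) ^ a * |(sf h n : ℝ) - 6 / Real.pi ^ 2 * h| / h) :=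
              mul_le_mul_of_nonneg_left h6 hD0
          _ = D * a * (h : ℝ) ^ a / h * |(sf h n : ℝ) - 6 / Real.pi ^ 2 * h| := by ring
          _ ≤ D * k * (h : ℝ) ^ a / h * |(sf h n : ℝ) - 6 / Real.pi ^ 2 * h| := by
              apply mul_le_mul_of_nonneg_right _ (abs_nonneg _)
              apply div_le_div_of_nonneg_right _ hh0.le
              apply mul_le_mul_of_nonneg_right _ (by positivity)
              apply mul_le_mul_of_nonneg_left _ hD0
              exact_mod_cast (by omega : a ≤ k)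
      · rw [zero_mul, sub_zero, abs_zero]
        positivity
    calc |AM k (sf h n) - gk k * sg h ^ k| = |(AM k (sf h n) - Pool.Agent.K4H4.GL.PP k (sf h n)) +
          (Pool.Agent.K4H4.GL.PP k (sf h n) - gk k * sg h ^ k)| := by congr 1; ring
      _ ≤ _ := (abs_add_le _ _).trans (add_le_add h3 h4)
  refine (sum_le_sum h2).trans ?_
  rw [sum_add_distrib, sum_const, Nat.card_Ioc, nsmul_eq_mul, ← mul_sum]
  have h3 := sf_mean R hR N h hN hh hhN
  have h4 : ((R * N - N : ℕ) : ℝ) ≤ R * N := by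
    have : R * N - N ≤ R * N := Nat.sub_le _ _
    exact_mod_cast this
  have h5 : ((R * N - N : ℕ) : ℝ) * (C₁ * Real.sqrt h ^ k / Real.sqrt h) ≤ R * N * (C₁ * Real.sqrt h ^ k / Real.sqrt h) :=
    mul_le_mul_of_nonneg_right h4 (by positivity)
  have h6 : D * k * Real.sqrt h ^ k / h * ∑ n ∈ Ioc N (R * N), |(sf h n : ℝ) - 6 / Real.pi ^ 2 * h| ≤
      D * k * Real.sqrt h ^ k / h * (8 * R * N * Real.sqrt h) := mul_le_mul_of_nonneg_left h3 (by positivity)
  have h7 : D * k * Real.sqrt h ^ k / h * (8 * R * N * Real.sqrt h) = D * k * (8 * R) * N * Real.sqrt h ^ k / Real.sqrt h := by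
    have hne : Real.sqrt h ≠ 0 := hs0.ne'
    have hne2 : (h : ℝ) ≠ 0 := hh0.ne'
    rw [div_mul_eq_mul_div, div_eq_div_iff hne2 hne]
    calc D * k * Real.sqrt h ^ k * (8 * R * N * Real.sqrt h) * Real.sqrt h =
        D * k * (8 * R) * N * Real.sqrt h ^ k * (Real.sqrt h * Real.sqrt h) := by ring
      _ = _ := by rw [hss]
  calc _ ≤ R * N * (C₁ * Real.sqrt h ^ k / Real.sqrt h) + D * k * (8 * R) * N * Real.sqrt h ^ k / Real.sqrt h := by
        rw [← h7]; exact add_le_add h5 h6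
    _ = _ := by ring

/-- the moments -/
theorem moment (k R : ℕ) (hk : 1 ≤ k) (hR : 1 ≤ R) (κ : ℝ) (hκ : 0 < κ) (hκk : κ * k ≤ 1) :
    ∃ C : ℝ, 0 ≤ C ∧ ∀ N h : ℕ, 1 ≤ N → (N : ℝ) ^ κ ≤ h → (h : ℝ) * (N : ℝ) ^ κ ≤ N →
      ∀ f : ℕ → ℝ, Rad f N (R * N + h) →
      |∑ n ∈ Ioc N (R * N), W f h n ^ k - ((R * N - N : ℕ) : ℝ) * (gk k * sg h ^ k) - ∑ n ∈ Ioc N (R * N), BB f k h n| ≤
        C * (N : ℝ) ^ (1 - κ / 4) * Real.sqrt h ^ k := by
  have : Nonempty (Fin k) := ⟨⟨0, hk⟩⟩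
  obtain ⟨C₁, hC₁, h1⟩ := main_term k R hR
  obtain ⟨C₂, hC₂, h2⟩ := bad_count (Fin k) (R + 1) (by omega) κ hκ (by rw [Fintype.card_fin]; exact hκk)
  refine ⟨C₂ + C₁, by positivity, ?_⟩
  intro N h hN hNh hhN f hf
  have hNr : (1 : ℝ) ≤ N := by exact_mod_cast hN
  have hN0 : (0 : ℝ) < N := by linarith
  have hs1 : (1 : ℝ) ≤ (N : ℝ) ^ κ := Real.one_le_rpow hNr hκ.le
  have hh1 : (1 : ℝ) ≤ h := hs1.trans hNh
  have hh1' : 1 ≤ h := by exact_mod_cast hh1
  have hh0 : (0 : ℝ) < h := by linarith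
  have hhN' : h ≤ N := by
    have h2 : (h : ℝ) ≤ N := by nlinarith
    exact_mod_cast h2
  have hsq0 : (0 : ℝ) < Real.sqrt h := Real.sqrt_pos.2 hh0
  have h3 : ∑ n ∈ Ioc N (R * N), |W f h n ^ k - AM k (sf h n) - BB f k h n| ≤ C₂ * (N : ℝ) ^ (1 - κ / 4) * Real.sqrt h ^ k := by
    calc ∑ n ∈ Ioc N (R * N), |W f h n ^ k - AM k (sf h n) - BB f k h n| ≤ ∑ n ∈ Ioc N (R * N), ((QQ k h n).card : ℝ) := by
          apply sum_le_sum
          intro n hn
          rw [mem_Ioc] at hn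
          exact decomp hf hn.1.le (by omega) k
      _ ≤ (h : ℝ) * (Bad N h (R * N + h) (fun _ : Fin k => 0)).card := by
          exact_mod_cast sum_QQ N R h k hk
      _ ≤ (h : ℝ) * (C₂ * (N : ℝ) ^ (-(κ / 4)) * (Real.sqrt h ^ k * ((N : ℝ) / h) ^ 1)) := by
          apply mul_le_mul_of_nonneg_left _ hh0.le
          have h4 := h2 N h (R * N + h) (fun _ => 0) hN hNh hhN (by omega) (by nlinarith)
          rw [Fintype.card_fin] at h4
          have h5 : (univ.image (fun _ : Fin k => 0)).card = 1 := by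
            rw [image_const univ_nonempty, card_singleton]
          rw [h5] at h4
          exact h4
      _ = C₂ * ((N : ℝ) ^ (-(κ / 4)) * N) * Real.sqrt h ^ k := by
          field_simp
      _ = _ := by
          congr 2
          nth_rewrite 2 [← Real.rpow_one (N : ℝ)]
          rw [← Real.rpow_add hN0]
          congr 1
          ring
  have h4 := h1 N h hN hh1' hhN'
  have h5 : C₁ * N * Real.sqrt h ^ k / Real.sqrt h ≤ C₁ * (N : ℝ) ^ (1 - κ / 4) * Real.sqrt h ^ k := by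
    rw [div_le_iff₀ hsq0]
    have h6 : (N : ℝ) ≤ (N : ℝ) ^ (1 - κ / 4) * Real.sqrt h := by
      have h7 : (N : ℝ) ^ (κ / 2) ≤ Real.sqrt h := by
        apply Real.le_sqrt_of_sq_le
        rw [← Real.rpow_natCast, ← Real.rpow_mul hN0.le]
        refine le_trans (le_of_eq ?_) hNh
        congr 1
        push_cast
        ring
      calc (N : ℝ) = (N : ℝ) ^ ((1 - κ / 4) + κ / 4) := by
            rw [show (1 - κ / 4) + κ / 4 = (1 : ℝ) by ring, Real.rpow_one]
        _ = (N : ℝ) ^ (1 - κ / 4) * (N : ℝ) ^ (κ / 4) := Real.rpow_add hN0 _ _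
        _ ≤ (N : ℝ) ^ (1 - κ / 4) * (N : ℝ) ^ (κ / 2) := by
            apply mul_le_mul_of_nonneg_left _ (by positivity)
            apply Real.rpow_le_rpow_of_exponent_le hNr
            linarith
        _ ≤ _ := mul_le_mul_of_nonneg_left h7 (by positivity)
    calc C₁ * N * Real.sqrt h ^ k ≤ C₁ * ((N : ℝ) ^ (1 - κ / 4) * Real.sqrt h) * Real.sqrt h ^ k := by
          apply mul_le_mul_of_nonneg_right _ (by positivity)
          exact mul_le_mul_of_nonneg_left h6 hC₁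
      _ = _ := by ring
  have h6 : ∑ n ∈ Ioc N (R * N), W f h n ^ k - ((R * N - N : ℕ) : ℝ) * (gk k * sg h ^ k) - ∑ n ∈ Ioc N (R * N), BB f k h n =
      ∑ n ∈ Ioc N (R * N), ((W f h n ^ k - AM k (sf h n) - BB f k h n) + (AM k (sf h n) - gk k * sg h ^ k)) := by
    have h7 : ((R * N - N : ℕ) : ℝ) * (gk k * sg h ^ k) = ∑ _n ∈ Ioc N (R * N), gk k * sg h ^ k := by
      rw [sum_const, Nat.card_Ioc, nsmul_eq_mul]
    rw [h7, ← sum_sub_distrib, ← sum_sub_distrib]
    apply sum_congr rfl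
    intro n _
    ring
  rw [h6]
  refine (abs_sum_le_sum_abs _ _).trans ?_
  calc ∑ n ∈ Ioc N (R * N), |(W f h n ^ k - AM k (sf h n) - BB f k h n) + (AM k (sf h n) - gk k * sg h ^ k)| ≤
      ∑ n ∈ Ioc N (R * N), |W f h n ^ k - AM k (sf h n) - BB f k h n| + ∑ n ∈ Ioc N (R * N), |AM k (sf h n) - gk k * sg h ^ k| := by
        rw [← sum_add_distrib]
        exact sum_le_sum fun n _ => abs_add_le _ _
    _ ≤ _ := by
        have := add_le_add h3 (h4.trans h5)
        refine this.trans (le_of_eq ?_)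
        ring

/-- the second moment of the remaining part, in terms of the correlations -/
theorem pairs_bound (k R : ℕ) (hk : 1 ≤ k) (hR : 1 ≤ R) (κ : ℝ) (hκ : 0 < κ) (hκk : κ * (2 * k) ≤ 1) :
    ∃ C : ℝ, 0 ≤ C ∧ ∀ N h : ℕ, 1 ≤ N → (N : ℝ) ^ κ ≤ h → (h : ℝ) * (N : ℝ) ^ κ ≤ N →
      open Classical in ∑ t ∈ NS N R h k, ∑ t' ∈ NS N R h k,
        (if IsSquare ((∏ i, t i) * ∏ i, t' i) then (cw N R h t : ℝ) * cw N R h t' else 0) ≤
        C * (N : ℝ) ^ (2 - κ / 4) * (Real.sqrt h ^ k) ^ 2 := by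
  classical
  have : Nonempty (Fin k ⊕ Fin k) := ⟨Sum.inl ⟨0, hk⟩⟩
  obtain ⟨C₂, hC₂, h2⟩ := bad_count (Fin k ⊕ Fin k) (R + 1) (by omega) κ hκ (by
    rw [Fintype.card_sum, Fintype.card_fin]
    refine le_trans (le_of_eq ?_) hκk
    push_cast
    ring)
  refine ⟨C₂, hC₂, ?_⟩
  intro N h hN hNh hhN
  have hNr : (1 : ℝ) ≤ N := by exact_mod_cast hN
  have hN0 : (0 : ℝ) < N := by linarith
  have hs1 : (1 : ℝ) ≤ (N : ℝ) ^ κ := Real.one_le_rpow hNr hκ.le
  have hh1 : (1 : ℝ) ≤ h := hs1.trans hNh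
  have hh1' : 1 ≤ h := by exact_mod_cast hh1
  have hh0 : (0 : ℝ) < h := by linarith
  have hhN' : h ≤ N := by
    have h2 : (h : ℝ) ≤ N := by nlinarith
    exact_mod_cast h2
  have h3 := pairs_le N R h k hk
  refine le_trans (le_of_eq ?_) (h3.trans ?_)
  · congr!
  have h4 := h2 N h (R * N + h) (Sum.elim (fun _ : Fin k => 0) (fun _ : Fin k => 1)) hN hNh hhN (by omega) (by nlinarith)
  rw [Fintype.card_sum, Fintype.card_fin] at h4
  have h5 : (univ.image (Sum.elim (fun _ : Fin k => 0) (fun _ : Fin k => 1))).card ≤ 2 := by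
    have : univ.image (Sum.elim (fun _ : Fin k => 0) (fun _ : Fin k => 1)) ⊆ ({0, 1} : Finset ℕ) := by
      intro x hx
      obtain ⟨i, _, rfl⟩ := mem_image.1 hx
      rcases i with i | i <;> simp
    refine (card_le_card this).trans ?_
    simp
  have hNh1 : (1 : ℝ) ≤ N / h := by
    rw [one_le_div hh0]
    exact_mod_cast hhN'
  calc (h : ℝ) ^ 2 * (Bad N h (R * N + h) (Sum.elim (fun _ : Fin k => 0) (fun _ : Fin k => 1))).card ≤
      (h : ℝ) ^ 2 * (C₂ * (N : ℝ) ^ (-(κ / 4)) * (Real.sqrt h ^ (k + k) * ((N : ℝ) / h) ^ 2)) := by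
        apply mul_le_mul_of_nonneg_left _ (by positivity)
        refine h4.trans ?_
        apply mul_le_mul_of_nonneg_left _ (by positivity)
        apply mul_le_mul_of_nonneg_left _ (by positivity)
        exact pow_le_pow_right₀ hNh1 h5
    _ = C₂ * ((N : ℝ) ^ (-(κ / 4)) * (N : ℝ) ^ (2 : ℕ)) * (Real.sqrt h ^ k) ^ 2 := by
        rw [← pow_mul, mul_two, div_pow]
        field_simp
    _ = _ := by
        congr 2
        rw [← Real.rpow_natCast (N : ℝ) 2, ← Real.rpow_add hN0]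
        congr 1
        push_cast
        ring

end Pool.Agent.K4H14.GC
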