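import Pool.Agent.K4H14.GC.Det2

/-!
# Random signs
-/

set_option autoImplicit false

namespace Pool.Agent.K4H14.GC

open Finset MeasureTheory ProbabilityTheory

/-- independent random signs `e p`, `p` prime -/
structure Signs {Ω : Type} [MeasurableSpace Ω] (P : Measure Ω) (e : ℕ → Ω → ℝ) : Prop where
  meas : ∀ p : ℕ, p.Prime → Measurable (e p)
  indep : iIndepFun (fun p : Nat.Primes => e (p : ℕ)) P
  val : ∀ p : ℕ, p.Prime → ∀ ω, e p ω = 1 ∨ e p ω = -1
  half : ∀ p : ℕ, p.Prime → P {ω | e p ω = 1} = 1 / 2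

/-- the completely multiplicative function with the values `e p` -/
noncomputable def cm {Ω : Type} (e : ℕ → Ω → ℝ) (ω : Ω) (n : ℕ) : ℝ := n.factorization.prod (fun p k => e p ω ^ k)

/-- the Rademacher random multiplicative function -/
noncomputable def rmf {Ω : Type} (e : ℕ → Ω → ℝ) (ω : Ω) (n : ℕ) : ℝ :=
  open Classical in if Squarefree n then ∏ p ∈ n.primeFactors, e p ω else 0

section

variable {Ω : Type} [MeasurableSpace Ω] {P : Measure Ω} {e : ℕ → Ω → ℝ}

theorem cm_mul (e : ℕ → Ω → ℝ) (ω : Ω) (a b : ℕ) (ha : a ≠ 0) (hb : b ≠ 0) : cm e ω (a * b) = cm e ω a * cm e ω b := by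
  unfold cm
  rw [Nat.factorization_mul ha hb, Finsupp.prod_add_index']
  · intro p; exact pow_zero _
  · intro p m n; exact pow_add _ _ _

theorem cm_one (e : ℕ → Ω → ℝ) (ω : Ω) : cm e ω 1 = 1 := by
  unfold cm
  simp

theorem cm_prod (e : ℕ → Ω → ℝ) (ω : Ω) {ι : Type} (S : Finset ι) (t : ι → ℕ) (ht : ∀ i ∈ S, t i ≠ 0) :
    cm e ω (∏ i ∈ S, t i) = ∏ i ∈ S, cm e ω (t i) := by
  classical
  induction S using Finset.induction_on with
  | empty => simp [cm_one]
  | insert x S hx ih =>
    rw [prod_insert hx, prod_insert hx, cm_mul _ _ _ _ (ht x (mem_insert_self _ _))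
      (prod_ne_zero_iff.2 fun i hi => ht i (mem_insert_of_mem hi)), ih fun i hi => ht i (mem_insert_of_mem hi)]

theorem cm_eq (e : ℕ → Ω → ℝ) (ω : Ω) (n : ℕ) : cm e ω n = ∏ p ∈ n.primeFactors, e p ω ^ n.factorization p := by
  unfold cm
  rw [Finsupp.prod, Nat.support_factorization]

theorem cm_sqf (e : ℕ → Ω → ℝ) (ω : Ω) (n : ℕ) (hn : Squarefree n) : cm e ω n = rmf e ω n := by
  classical
  unfold rmf
  rw [if_pos hn, cm_eq]
  apply prod_congr rfl
  intro p hp
  rw [Nat.factorization_eq_one_of_squarefree hn (Nat.prime_of_mem_primeFactors hp) (Nat.dvd_of_mem_primeFactors hp), pow_one]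

theorem cm_sq (hS : Signs P e) (ω : Ω) (n : ℕ) : cm e ω n ^ 2 = 1 := by
  rw [cm_eq, ← prod_pow]
  apply prod_eq_one
  intro p hp
  rw [← pow_mul, mul_comm, pow_mul]
  rcases hS.val p (Nat.prime_of_mem_primeFactors hp) ω with h | h <;> rw [h] <;> simp

theorem cm_abs (hS : Signs P e) (ω : Ω) (n : ℕ) : |cm e ω n| = 1 := by
  have h := cm_sq hS ω n
  rw [← sq_abs] at h
  have h2 : (0 : ℝ) ≤ |cm e ω n| := abs_nonneg _
  nlinarith

theorem rad_rmf (hS : Signs P e) (ω : Ω) (N Y : ℕ) : Rad (rmf e ω) N Y := by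
  classical
  intro m _ _
  refine ⟨fun h => ?_, fun h => ?_⟩
  · rw [← cm_sqf e ω m h]
    exact cm_sq hS ω m
  · unfold rmf
    rw [if_neg h]

theorem cm_meas (hS : Signs P e) (n : ℕ) : Measurable fun ω => cm e ω n := by
  simp only [cm_eq]
  apply Finset.measurable_prod
  intro p hp
  exact (hS.meas p (Nat.prime_of_mem_primeFactors hp)).pow_const _

theorem int_sign [IsProbabilityMeasure P] (hS : Signs P e) (p : ℕ) (hp : p.Prime) : ∫ ω, e p ω ∂P = 0 := by
  have hm := hS.meas p hp
  have hms : MeasurableSet {ω | e p ω = 1} := hm (measurableSet_singleton 1)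
  have h1 : ∀ ω, e p ω = ({ω | e p ω = 1} : Set Ω).indicator (fun _ => (2 : ℝ)) ω - 1 := by
    intro ω
    rcases hS.val p hp ω with h | h
    · rw [Set.indicator_of_mem (by exact h), h]
      norm_num
    · rw [Set.indicator_of_notMem (by
        change ¬ (e p ω = 1)
        rw [h]
        norm_num), h]
      norm_num
  rw [integral_congr_ae (Filter.Eventually.of_forall h1), integral_sub, integral_indicator_const _ hms]
  · simp only [integral_const, smul_eq_mul, mul_one]
    rw [measureReal_def, hS.half p hp]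
    simp
  · exact (integrable_const _).indicator hms
  · exact integrable_const _

theorem exists_odd_val (m : ℕ) (hm : m ≠ 0) (hsq : ¬ IsSquare m) : ∃ p ∈ m.primeFactors, Odd (m.factorization p) := by
  by_contra hcon
  push Not at hcon
  apply hsq
  refine ⟨∏ p ∈ m.primeFactors, p ^ (m.factorization p / 2), ?_⟩
  rw [← prod_mul_distrib]
  conv_lhs => rw [← Nat.prod_factorization_pow_eq_self hm, Finsupp.prod, Nat.support_factorization]
  apply prod_congr rfl
  intro p hp
  have h := hcon p hp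
  rw [Nat.not_odd_iff_even] at h
  obtain ⟨a, ha⟩ := h
  rw [ha, show (a + a) / 2 = a by omega, pow_add]

theorem int_cm [IsProbabilityMeasure P] (hS : Signs P e) (m : ℕ) (hm : m ≠ 0) (hsq : ¬ IsSquare m) :
    ∫ ω, cm e ω m ∂P = 0 := by
  classical
  obtain ⟨p, hp, hodd⟩ := exists_odd_val m hm hsq
  have h1 : ∀ ω, cm e ω m = ∏ q : {x // x ∈ m.primeFactors}, (fun x : ℝ => x ^ m.factorization q) (e q ω) := by
    intro ω
    rw [cm_eq, ← prod_coe_sort]
  have hg : Function.Injective (fun q : {x // x ∈ m.primeFactors} => (⟨q, Nat.prime_of_mem_primeFactors q.2⟩ : Nat.Primes)) := by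
    intro a b hab
    simp only [Subtype.mk.injEq] at hab
    exact Subtype.ext hab
  have hind := hS.indep.precomp hg
  have h2 := iIndepFun.integral_fun_prod_comp (X := fun (q : {x // x ∈ m.primeFactors}) => e (q : ℕ))
    (f := fun q x => x ^ m.factorization q) hind
    (fun q => (hS.meas q (Nat.prime_of_mem_primeFactors q.2)).aemeasurable)
    (fun q => (measurable_id.pow_const _).aestronglyMeasurable)
  rw [integral_congr_ae (Filter.Eventually.of_forall h1), h2]
  apply prod_eq_zero (mem_univ ⟨p, hp⟩)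
  have h3 : ∀ ω, (e p ω) ^ m.factorization p = e p ω := by
    intro ω
    rcases hS.val p (Nat.prime_of_mem_primeFactors hp) ω with h | h
    · rw [h, one_pow]
    · rw [h, hodd.neg_one_pow]
  rw [integral_congr_ae (Filter.Eventually.of_forall h3)]
  exact int_sign hS p (Nat.prime_of_mem_primeFactors hp)

/-- the sum of the remaining parts -/
noncomputable def Bt (N R h k : ℕ) (f : ℕ → ℝ) : ℝ := ∑ n ∈ Ioc N (R * N), BB f k h n

theorem Bt_rmf (e : ℕ → Ω → ℝ) (ω : Ω) (N R h k : ℕ) :
    Bt N R h k (rmf e ω) = ∑ t ∈ NS N R h k, (cw N R h t : ℝ) * cm e ω (∏ i, t i) := by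
  unfold Bt
  rw [sum_BB]
  apply sum_congr rfl
  intro t ht
  rw [mem_NS] at ht
  rw [cm_prod e ω univ t (fun i _ => by have := (ht.1 i).1; omega)]
  congr 1
  apply prod_congr rfl
  intro i _
  rw [cm_sqf e ω _ (ht.2.2.1 i)]

theorem Bt_sq [IsProbabilityMeasure P] (hS : Signs P e) (N R h k : ℕ) :
    ∫ ω, Bt N R h k (rmf e ω) ^ 2 ∂P ≤ open Classical in ∑ t ∈ NS N R h k, ∑ t' ∈ NS N R h k,
        (if IsSquare ((∏ i, t i) * ∏ i, t' i) then (cw N R h t : ℝ) * cw N R h t' else 0) := by
  classical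
  have hne : ∀ t ∈ NS N R h k, ∏ i, t i ≠ 0 := by
    intro t ht
    rw [mem_NS] at ht
    exact prod_ne_zero_iff.2 fun i _ => by have := (ht.1 i).1; omega
  have h1 : ∀ ω, Bt N R h k (rmf e ω) ^ 2 = ∑ t ∈ NS N R h k, ∑ t' ∈ NS N R h k,
      ((cw N R h t : ℝ) * cw N R h t') * cm e ω ((∏ i, t i) * ∏ i, t' i) := by
    intro ω
    rw [Bt_rmf, sq, sum_mul_sum]
    apply sum_congr rfl
    intro t ht
    apply sum_congr rfl
    intro t' ht'
    rw [cm_mul _ _ _ _ (hne t ht) (hne t' ht')]
    ring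
  have hint : ∀ m : ℕ, Integrable (fun ω => cm e ω m) P := by
    intro m
    apply Integrable.of_bound (cm_meas hS m).aestronglyMeasurable 1
    exact Filter.Eventually.of_forall fun ω => by rw [Real.norm_eq_abs, cm_abs hS]
  rw [integral_congr_ae (Filter.Eventually.of_forall h1), integral_finsetSum _ (fun t _ => integrable_finsetSum _ fun t' _ => (hint _).const_mul _)]
  apply le_of_eq
  apply sum_congr rfl
  intro t ht
  rw [integral_finsetSum _ (fun t' _ => (hint _).const_mul _)]
  apply sum_congr rfl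
  intro t' ht'
  rw [integral_const_mul]
  split_ifs with hsq
  · obtain ⟨r, hr⟩ := hsq
    have h2 : ∀ ω, cm e ω ((∏ i, t i) * ∏ i, t' i) = 1 := by
      intro ω
      rw [hr, cm_mul, ← sq, cm_sq hS]
      · rintro rfl
        exact mul_ne_zero (hne t ht) (hne t' ht') (by rw [hr, mul_zero])
      · rintro rfl
        exact mul_ne_zero (hne t ht) (hne t' ht') (by rw [hr, mul_zero])
    rw [integral_congr_ae (Filter.Eventually.of_forall h2)]
    simp
  · rw [int_cm hS _ (mul_ne_zero (hne t ht) (hne t' ht')) hsq, mul_zero]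

theorem Bt_meas (hS : Signs P e) (N R h k : ℕ) : Measurable fun ω => Bt N R h k (rmf e ω) := by
  simp only [Bt_rmf]
  apply Finset.measurable_sum
  intro t _
  exact (cm_meas hS _).const_mul _

end

end Pool.Agent.K4H14.GC
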