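import Pool.Agent.K4H14.GC.Det2

/-!
# From the integers to the real numbers
-/

set_option autoImplicit false

namespace Pool.Agent.K4H14.GC

open Finset MeasureTheory ProbabilityTheory

/-- the normal law for the sums over `(n, n + h]` -/
def Disc (f : ℕ → ℝ) : Prop := ∀ ε τ : ℝ, 0 < ε → 0 < τ → ∃ N₀ : ℕ, ∀ N : ℕ, N₀ ≤ N → ∀ h : ℕ, (N : ℝ) ^ ε ≤ h →
  (h : ℝ) ≤ (N : ℝ) ^ (1 - ε) → ∀ x : ℝ,
  |(((Ioc N (2 * N)).filter (fun n => W f h n ≤ x * sg h)).card : ℝ) - N * Ph x| ≤ τ * N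

/-- the sum over `|n - x| < H / 2` -/
noncomputable def MM (f : ℕ → ℝ) (x H : ℝ) : ℝ :=
  ∑ n ∈ (Finset.range (⌊x + H⌋₊ + 1)).filter (fun n : ℕ => |(n : ℝ) - x| < H / 2), f n

theorem MM_near (f : ℕ → ℝ) (hf : ∀ n, |f n| ≤ 1) (x H : ℝ) (hH : 0 ≤ H) (hx : H / 2 ≤ x) :
    |MM f x H - W f ⌊H⌋₊ ⌊x - H / 2⌋₊| ≤ 2 := by
  classical
  obtain ⟨b, hb⟩ : ∃ b, b = ⌊x - H / 2⌋₊ := ⟨_, rfl⟩
  obtain ⟨h, hh⟩ : ∃ h, h = ⌊H⌋₊ := ⟨_, rfl⟩
  rw [← hb, ← hh]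
  have hb1 : (b : ℝ) ≤ x - H / 2 := by rw [hb]; exact Nat.floor_le (by linarith)
  have hb2 : x - H / 2 < b + 1 := by rw [hb]; exact Nat.lt_floor_add_one _
  have hh1 : (h : ℝ) ≤ H := by rw [hh]; exact Nat.floor_le hH
  have hh2 : H < h + 1 := by rw [hh]; exact Nat.lt_floor_add_one _
  obtain ⟨S, hS⟩ : ∃ S : Finset ℕ, S = (Finset.range (⌊x + H⌋₊ + 1)).filter (fun n : ℕ => |(n : ℝ) - x| < H / 2) := ⟨_, rfl⟩
  have h1 : MM f x H = ∑ n ∈ S, f n := by unfold MM; rw [hS]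
  have h2 : W f h b = ∑ n ∈ Ioc b (b + h), f n := rfl
  have h3 : S \ Ioc b (b + h) ⊆ {b + h + 1} := by
    intro n hn
    rw [mem_sdiff, hS, mem_filter, mem_Ioc] at hn
    rw [mem_singleton]
    have h4 := abs_lt.1 hn.1.2
    have h5 : b < n := by
      have : (b : ℝ) < n := by linarith [h4.1]
      exact_mod_cast this
    have h6 : n < b + h + 2 := by
      have : (n : ℝ) < b + h + 2 := by linarith [h4.2]
      exact_mod_cast this
    have h7 := hn.2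
    omega
  have h4 : Ioc b (b + h) \ S ⊆ {b + h} := by
    intro n hn
    rw [mem_sdiff, hS, mem_filter, mem_Ioc] at hn
    rw [mem_singleton]
    by_contra hne
    apply hn.2
    have h5 : (n : ℝ) ≤ b + h - 1 := by
      have : n + 1 ≤ b + h := by omega
      have h6 : ((n + 1 : ℕ) : ℝ) ≤ ((b + h : ℕ) : ℝ) := by exact_mod_cast this
      push_cast at h6
      linarith
    have h6 : (b : ℝ) + 1 ≤ n := by exact_mod_cast hn.1.1
    constructor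
    · rw [mem_range]
      apply Nat.lt_succ_of_le
      apply Nat.le_floor
      linarith
    · rw [abs_lt]
      constructor <;> linarith
  have hbd : ∀ (A : Finset ℕ) (a : ℕ), A ⊆ {a} → |∑ n ∈ A, f n| ≤ 1 := by
    intro A a hA
    refine (abs_sum_le_sum_abs _ _).trans ?_
    calc ∑ n ∈ A, |f n| ≤ ∑ n ∈ ({a} : Finset ℕ), |f n| :=
          sum_le_sum_of_subset_of_nonneg hA fun _ _ _ => abs_nonneg _
      _ = |f a| := sum_singleton _ _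
      _ ≤ 1 := hf a
  have h5 : ∑ n ∈ S, f n - ∑ n ∈ Ioc b (b + h), f n = ∑ n ∈ S \ Ioc b (b + h), f n - ∑ n ∈ Ioc b (b + h) \ S, f n := by
    have e1 := sum_inter_add_sum_sdiff S (Ioc b (b + h)) f
    have e2 := sum_inter_add_sum_sdiff (Ioc b (b + h)) S f
    rw [inter_comm] at e2
    linarith
  rw [h1, h2, h5]
  calc |∑ n ∈ S \ Ioc b (b + h), f n - ∑ n ∈ Ioc b (b + h) \ S, f n| ≤
      |∑ n ∈ S \ Ioc b (b + h), f n| + |∑ n ∈ Ioc b (b + h) \ S, f n| := abs_sub _ _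
    _ ≤ 1 + 1 := add_le_add (hbd _ _ h3) (hbd _ _ h4)
    _ = 2 := by norm_num

theorem vol_le (X H : ℝ) (hH : 0 ≤ H) (hX : H ≤ X) (hX1 : 1 ≤ X) (Q : ℕ → Prop) [DecidablePred Q] (V : Set ℝ)
    (hV : ∀ x ∈ V, x ∈ Set.Icc X (2 * X) ∧ Q ⌊x - H / 2⌋₊) :
    volume V ≤ ENNReal.ofReal ((((Ioc ⌊X⌋₊ (2 * ⌊X⌋₊)).filter Q).card : ℝ) + (H / 2 + 6)) := by
  classical
  obtain ⟨N, hN⟩ : ∃ N, N = ⌊X⌋₊ := ⟨_, rfl⟩
  have hN1 : (N : ℝ) ≤ X := by rw [hN]; exact Nat.floor_le (by linarith)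
  have hN2 : X < N + 1 := by rw [hN]; exact Nat.lt_floor_add_one _
  obtain ⟨b0, hb0⟩ : ∃ b0, b0 = ⌊X - H / 2⌋₊ := ⟨_, rfl⟩
  obtain ⟨b1, hb1⟩ : ∃ b1, b1 = ⌊2 * X - H / 2⌋₊ := ⟨_, rfl⟩
  have hb0' : X - H / 2 < b0 + 1 := by rw [hb0]; exact Nat.lt_floor_add_one _
  have hb1' : (b1 : ℝ) ≤ 2 * X - H / 2 := by rw [hb1]; exact Nat.floor_le (by linarith)
  have h1 : V ⊆ ⋃ b ∈ (Icc b0 b1).filter Q, Set.Ico ((b : ℝ) + H / 2) (b + 1 + H / 2) := by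
    intro x hx
    obtain ⟨⟨hx1, hx2⟩, hQ⟩ := hV x hx
    rw [Set.mem_iUnion₂]
    refine ⟨⌊x - H / 2⌋₊, ?_, ?_⟩
    · rw [mem_filter, mem_Icc]
      refine ⟨⟨?_, ?_⟩, hQ⟩
      · rw [hb0]
        exact Nat.floor_le_floor (by linarith)
      · rw [hb1]
        exact Nat.floor_le_floor (by linarith)
    · rw [Set.mem_Ico]
      have a1 : ((⌊x - H / 2⌋₊ : ℕ) : ℝ) ≤ x - H / 2 := Nat.floor_le (by linarith)
      have a2 : x - H / 2 < ((⌊x - H / 2⌋₊ : ℕ) : ℝ) + 1 := Nat.lt_floor_add_one _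
      constructor <;> linarith
  have h2 : volume V ≤ (((Icc b0 b1).filter Q).card : ENNReal) := by
    refine (measure_mono h1).trans ((measure_biUnion_finset_le _ _).trans ?_)
    have : ∀ b ∈ (Icc b0 b1).filter Q, volume (Set.Ico ((b : ℝ) + H / 2) (b + 1 + H / 2)) ≤ 1 := by
      intro b _
      rw [Real.volume_Ico]
      rw [show ((b : ℝ) + 1 + H / 2 - (b + H / 2)) = 1 by ring, ENNReal.ofReal_one]
    refine (sum_le_sum this).trans ?_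
    rw [sum_const, nsmul_eq_mul, mul_one]
  refine h2.trans ?_
  rw [← ENNReal.ofReal_natCast]
  apply ENNReal.ofReal_le_ofReal
  rw [← hN]
  have h3 : (Icc b0 b1).filter Q ⊆ (Ioc N (2 * N)).filter Q ∪ (Icc b0 N ∪ Ioc (2 * N) b1) := by
    intro b hb
    rw [mem_filter, mem_Icc] at hb
    rw [mem_union, mem_union, mem_filter, mem_Ioc, mem_Icc, mem_Ioc]
    by_cases c1 : b ≤ N
    · right; left; exact ⟨hb.1.1, c1⟩
    · by_cases c2 : b ≤ 2 * N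
      · left; exact ⟨⟨by omega, c2⟩, hb.2⟩
      · right; right; exact ⟨by omega, hb.1.2⟩
  have h4 := (card_le_card h3).trans ((card_union_le _ _).trans (Nat.add_le_add_left (card_union_le _ _) _))
  rw [Nat.card_Icc, Nat.card_Ioc] at h4
  have h5 : ((N + 1 - b0 : ℕ) : ℝ) ≤ H / 2 + 2 := by
    rcases le_total b0 (N + 1) with c | c
    · rw [Nat.cast_sub c]
      push_cast
      linarith
    · rw [Nat.sub_eq_zero_of_le c]
      push_cast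
      linarith
  have h6 : ((b1 - 2 * N : ℕ) : ℝ) ≤ 4 := by
    rcases le_total (2 * N) b1 with c | c
    · rw [Nat.cast_sub c]
      push_cast
      linarith
    · rw [Nat.sub_eq_zero_of_le c]
      push_cast
      linarith
  have h7 : (((Icc b0 b1).filter Q).card : ℝ) ≤ ((Ioc N (2 * N)).filter Q).card + (((N + 1 - b0 : ℕ) : ℝ) + ((b1 - 2 * N : ℕ) : ℝ)) := by
    exact_mod_cast h4
  linarith

end Pool.Agent.K4H14.GC
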